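import Pool.Agent.Helper58.CCZ.Fld
import Pool.Agent.Helper80.OKC.Fld
import Pool.Agent.Helper80.SUB.Cc

/-! THE CLASS CC WITH A DERIVATIVE WHICH IS NOT SMALL (`der`): data of degree `k` such that typically some partial
derivative of the polynomial at the point, in a direction different from `t`, is not small. Closure properties. -/

set_option autoImplicit false

namespace Pool.Agent.Helper58.CCZ

open Finset Filter Topology Pool.Agent.Helper69.RK Pool.Agent.Helper31.EC Pool.Agent.Helper31.EC.Sp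
open Pool.Agent.Helper40.EL Pool.Agent.Helper84.MT Pool.Agent.Helper36.AM Pool.Agent.Helper49.MD
open Pool.Agent.Helper75.CC Pool.Agent.Helper29.MX Pool.Agent.Helper77.WDG Pool.Agent.Helper24.PR
open Pool.Agent.Helper80.OKC Pool.Agent.Helper80.SUB

noncomputable section

variable {S T : Sp} {M k : ℕ} {E E' : ℕ → ℕ} {ι κ : Type} {t : Fin M} {w : Fin M → ℝ} {W : ℝ} {s : MSys S M E ι}

/-- (der): some partial derivative at the point is not small -/
def Der (d : Dt k t w W s) : Prop := ∃ K : ℕ → ℝ, S.Sub K ∧ S.Typ fun n ω => ∃ i, i ≠ t ∧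
  1 ≤ K n * |MvPolynomial.eval (s.Q.v n ω) (MvPolynomial.pderiv i (d.Φ n ω))|

/-- (der) with levels -/
theorem der_iff (d : Dt k t w W s) : Der d ↔ ∀ ε : ℝ, 0 < ε → S.Typ fun n ω => ∃ i, i ≠ t ∧
    S.dl ε n ≤ |MvPolynomial.eval (s.Q.v n ω) (MvPolynomial.pderiv i (d.Φ n ω))| := by
  classical
  constructor
  · rintro ⟨K, hK, h⟩ ε hε
    refine h.mono ?_
    filter_upwards [hK.eventually_le hε, hK.1] with n h1 h2 ω _ h3
    obtain ⟨i, hi, h4⟩ := h3
    refine ⟨i, hi, ?_⟩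
    have h5 := S.dl_pos ε n
    have h6 : (2 : ℝ) ^ (ε * (S.F n).n) * S.dl ε n = 1 := by
      unfold Sp.dl
      rw [← Real.rpow_add (by norm_num), add_neg_cancel, Real.rpow_zero]
    have h7 : K n ≤ 2 ^ (ε * (S.F n).n) := by linarith
    have h8 : 1 ≤ 2 ^ (ε * (S.F n).n) * |MvPolynomial.eval (s.Q.v n ω) (MvPolynomial.pderiv i (d.Φ n ω))| :=
      h4.trans (mul_le_mul_of_nonneg_right h7 (abs_nonneg _))
    calc S.dl ε n = S.dl ε n * 1 := (mul_one _).symm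
      _ ≤ S.dl ε n * (2 ^ (ε * (S.F n).n) * |MvPolynomial.eval (s.Q.v n ω) (MvPolynomial.pderiv i (d.Φ n ω))|) :=
          mul_le_mul_of_nonneg_left h8 h5.le
      _ = (2 ^ (ε * (S.F n).n) * S.dl ε n) * |MvPolynomial.eval (s.Q.v n ω) (MvPolynomial.pderiv i (d.Φ n ω))| := by ring
      _ = _ := by rw [h6, one_mul]
  · intro h
    obtain ⟨f, hf⟩ : ∃ f : ∀ n, (S.F n).Ω → ℝ, f = fun n ω => ∑ i ∈ univ.filter (fun i => i ≠ t),
      |MvPolynomial.eval (s.Q.v n ω) (MvPolynomial.pderiv i (d.Φ n ω))| := ⟨_, rfl⟩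
    obtain ⟨K, hK, hK1, hT⟩ := Pool.Agent.Helper3.LF.typ_sub_ge f 0 (fun ε hε => by
      refine (h ε hε).mono (Eventually.of_forall fun n ω _ h1 => ?_)
      obtain ⟨i, hi, h2⟩ := h1
      have e1 : (2 : ℝ) ^ ((0 - ε) * (S.F n).n) = S.dl ε n := by
        unfold Sp.dl
        congr 1
        ring
      rw [e1, hf]
      exact h2.trans (Finset.single_le_sum (f := fun i => |MvPolynomial.eval (s.Q.v n ω) (MvPolynomial.pderiv i
        (d.Φ n ω))|) (fun _ _ => abs_nonneg _) (Finset.mem_filter.2 ⟨Finset.mem_univ i, hi⟩)))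
    refine ⟨fun n => K n * (M + 1), hK.mul (S.Sub_const (by positivity)), hT.mono (Eventually.of_forall
      fun n ω _ h1 => ?_)⟩
    rw [zero_mul, Real.rpow_zero] at h1
    by_contra hcon
    push Not at hcon
    have h2 : f n ω ≤ (univ.filter (fun i : Fin M => i ≠ t)).card • (1 / (K n * (M + 1))) := by
      rw [hf]
      refine Finset.sum_le_card_nsmul _ _ _ fun i hi => ?_
      have h3 := hcon i (Finset.mem_filter.1 hi).2
      have h4 : 0 < K n * ((M : ℝ) + 1) := mul_pos (by linarith [hK1 n]) (by positivity)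
      rw [le_div_iff₀ h4, mul_comm]
      exact h3.le
    rw [nsmul_eq_mul] at h2
    have h5 : ((univ.filter (fun i : Fin M => i ≠ t)).card : ℝ) ≤ M := by
      have := Finset.card_filter_le (univ : Finset (Fin M)) (fun i => i ≠ t)
      rw [Finset.card_univ, Fintype.card_fin] at this
      exact_mod_cast this
    have hK0 : 0 < K n := by linarith [hK1 n]
    have h6 : K n * f n ω ≤ K n * (M * (1 / (K n * (M + 1)))) :=
      mul_le_mul_of_nonneg_left (h2.trans (mul_le_mul_of_nonneg_right h5 (by positivity))) hK0.le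
    have h7 : K n * (M * (1 / (K n * (M + 1)))) = M / ((M : ℝ) + 1) := by
      field_simp
    rw [h7] at h6
    have h8 : (M : ℝ) / (M + 1) < 1 := by
      rw [div_lt_one (by positivity)]
      linarith
    linarith

/-- (der) holds in systems without hulls -/
theorem der_of_stb [Finite ι] (d : Dt k t w W s) (hw : ∀ j, 1 ≤ w j) (hs : Stb 0 s (rbot S)) : Der d :=
  (der_iff d).mpr fun _ hε => pderiv_large d hw (nr_of_stb hs) hε

/-- data with (der) -/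
def DD (k : ℕ) (t : Fin M) (w : Fin M → ℝ) (W : ℝ) (s : MSys S M E ι) : Prop := ∃ d : Dt k t w W s, Der d

theorem DD.im (h : DD k t w W s) (p : Pj T S) (A : ∀ k, (T.F k).Ω → Prop) (hA : 0 < ul (T.pr A)) :
    DD k t w W (s.im p A hA) := by
  obtain ⟨d, K, hK, h⟩ := h
  exact ⟨d.im p A hA, K, hK, typ_im p A hA h⟩

theorem DD.pull (h : DD k t w W s) (p : Pj T S) : DD k t w W (s.pull p) := by
  obtain ⟨d, K, hK, h⟩ := h
  exact ⟨d.pull p, K, p.sub hK, p.typ h⟩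

theorem DD.trn (h : DD k t w W s) {r : ℝ} (h0 : 0 < r) (hr : r ≤ 1) : DD k t w W (s.trn r h0 hr) := by
  obtain ⟨d, K, hK, h⟩ := h
  exact ⟨d.trn h0 hr, K, chg_sub S.tr r h0 hK, h⟩

theorem DD.of_win (h : DD k t w W s) {s' : MSys S M E' ι} (hQ : s'.Q = s.Q)
    (hw : ∀ i (b : ℝ), 0 ≤ b → b ≤ 1 → PLe ((s'.lf i).win b) ((s.lf i).win b)) : DD k t w W s' := by
  obtain ⟨d, K, hK, h⟩ := h
  refine ⟨Dt.of_win d hQ (hw d.i), K, hK, ?_⟩
  show S.Typ fun n ω => ∃ i, i ≠ t ∧ 1 ≤ K n * |MvPolynomial.eval (s'.Q.v n ω) (MvPolynomial.pderiv i (d.Φ n ω))|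
  rw [hQ]
  exact h

theorem DD.tay (h : DD k t w W s) {s' : MSys S M E' ι} (ht : Tay s s') : DD k t w W s' := by
  obtain ⟨hQ, h1⟩ := ht
  refine h.of_win hQ fun i b _ _ => ?_
  obtain ⟨he, _, _, _, _, _, hL, hY, _⟩ := h1 i
  rw [win_congr (s.lf i) (s'.lf i) he hL hY b]
  exact PLe.refl _

/-- auxiliary systems -/
theorem DD.sub (h : DD k t w W s) {p : Pj T S} {s' : MSys T M E' κ} (H : Sub s p s') : DD k t w W s' := by
  obtain ⟨d, K, hK, h⟩ := h
  obtain ⟨j, Z, hj⟩ := SL_sub d.sl H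
  obtain ⟨Q', lf'⟩ := s'
  have hQ : Q' = p.vv s.Q := H.pt
  subst hQ
  refine ⟨{
    i := j
    L := fun n => Setoid.comap (p.π n) (d.L n) ⊓ Z n
    W0 := (d.pull p).W0
    a := (d.pull p).a
    Φ := (d.pull p).Φ
    sl := hj
    fa := by
      filter_upwards [(d.pull p).fa] with n hn ω ω' h1 h2 h3 h4
      exact hn ω ω' h1 h2 h3 h4.1
    ba := (d.pull p).ba
    nW := (d.pull p).nW
    fΦ := (d.pull p).fΦ
    wd := (d.pull p).wd
    bΦ := (d.pull p).bΦ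
    nd := (d.pull p).nd
    eq := (d.pull p).eq }, K, p.sub hK, p.typ h⟩

/-- change of the point by the finest resolution -/
theorem DD.pnt (h : DD k t w W s) (hw : ∀ j, 1 ≤ w j) {s' : MSys S M E ι} (hn : Nrq s s') : DD k t w W s' := by
  classical
  obtain ⟨d, K0, hK0, h0⟩ := h
  obtain ⟨h1, K, hK, hc⟩ := hn
  obtain ⟨K2, hK2, h2⟩ := phi_bounds d hw
  obtain ⟨K3, hK3, h3⟩ := d.eq
  obtain ⟨K4, hK4, h4⟩ := d.ba
  obtain ⟨KQ, hKQ, hQ⟩ := s.Q.bd
  obtain ⟨KQ', hKQ', hQ'⟩ := s'.Q.bd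
  have hB : S.Sub (fun n => KQ n + KQ' n + 1) := (hKQ.add hKQ').add (S.Sub_const zero_le_one)
  obtain ⟨D, hD⟩ : ∃ D : ℕ, D = ⌊W⌋₊ := ⟨_, rfl⟩
  have hR : S.Sub fun n => D * K2 n * (D * (KQ n + KQ' n + 1) ^ D * K n) :=
    ((S.Sub_const (by positivity)).mul hK2).mul (((S.Sub_const (by positivity)).mul
      (Pool.Agent.Helper80.LF.Sub_pow hB D)).mul hK)
  refine ⟨⟨d.i, d.L, d.W0, d.a, d.Φ, SL_pnt h1 hK hc d.sl, d.fa, d.ba, d.nW, d.fΦ, d.wd, d.bΦ, d.nd,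
    ⟨fun n => K3 n + K2 n * (D * (KQ n + KQ' n + 1) ^ D * K n) +
      (k + 1) * (K4 n * (k * (KQ n + KQ' n + 1) ^ k * K n)), (hK3.add (hK2.mul (((S.Sub_const (by positivity)).mul
        (Pool.Agent.Helper80.LF.Sub_pow hB D)).mul hK))).add ((S.Sub_const (by positivity)).mul (hK4.mul
          (((S.Sub_const (by positivity)).mul (Pool.Agent.Helper80.LF.Sub_pow hB k)).mul hK))), h3.mono ?_⟩⟩,
    fun n => 2 * K0 n, (S.Sub_const (by norm_num)).mul hK0, h0.mono ?_⟩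
  · filter_upwards [hc, h2, h4, hK4.1, hQ, hQ', hK.1, hKQ.1, hKQ'.1] with n h1 h2 h4 k4 h5 h6 h7 h8 h9 ω hω h10
    obtain ⟨g9, g10⟩ := h2
    obtain ⟨g11, g12⟩ := g10 ω hω
    have hd0 := S.dl_pos 1 n
    obtain ⟨B, hBd⟩ : ∃ B : ℝ, B = KQ n + KQ' n + 1 := ⟨_, rfl⟩
    have hB1 : 1 ≤ B := by rw [hBd]; linarith
    have b1 : ∀ i, |s.Q.v n ω i| ≤ B := fun i => (h5 ω hω i).trans (by rw [hBd]; linarith)
    have b2 : ∀ i, |s'.Q.v n ω i| ≤ B := fun i => (h6 ω hω i).trans (by rw [hBd]; linarith)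
    rw [← hBd]
    rw [← hD] at g11
    have a1 : |MvPolynomial.eval (s'.Q.v n ω) (d.Φ n ω) - MvPolynomial.eval (s.Q.v n ω) (d.Φ n ω)| ≤
        K2 n * (D * B ^ D * (K n * S.dl 1 n)) := by
      have h6 := eval_sub_le (P := d.Φ n ω) hB1 (δ := K n * S.dl 1 n) (by positivity) g11
        (u := s'.Q.v n ω) (v := s.Q.v n ω) (fun i _ => b2 i) (fun i _ => b1 i) (fun i _ => h1 ω hω i)
      exact h6.trans (mul_le_mul_of_nonneg_right g12 (by positivity))
    have a2 : |∑ i : Fin (k + 1), d.a n ω i * s'.Q.v n ω t ^ (i : ℕ) -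
        ∑ i : Fin (k + 1), d.a n ω i * s.Q.v n ω t ^ (i : ℕ)| ≤
        (k + 1) * (K4 n * (k * B ^ k * (K n * S.dl 1 n))) := by
      rw [← Finset.sum_sub_distrib]
      refine (Finset.abs_sum_le_sum_abs _ _).trans ?_
      have h6 : ∀ i ∈ (Finset.univ : Finset (Fin (k + 1))), |d.a n ω i * s'.Q.v n ω t ^ (i : ℕ) -
          d.a n ω i * s.Q.v n ω t ^ (i : ℕ)| ≤ K4 n * (k * B ^ k * (K n * S.dl 1 n)) := by
        intro i _
        rw [← mul_sub, abs_mul]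
        apply mul_le_mul (h4 ω hω i) _ (abs_nonneg _) k4
        refine (pow_sub_le hB1 (b2 t) (b1 t) (h1 ω hω t) (i : ℕ)).trans ?_
        have h7 : (i : ℕ) ≤ k := by
          have := i.isLt
          omega
        apply mul_le_mul_of_nonneg_right _ (by positivity)
        apply mul_le_mul _ (pow_le_pow_right₀ hB1 h7) (by positivity) (Nat.cast_nonneg _)
        exact_mod_cast h7
      refine (Finset.sum_le_card_nsmul _ _ _ h6).trans ?_
      rw [nsmul_eq_mul, Finset.card_univ, Fintype.card_fin]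
      push_cast
      exact le_rfl
    have e3 : MvPolynomial.eval (s'.Q.v n ω) (d.Φ n ω) - ∑ l, d.a n ω l * s'.Q.v n ω t ^ (l : ℕ) =
        (MvPolynomial.eval (s.Q.v n ω) (d.Φ n ω) - ∑ l, d.a n ω l * s.Q.v n ω t ^ (l : ℕ)) +
        (MvPolynomial.eval (s'.Q.v n ω) (d.Φ n ω) - MvPolynomial.eval (s.Q.v n ω) (d.Φ n ω)) -
        (∑ i : Fin (k + 1), d.a n ω i * s'.Q.v n ω t ^ (i : ℕ) -
          ∑ i : Fin (k + 1), d.a n ω i * s.Q.v n ω t ^ (i : ℕ)) := by ring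
    rw [e3]
    refine (abs_sub _ _).trans ?_
    have a4 := abs_add_le (MvPolynomial.eval (s.Q.v n ω) (d.Φ n ω) - ∑ l, d.a n ω l * s.Q.v n ω t ^ (l : ℕ))
      (MvPolynomial.eval (s'.Q.v n ω) (d.Φ n ω) - MvPolynomial.eval (s.Q.v n ω) (d.Φ n ω))
    calc _ ≤ K3 n * S.dl 1 n + K2 n * (D * B ^ D * (K n * S.dl 1 n)) +
          (k + 1) * (K4 n * (k * B ^ k * (K n * S.dl 1 n))) := by linarith
      _ = _ := by ring
  · filter_upwards [hc, h2, hQ, hQ', hK.1, hKQ.1, hKQ'.1, hK0.1, ((S.Sub_const (show (0 : ℝ) ≤ 2 by norm_num)).mul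
      (hK0.mul hR)).eventually_le one_half_pos, S.lim.eventually (eventually_gt_atTop (0 : ℝ))] with
      n h1 h2 h5 h6 h7 h8 h9 k0 h11 h12 ω hω h10
    obtain ⟨g9, g10⟩ := h2
    obtain ⟨g11, g12⟩ := g10 ω hω
    obtain ⟨i, hi, h13⟩ := h10
    have hd0 := S.dl_pos 1 n
    have hB1 : 1 ≤ KQ n + KQ' n + 1 := by linarith
    rw [← hD] at g11
    refine ⟨i, hi, ?_⟩
    have a1 : |MvPolynomial.eval (s.Q.v n ω) (MvPolynomial.pderiv i (d.Φ n ω)) -
        MvPolynomial.eval (s'.Q.v n ω) (MvPolynomial.pderiv i (d.Φ n ω))| ≤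
        D * K2 n * (D * (KQ n + KQ' n + 1) ^ D * K n) * S.dl 1 n := by
      have h6 := eval_sub_le (P := MvPolynomial.pderiv i (d.Φ n ω)) hB1 (δ := K n * S.dl 1 n) (by positivity)
        (totalDegree_pderiv_le g11 i) (u := s.Q.v n ω) (v := s'.Q.v n ω)
        (fun i _ => (h5 ω hω i).trans (by linarith)) (fun i _ => (h6 ω hω i).trans (by linarith))
        (fun i _ => by
          rw [abs_sub_comm]
          exact h1 ω hω i)
      refine (h6.trans (mul_le_mul_of_nonneg_right ((nrm_pderiv_le g11 i).trans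
        (mul_le_mul_of_nonneg_left g12 (Nat.cast_nonneg _))) (by positivity))).trans (le_of_eq (by ring))
    have h14 : 2 * (K0 n * (D * K2 n * (D * (KQ n + KQ' n + 1) ^ D * K n))) * S.dl 1 n ≤ 1 := by
      have h15 : (2 : ℝ) ^ (1 / 2 * (S.F n).n) * S.dl 1 n ≤ 1 := by
        unfold Sp.dl
        rw [← Real.rpow_add (by norm_num)]
        apply Real.rpow_le_one_of_one_le_of_nonpos (by norm_num)
        nlinarith
      exact (mul_le_mul_of_nonneg_right (by linarith) hd0.le).trans h15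
    have h15 := abs_sub_abs_le_abs_sub (MvPolynomial.eval (s.Q.v n ω) (MvPolynomial.pderiv i (d.Φ n ω)))
      (MvPolynomial.eval (s'.Q.v n ω) (MvPolynomial.pderiv i (d.Φ n ω)))
    have h16 : K0 n * |MvPolynomial.eval (s.Q.v n ω) (MvPolynomial.pderiv i (d.Φ n ω))| ≤
        K0 n * (|MvPolynomial.eval (s'.Q.v n ω) (MvPolynomial.pderiv i (d.Φ n ω))| +
          D * K2 n * (D * (KQ n + KQ' n + 1) ^ D * K n) * S.dl 1 n) :=
      mul_le_mul_of_nonneg_left (by linarith) k0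
    show 1 ≤ 2 * K0 n * |MvPolynomial.eval (s'.Q.v n ω) (MvPolynomial.pderiv i (d.Φ n ω))|
    nlinarith

/-- BASE CHANGE -/
theorem DD.bas (h : DD k t w W s) (l : Lab S) (hl : ∀ i, Nul S (fun k => (l k).leak ((s.lf i).win 0 k))) :
    DD k t w W (ovl s l hl) := by
  obtain ⟨d, K0, hK0, h0⟩ := h
  have hdl : ∀ n, (l.ovr 1 one_pos).dl 1 n = S.dl 1 n := by
    intro n
    have e2 : ((l.ovr 1 one_pos).F n).n = 1 * (S.F n).n := l.n_over 1 one_pos n
    unfold Sp.dl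
    rw [e2, one_mul]
  refine ⟨{
    i := d.i
    L := zL (zu1 l) s.Q t d.L
    W0 := fun n => Setoid.comap (l n).p.π (d.W0 n)
    a := fun n (ω : (l n).T.Ω) => d.a n ((l n).p.π ω)
    Φ := fun n (ω : (l n).T.Ω) => d.Φ n ((l n).p.π ω)
    sl := SL_bas d.sl l hl
    fa := ?_
    ba := ?_
    nW := ?_
    fΦ := ?_
    wd := ?_
    bΦ := ?_
    nd := ?_
    eq := ?_ }, ?_⟩
  · filter_upwards [d.fa] with n hn
    intro (ω : (l n).T.Ω) (ω' : (l n).T.Ω) h1 h2 h3 h4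
    have h5 : (l n).T.Z ω ω' := h3.2
    have h6 : (zL (zu1 l) s.Q t d.L n) ω ω' := h4
    exact hn _ _ ((l n).p.supp ω h1) ((l n).p.supp ω' h2) (((l n).p.hZ ω ω' h1 h2).1 h5) h6.1
  · obtain ⟨K, hK, h⟩ := d.ba
    refine ⟨K, (zu1 l).Sub_sp.mp hK, ?_⟩
    filter_upwards [h] with n hn
    intro (ω : (l n).T.Ω) hω j
    exact hn _ ((l n).p.supp ω hω) j
  · rw [l.nul_over 1 one_pos]
    refine d.nW.of_le (Eventually.of_forall fun _ => H_nonneg _) (Eventually.of_forall fun n => ?_)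
    have h1 : H (fc (F := (l.ovr 1 one_pos).F n) (Setoid.comap (l n).p.π (d.W0 n))) =
        Helper31.EC.h ((l n).p.map (fc (d.W0 n))) (l n).v := (l n).H_up 1 one_pos (fc (d.W0 n))
    rw [h1]
    refine (h_le_H _ _).trans (le_of_eq ?_)
    exact (l n).p.H_map _
  · filter_upwards [d.fΦ] with n hn
    intro (ω : (l n).T.Ω) (ω' : (l n).T.Ω) h1 h2 h3 h4
    have h5 : (l n).T.Z ω ω' := h3.2
    exact hn _ _ ((l n).p.supp ω h1) ((l n).p.supp ω' h2) (((l n).p.hZ ω ω' h1 h2).1 h5) h4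
  · filter_upwards [d.wd] with n hn
    intro (ω : (l n).T.Ω) hω
    exact hn _ ((l n).p.supp ω hω)
  · obtain ⟨K, hK, h⟩ := d.bΦ
    refine ⟨K, (zu1 l).Sub_sp.mp hK, ?_⟩
    filter_upwards [h] with n hn
    intro (ω : (l n).T.Ω) hω j
    exact hn _ ((l n).p.supp ω hω) j
  · obtain ⟨K, hK, h⟩ := d.nd
    refine ⟨K, (zu1 l).Sub_sp.mp hK, ?_⟩
    have h1 : Typ (S := l.sp) (fun n (ω : (l n).T.Ω) => ∃ (m : Fin M →₀ ℕ) (j : Fin M), j ≠ t ∧ m j ≠ 0 ∧
        1 ≤ K n * |(d.Φ n ((l n).p.π ω)).coeff m|) := l.pj.typ h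
    exact h1
  · obtain ⟨K, hK, h⟩ := d.eq
    refine ⟨K, (zu1 l).Sub_sp.mp hK, ?_⟩
    have h1 : Typ (S := l.sp) (fun n (ω : (l n).T.Ω) =>
        |MvPolynomial.eval (s.Q.v n ((l n).p.π ω)) (d.Φ n ((l n).p.π ω)) -
        ∑ j, d.a n ((l n).p.π ω) j * s.Q.v n ((l n).p.π ω) t ^ (j : ℕ)| ≤ K n * S.dl 1 n) := l.pj.typ h
    refine Typ.mono (S := l.ovr 1 one_pos) h1 (Eventually.of_forall fun n ω _ hω => ?_)
    rw [hdl]
    exact hω
  · refine ⟨K0, (zu1 l).Sub_sp.mp hK0, ?_⟩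
    have h1 := l.pj.typ h0
    exact Typ.mono (S := l.ovr 1 one_pos) h1 (Eventually.of_forall fun n ω _ hω => hω)

/-- THE CLASS `CC0 k` -/
def CC0 (M k : ℕ) : MCl M := fun _ _ _ s => ∃ (t : Fin M) (W : ℝ), t.val = 0 ∧ DD k t (fun _ => 1) W s

theorem subCl_CC0 (M k : ℕ) : SubCl (CC0 M k) := by
  rintro S g r s ⟨t, W, ht, h⟩ T p g' r' s' H
  exact ⟨t, W, ht, h.sub H⟩

theorem CC0_le (M k : ℕ) {S : Sp} {g r : ℕ} {s : MSys S M (lin g) (Fin r)} (h : CC0 M k S g r s) : CC M k S g r s := by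
  obtain ⟨t, W, ht, d, _⟩ := h
  exact ⟨t, W, ht, ⟨d⟩⟩

/-- closure properties -/
theorem okA_CC0 (M k : ℕ) : OkA M (CC0 M k) where
  im := by
    rintro S g r s ⟨t, W, ht, h⟩ T p A hA
    exact ⟨t, W, ht, h.im p A hA⟩
  trn := by
    rintro S g r s ⟨t, W, ht, h⟩ e he h1
    exact ⟨t, W, ht, h.trn he h1⟩
  pnt := by
    rintro S g r s s' ⟨t, W, ht, h⟩ hn
    exact ⟨t, W, ht, h.pnt (fun _ => le_rfl) hn⟩
  add := fun S g r s hs T p g' r' hg L f hf => add_of_subCl (subCl_CC0 M k) S g r s hs T p g' r' hg L f hf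
  sub := subCl_CC0 M k
  bas := by
    rintro S g r s ⟨t, W, ht, h⟩ l hl
    exact ⟨t, W, ht, h.bas l fun i => hl (some i)⟩

end

end Pool.Agent.Helper58.CCZ
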