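import Pool.Agent.Helper77.WDG.Red

/-! ZOOM OF THE CLASSES CC, the polynomials: the part of a polynomial with the monomials which contain a coordinate
different from `t`; substitution of a scaled triangular map: the partial derivatives at the point are bounded by the
coefficients of this part. -/

set_option autoImplicit false

namespace Pool.Agent.Helper58.CCZ

open MvPolynomial Finset Pool.Agent.Helper77.WDG

noncomputable section

variable {σ τ : Type*}

/-- monomials which contain a coordinate different from `t` -/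
def Mix (t : σ) (m : σ →₀ ℕ) : Prop := ∃ j, j ≠ t ∧ m j ≠ 0

/-- the mixed part -/
def mx (t : σ) (P : MvPolynomial σ ℝ) : MvPolynomial σ ℝ := cut (Mix t) P

/-- the pure part -/
def pp (t : σ) (P : MvPolynomial σ ℝ) : MvPolynomial σ ℝ := cut (fun m => ¬ Mix t m) P

theorem mx_add_pp (t : σ) (P : MvPolynomial σ ℝ) : mx t P + pp t P = P := cut_add _ P

theorem pure_iff {t : σ} {m : σ →₀ ℕ} : ¬ Mix t m ↔ m = Finsupp.single t (m t) := by
  classical
  unfold Mix
  push Not
  constructor
  · intro h
    ext j
    by_cases hj : j = t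
    · rw [hj, Finsupp.single_eq_same]
    · rw [h j hj, Finsupp.single_eq_of_ne hj]
  · intro h j hj
    rw [h, Finsupp.single_eq_of_ne hj]

/-- the pure part as a sum -/
theorem pp_eq {t : σ} {P : MvPolynomial σ ℝ} {D : ℕ} (hD : P.totalDegree ≤ D) :
    pp t P = ∑ l ∈ range (D + 1), monomial (Finsupp.single t l) (P.coeff (Finsupp.single t l)) := by
  classical
  ext m
  rw [MvPolynomial.coeff_sum]
  simp only [coeff_monomial]
  by_cases hm : Mix t m
  · rw [show (pp t P).coeff m = 0 from coeff_cut_neg (p := fun m => ¬ Mix t m) (not_not.2 hm)]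
    rw [Finset.sum_eq_zero]
    intro l _
    rw [if_neg]
    rintro rfl
    obtain ⟨j, hj, h⟩ := hm
    exact h (Finsupp.single_eq_of_ne hj)
  · rw [show (pp t P).coeff m = P.coeff m from coeff_cut_pos (p := fun m => ¬ Mix t m) hm]
    have h1 := pure_iff.1 hm
    by_cases h2 : m t ∈ range (D + 1)
    · rw [Finset.sum_eq_single (m t)]
      · rw [if_pos h1.symm, ← h1]
      · intro l _ hl
        rw [if_neg]
        intro h3
        apply hl
        rw [← h3, Finsupp.single_eq_same]
      · intro h3
        exact absurd h2 h3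
    · rw [Finset.sum_eq_zero]
      · apply MvPolynomial.coeff_eq_zero_of_totalDegree_lt
        refine lt_of_le_of_lt hD ?_
        rw [Finset.mem_range, not_lt] at h2
        rw [h1]
        have h3 : ∑ i ∈ (Finsupp.single t (m t)).support, (Finsupp.single t (m t)) i = m t := by
          have h4 := Finsupp.sum_single_index (a := t) (b := m t) (h := fun _ (n : ℕ) => n) rfl
          exact h4
        rw [h3]
        omega
      · intro l hl
        rw [if_neg]
        intro h3
        apply h2
        rw [← h3, Finsupp.single_eq_same]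
        exact hl

/-- values of the pure part -/
theorem eval_pp {t : σ} {P : MvPolynomial σ ℝ} {D : ℕ} (hD : P.totalDegree ≤ D) (x : σ → ℝ) :
    eval x (pp t P) = ∑ l ∈ range (D + 1), P.coeff (Finsupp.single t l) * x t ^ l := by
  classical
  rw [pp_eq hD, map_sum]
  refine Finset.sum_congr rfl fun l _ => ?_
  rw [eval_monomial]
  congr 1
  exact Finsupp.prod_single_index (pow_zero _)

/-- the other partial derivatives do not see the pure part -/
theorem pderiv_mx {t j : σ} (hj : j ≠ t) (P : MvPolynomial σ ℝ) : pderiv j (mx t P) = pderiv j P := by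
  have h1 : pderiv j (pp t P) = 0 := by
    apply pderiv_eq_zero_of_notMem_vars
    intro h
    rw [MvPolynomial.mem_vars_iff_mem_support] at h
    obtain ⟨m, hm, h2⟩ := h
    have h3 := mem_support_cut hm
    exact h3 ⟨j, hj, Finsupp.mem_support_iff.1 h2⟩
  conv_rhs => rw [← mx_add_pp t P, map_add, h1, add_zero]

/-- norms of partial derivatives -/
theorem nrm_pderiv_le [DecidableEq σ] {P : MvPolynomial σ ℝ} {D : ℕ} (hD : P.totalDegree ≤ D) (j : σ) :
    nrm (pderiv j P) ≤ D * nrm P := by
  have h1 : pderiv j P = ∑ a ∈ P.support, pderiv j (monomial a (P.coeff a)) := by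
    conv_lhs => rw [P.as_sum, map_sum]
  rw [h1]
  refine (nrm_sum_le _ _).trans ?_
  unfold nrm
  rw [Finset.mul_sum]
  refine Finset.sum_le_sum fun a ha => ?_
  rw [pderiv_monomial]
  have h2 := nrm_monomial (a - Finsupp.single j 1) (P.coeff a * (a j : ℝ))
  unfold nrm at h2
  rw [h2, abs_mul, mul_comm]
  refine mul_le_mul_of_nonneg_right ?_ (abs_nonneg _)
  rw [Nat.abs_cast]
  have h3 : a j ≤ a.sum fun _ n => n := by
    by_cases h0 : a j = 0
    · rw [h0]
      exact Nat.zero_le _
    · exact Finset.single_le_sum (f := fun j => a j) (fun _ _ => Nat.zero_le _) (Finsupp.mem_support_iff.2 h0)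
  exact_mod_cast h3.trans ((sum_le_totalDegree ha).trans hD)

theorem totalDegree_pderiv_le [DecidableEq σ] {P : MvPolynomial σ ℝ} {D : ℕ} (hD : P.totalDegree ≤ D) (j : σ) :
    (pderiv j P).totalDegree ≤ D := by
  apply Finset.sup_le
  intro a ha
  rw [MvPolynomial.mem_support_iff, coeff_pderiv] at ha
  have h1 : P.coeff (a + Finsupp.single j 1) ≠ 0 := fun h => ha (by rw [h, zero_mul])
  have h2 := (MvPolynomial.le_totalDegree (MvPolynomial.mem_support_iff.mpr h1)).trans hD
  refine le_trans ?_ h2
  have h3 : ((a + Finsupp.single j 1).sum fun _ e => e) = (a.sum fun _ e => e) + 1 := by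
    rw [Finsupp.sum_add_index' (fun _ => rfl) (fun _ _ _ => rfl), Finsupp.sum_single_index rfl]
  omega

/-- chain rule -/
theorem pderiv_bd [Fintype σ] [DecidableEq σ] [DecidableEq τ] (u : σ → MvPolynomial τ ℝ) (a : τ) (p : MvPolynomial σ ℝ) :
    pderiv a (bind₁ u p) = ∑ i, bind₁ u (pderiv i p) * pderiv a (u i) := by
  induction p using MvPolynomial.induction_on with
  | C c =>
    rw [bind₁_C_right, pderiv_C]
    simp only [pderiv_C, map_zero, zero_mul, Finset.sum_const_zero]
  | add p q hp hq =>
    rw [map_add, map_add, hp, hq, ← Finset.sum_add_distrib]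
    refine Finset.sum_congr rfl fun i _ => ?_
    rw [map_add, map_add, add_mul]
  | mul_X p i hp =>
    rw [map_mul, bind₁_X_right, pderiv_mul, hp, Finset.sum_mul]
    have h1 : ∀ l, bind₁ u (pderiv l (p * X i)) * pderiv a (u l) =
        bind₁ u (pderiv l p) * pderiv a (u l) * u i + (if l = i then bind₁ u p * pderiv a (u l) else 0) := by
      intro l
      rw [pderiv_mul, map_add, map_mul, map_mul, bind₁_X_right, pderiv_X]
      by_cases hl : l = i
      · subst hl
        rw [Pi.single_eq_same, map_one, if_pos rfl]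
        ring
      · rw [Pi.single_eq_of_ne (Ne.symm hl), map_zero, if_neg hl]
        ring
    rw [Finset.sum_congr rfl fun l _ => h1 l, Finset.sum_add_distrib, Finset.sum_ite_eq' Finset.univ i,
      if_pos (Finset.mem_univ i)]

/-- upper triangular systems -/
theorem tri_bound {M : ℕ} {t : Fin M} (ht : t.val = 0) {v : Fin M → ℝ} {c : Fin M → Fin M → ℝ} {B η : ℝ} (hB : 0 ≤ B)
    (hη : 0 ≤ η) (hc : ∀ i j, |c i j| ≤ B)
    (h : ∀ j, j ≠ t → |v j + ∑ i ∈ univ.filter (fun i => j < i), v i * c i j| ≤ η) (j : Fin M) (hj : j ≠ t) :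
    |v j| ≤ (1 + M * B) ^ M * η := by
  have hR : (1 : ℝ) ≤ 1 + M * B := by
    have : (0 : ℝ) ≤ M * B := by positivity
    linarith
  have key : ∀ n : ℕ, ∀ j : Fin M, M - 1 - j.val = n → j ≠ t → |v j| ≤ (1 + M * B) ^ n * η := by
    intro n
    induction n using Nat.strong_induction_on with
    | _ n ih =>
      intro j hn hj
      have h1 := h j hj
      have h2 : |v j| ≤ η + ∑ i ∈ univ.filter (fun i => j < i), |v i * c i j| := by
        have e1 : v j = (v j + ∑ i ∈ univ.filter (fun i => j < i), v i * c i j) -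
            ∑ i ∈ univ.filter (fun i => j < i), v i * c i j := by ring
        rw [e1]
        refine (abs_sub _ _).trans ?_
        exact add_le_add h1 (Finset.abs_sum_le_sum_abs _ _)
      rcases Nat.eq_zero_or_pos n with h0 | h0
      · have h3 : ∑ i ∈ univ.filter (fun i => j < i), |v i * c i j| = 0 := by
          apply Finset.sum_eq_zero
          intro i hi
          exfalso
          have h4 : j.val < i.val := (Finset.mem_filter.1 hi).2
          have h5 := i.isLt
          omega
        rw [h3, add_zero] at h2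
        rw [h0, pow_zero, one_mul]
        exact h2
      · have h3 : ∑ i ∈ univ.filter (fun i => j < i), |v i * c i j| ≤ M * ((1 + M * B) ^ (n - 1) * η * B) := by
          have h4 : ∀ i ∈ univ.filter (fun i => j < i), |v i * c i j| ≤ (1 + M * B) ^ (n - 1) * η * B := by
            intro i hi
            have h5 : j.val < i.val := (Finset.mem_filter.1 hi).2
            have h6 := i.isLt
            rw [abs_mul]
            apply mul_le_mul _ (hc i j) (abs_nonneg _) (by positivity)
            have h7 : i ≠ t := by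
              intro h8
              rw [h8, ht] at h5
              omega
            refine (ih (M - 1 - i.val) (by omega) i rfl h7).trans ?_
            apply mul_le_mul_of_nonneg_right _ hη
            exact pow_le_pow_right₀ hR (by omega)
          refine (Finset.sum_le_card_nsmul _ _ _ h4).trans ?_
          rw [nsmul_eq_mul]
          apply mul_le_mul_of_nonneg_right _ (by positivity)
          have h5 : (univ.filter (fun i => j < i)).card ≤ M := by
            refine (Finset.card_filter_le _ _).trans ?_
            rw [Finset.card_univ, Fintype.card_fin]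
          exact_mod_cast h5
        have h4 : (1 : ℝ) ≤ (1 + M * B) ^ (n - 1) := one_le_pow₀ hR
        have h5 : (1 + M * B) ^ n = (1 + M * B) ^ (n - 1) * (1 + M * B) := by
          rw [← pow_succ]
          congr 1
          omega
        rw [h5]
        have h6 : η ≤ (1 + M * B) ^ (n - 1) * η := le_mul_of_one_le_left hη h4
        calc |v j| ≤ η + M * ((1 + M * B) ^ (n - 1) * η * B) := h2.trans (by linarith)
          _ ≤ (1 + M * B) ^ (n - 1) * η + M * ((1 + M * B) ^ (n - 1) * η * B) := by linarith
          _ = _ := by ring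
  refine (key (M - 1 - j.val) j rfl hj).trans ?_
  apply mul_le_mul_of_nonneg_right _ hη
  exact pow_le_pow_right₀ hR (by omega)

/-- the polynomial in the scaled coordinates of a triangular map -/
def fr {M : ℕ} (d : Fin M → ℝ) (P : Fin M → MvPolynomial (Fin M) ℝ) (Φ : MvPolynomial (Fin M) ℝ) :
    MvPolynomial (Fin M) ℝ := scl d (bind₁ (tm P) Φ)

theorem eval_fr {M : ℕ} (d : Fin M → ℝ) (P : Fin M → MvPolynomial (Fin M) ℝ) (Φ : MvPolynomial (Fin M) ℝ)
    (X : Fin M → ℝ) : eval X (fr d P Φ) = eval (fun j => eval (fun i => d i * X i) (P j) + d j * X j) Φ := by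
  unfold fr
  rw [eval_scl, eval_bind]
  congr 1
  refine congrArg _ (funext fun i => ?_)
  rw [eval_tm, add_comm]

/-- the scaled partial derivatives -/
theorem eval_pderiv_fr {M : ℕ} {d : Fin M → ℝ} {P : Fin M → MvPolynomial (Fin M) ℝ} (hP : Tri P)
    (Φ : MvPolynomial (Fin M) ℝ) (z : Fin M → ℝ) (j : Fin M) :
    eval z (pderiv j (fr d P Φ)) = d j * (eval (fun j => eval (fun i => d i * z i) (P j) + d j * z j) (pderiv j Φ) +
      ∑ i ∈ univ.filter (fun i => j < i), eval (fun j => eval (fun i => d i * z i) (P j) + d j * z j) (pderiv i Φ) *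
        eval (fun i => d i * z i) (pderiv j (P i))) := by
  classical
  obtain ⟨u, hu⟩ : ∃ u : Fin M → ℝ, u = fun i => d i * z i := ⟨_, rfl⟩
  obtain ⟨x, hx⟩ : ∃ x : Fin M → ℝ, x = fun j => eval u (P j) + d j * z j := ⟨_, rfl⟩
  have hx' : (fun i => eval u (tm P i)) = x := by
    funext i
    rw [eval_tm, add_comm, hx, hu]
  have e0 : (fun j => eval (fun i => d i * z i) (P j) + d j * z j) = x := by rw [hx, hu]
  rw [e0, ← hu]
  unfold fr scl
  rw [pderiv_bd, map_sum, Finset.sum_eq_single j]
  · rw [map_mul]
    have e1 : eval z (pderiv j (C (d j) * X j : MvPolynomial (Fin M) ℝ)) = d j := by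
      rw [pderiv_C_mul, pderiv_X, Pi.single_eq_same]
      simp
    have e2 : (fun i => eval z (C (d i) * X i : MvPolynomial (Fin M) ℝ)) = u := by
      funext i
      rw [map_mul, eval_C, eval_X, hu]
    rw [e1, eval_bind, e2, mul_comm, pderiv_bd, map_sum]
    have e3 : ∀ i, eval u (bind₁ (tm P) (pderiv i Φ) * pderiv j (tm P i)) =
        (if i = j then eval x (pderiv i Φ) else 0) + eval x (pderiv i Φ) * eval u (pderiv j (P i)) := by
      intro i
      rw [map_mul, eval_bind, hx', tm, map_add, map_add, pderiv_X]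
      by_cases hij : i = j
      · subst hij
        rw [Pi.single_eq_same, if_pos rfl, map_one]
        ring
      · rw [Pi.single_eq_of_ne hij, if_neg hij, map_zero]
        ring
    rw [Finset.sum_congr rfl fun i _ => e3 i, Finset.sum_add_distrib, Finset.sum_ite_eq' Finset.univ j,
      if_pos (Finset.mem_univ j)]
    have e4 : ∑ i, eval x (pderiv i Φ) * eval u (pderiv j (P i)) =
        ∑ i ∈ univ.filter (fun i => j < i), eval x (pderiv i Φ) * eval u (pderiv j (P i)) := by
      symm
      apply Finset.sum_subset (Finset.filter_subset _ _)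
      intro i _ hi
      have h1 : pderiv j (P i) = 0 := pderiv_eq_zero_of_notMem_vars fun h =>
        hi (Finset.mem_filter.2 ⟨Finset.mem_univ i, hP i j h⟩)
      rw [h1, map_zero, mul_zero]
    rw [e4]
  · intro i _ hi
    have h1 : pderiv j (C (d i) * X i : MvPolynomial (Fin M) ℝ) = 0 := by
      rw [pderiv_C_mul, pderiv_X, Pi.single_eq_of_ne hi]
      simp
    rw [h1, mul_zero, map_zero]
  · intro h
    exact absurd (Finset.mem_univ j) h

/-- LOWER BOUND of the mixed part: the partial derivatives at the point -/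
theorem low_mx {M : ℕ} {t : Fin M} (ht : t.val = 0) {D D' : ℕ} {B T : ℝ} (hB : 0 ≤ B) (hT : 1 ≤ T)
    {P : Fin M → MvPolynomial (Fin M) ℝ} (hP : Tri P) (hD : ∀ j, (P j).totalDegree ≤ D') (hn : ∀ j, nrm (P j) ≤ B)
    {d : Fin M → ℝ} {δ : ℝ} (hδ : 0 < δ) (hd : ∀ j, δ ≤ d j) (Φ : MvPolynomial (Fin M) ℝ) {X : Fin M → ℝ}
    (hX : ∀ i, |X i| ≤ T) (hU : ∀ i, |d i * X i| ≤ T) (hF : (fr d P Φ).totalDegree ≤ D) (i : Fin M) (hi : i ≠ t) :
    δ * |eval (fun j => eval (fun i => d i * X i) (P j) + d j * X j) (pderiv i Φ)| ≤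
      (1 + M * (D' * B * T ^ D')) ^ M * (D * T ^ D) * nrm (mx t (fr d P Φ)) := by
  classical
  have hT0 : (0 : ℝ) ≤ T := by linarith
  set N := nrm (mx t (fr d P Φ)) with hN
  have hN0 : 0 ≤ N := nrm_nonneg _
  have h1 := tri_bound ht (v := fun i => eval (fun j => eval (fun i => d i * X i) (P j) + d j * X j) (pderiv i Φ))
    (c := fun i j => eval (fun i => d i * X i) (pderiv j (P i))) (B := D' * B * T ^ D') (η := D * T ^ D * N / δ)
    (by positivity) (by positivity) (fun i j => by
      refine (eval_le_nrm hT (totalDegree_pderiv_le (hD i) j) fun l _ => hU l).trans ?_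
      apply mul_le_mul_of_nonneg_right _ (by positivity)
      refine (nrm_pderiv_le (hD i) j).trans ?_
      exact mul_le_mul_of_nonneg_left (hn i) (Nat.cast_nonneg _)) (fun j hj => by
      have h2 := eval_pderiv_fr (d := d) hP Φ X j
      have h3 : |eval X (pderiv j (fr d P Φ))| ≤ D * T ^ D * N := by
        rw [← pderiv_mx hj]
        have h4 : (mx t (fr d P Φ)).totalDegree ≤ D := totalDegree_cut.trans hF
        refine (eval_le_nrm hT (totalDegree_pderiv_le h4 j) fun l _ => hX l).trans ?_
        have h5 := mul_le_mul_of_nonneg_right (nrm_pderiv_le h4 j) (pow_nonneg hT0 D)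
        refine h5.trans (le_of_eq ?_)
        rw [hN]
        ring
      rw [h2, abs_mul, abs_of_pos (hδ.trans_le (hd j))] at h3
      rw [le_div_iff₀ hδ, mul_comm]
      refine le_trans ?_ h3
      exact mul_le_mul_of_nonneg_right (hd j) (abs_nonneg _)) i hi
  calc δ * _ ≤ δ * ((1 + M * (D' * B * T ^ D')) ^ M * (D * T ^ D * N / δ)) := mul_le_mul_of_nonneg_left h1 hδ.le
    _ = _ := by
      field_simp

end

end Pool.Agent.Helper58.CCZ
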