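import Pool.Agent.Helper75.CC.Def
import Pool.Agent.Helper5.HB.Conv
import Pool.Agent.Helper58.CCZ.Alg

/-! ZOOM OF THE CLASSES CC, NONDEGENERACY: if the point has no relations on all events, some partial derivative, in a
direction different from `t`, of the polynomial of the data is typically not small at the point. -/

set_option autoImplicit false

namespace Pool.Agent.Helper58.CCZ

open Finset Filter Topology Pool.Agent.Helper69.RK Pool.Agent.Helper31.EC Pool.Agent.Helper31.EC.Sp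
open Pool.Agent.Helper31.EC.QS Pool.Agent.Helper40.EL Pool.Agent.Helper84.MT Pool.Agent.Helper36.AM
open Pool.Agent.Helper75.CC Pool.Agent.Helper5.HB Pool.Agent.Helper5.DO Pool.Agent.Helper3.LF

noncomputable section

variable {S : Sp} {M : ℕ} {E : ℕ → ℕ} {ι : Type}

/-- functions of the base and of an information of rate zero have digits of rate zero -/
theorem dg_bot_of {W : ∀ n, Setoid (S.F n).Ω} (hW : Nul S (fun n => H (fc (W n) : FL (S.F n)))) (g : TR S)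
    (fg : ∀ᶠ n in UF, ∀ ω ω', (S.F n).μ ω ≠ 0 → (S.F n).μ ω' ≠ 0 → (S.F n).Z ω ω' → W n ω ω' →
      TR.ev g n ω = TR.ev g n ω') : QS.dg (QS.mk g) 1 ≤ ⊥ := by
  rw [QS.dg_mk _ le_rfl]
  set y : S.VV 1 := TR.vec fun _ : Fin 1 => g with hy
  have h1 : PLe (fun n => fc (Setoid.ker (y.cellv 1 n))) (fun n => fc (W n)) := by
    refine PLe_cell y 1 W (fun _ => 0) (S.Sub_const le_rfl) ?_
    filter_upwards [fg] with n hn ω ω' a b c d i
    have h2 : y.v n ω i = y.v n ω' i := hn ω ω' a b c d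
    rw [h2, sub_self, abs_zero, zero_mul]
  have h2 : PLe (S := S) (fun n => fc (W n)) (fun n => fc (S.tr n)) := by
    refine hW.of_le (Eventually.of_forall fun _ => h_nonneg _ _) (Eventually.of_forall fun n => ?_)
    exact h_le_H _ _
  have h3 := h1.trans h2
  show y.dg 1 ≤ ⊥
  rw [show y.dg 1 = cl (y.bdd 1).toInf from io_eq (y.bdd 1), ← cl_bot]
  exact PLe_rpI.mp h3

/-- literal polynomials as polynomials over the ring of the space -/
theorem exists_lit (Q : S.VV M) {D : ℕ} (Ψ : ∀ n, (S.F n).Ω → MvPolynomial (Fin M) ℝ) {W : ∀ n, Setoid (S.F n).Ω}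
    (fn : ∀ᶠ n in UF, ∀ ω ω', (S.F n).μ ω ≠ 0 → (S.F n).μ ω' ≠ 0 → (S.F n).Z ω ω' → W n ω ω' → Ψ n ω = Ψ n ω')
    (deg : ∀ᶠ n in UF, ∀ ω, (S.F n).μ ω ≠ 0 → (Ψ n ω).totalDegree ≤ D)
    (bd : ∃ K : ℕ → ℝ, S.Sub K ∧ ∀ᶠ n in UF, ∀ ω, (S.F n).μ ω ≠ 0 → ∀ m, |(Ψ n ω).coeff m| ≤ K n)
    (hW : Nul S (fun n => H (fc (W n) : FL (S.F n)))) :
    ∃ P : MvPolynomial (Fin M) (QS S), P.totalDegree ≤ D ∧ P ∈ PK (⊥ : S.L) ∧
      (∃ g : TR S, MvPolynomial.eval (cq Q) P = mk g ∧ ∀ᶠ n in UF, ∀ ω, (S.F n).μ ω ≠ 0 →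
        TR.ev g n ω = MvPolynomial.eval (Q.v n ω) (Ψ n ω)) ∧
      ∀ m, ∃ g : TR S, P.coeff m = mk g ∧ ∀ᶠ n in UF, ∀ ω, (S.F n).μ ω ≠ 0 → TR.ev g n ω = (Ψ n ω).coeff m := by
  classical
  let cm : (Fin M →₀ ℕ) → TR S := fun m => ⟨fun n ω => (Ψ n ω).coeff m, by
    obtain ⟨K, hK, h⟩ := bd
    exact ⟨K, hK, h.mono fun n hn ω hω => hn ω hω m⟩⟩
  have hcm : ∀ m n ω, TR.ev (cm m) n ω = (Ψ n ω).coeff m := fun _ _ _ => rfl
  have hk : ∀ m, QS.dg (QS.mk (cm m)) 1 ≤ ⊥ := fun m => dg_bot_of hW (cm m) (by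
    filter_upwards [fn] with n hn ω ω' a b c d
    rw [hcm, hcm, hn ω ω' a b c d])
  refine ⟨∑ a : Mon M D, MvPolynomial.monomial a.ex (mk (cm a.ex)), ?_, ?_, ?_, ?_⟩
  · refine (MvPolynomial.totalDegree_finsetSum _ _).trans (Finset.sup_le fun a _ => ?_)
    refine (MvPolynomial.totalDegree_monomial_le _ _).trans ?_
    exact a.ex_sum
  · exact (PK _).sum_mem fun a _ => monomial_mem _ (hk _)
  · refine ⟨∑ a : Mon M D, cm a.ex * ∏ i, TR.cor Q i ^ (a.1 i : ℕ), ?_, ?_⟩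
    · rw [map_sum, map_sum]
      refine Finset.sum_congr rfl fun a _ => ?_
      rw [MvPolynomial.eval_monomial, map_mul, map_prod, Finsupp.prod_fintype _ _ (fun _ => pow_zero _)]
      congr 1
    · filter_upwards [deg] with n hn ω hω
      rw [ev_val (fun a => cm a.ex) Q n ω]
      conv_rhs => rw [as_mon (Ψ n ω) (hn ω hω)]
      rw [map_sum]
      refine Finset.sum_congr rfl fun a _ => ?_
      rw [hcm, MvPolynomial.eval_monomial, vv_apply, Finsupp.prod_fintype _ _ (fun _ => pow_zero _)]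
      rfl
  · intro m
    by_cases hm : ∃ a : Mon M D, a.ex = m
    · obtain ⟨a, rfl⟩ := hm
      refine ⟨cm a.ex, ?_, Eventually.of_forall fun n ω _ => hcm _ _ _⟩
      rw [MvPolynomial.coeff_sum]
      simp only [MvPolynomial.coeff_monomial]
      rw [Finset.sum_eq_single a]
      · rw [if_pos rfl]
      · intro b _ hb
        rw [if_neg fun h => hb (ex_inj h)]
      · intro h
        exact absurd (Finset.mem_univ a) h
    · refine ⟨0, ?_, ?_⟩
      · rw [MvPolynomial.coeff_sum, map_zero]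
        refine Finset.sum_eq_zero fun a _ => ?_
        rw [MvPolynomial.coeff_monomial, if_neg fun h => hm ⟨a, h⟩]
      · filter_upwards [deg] with n hn ω hω
        rw [TR.ev_zero]
        by_contra h
        exact hm (ex_of_coeff _ (hn ω hω) m fun h1 => h h1.symm)

theorem typ_false (h : Typ (S := S) (fun _ _ => False)) : False := by
  unfold Typ at h
  have h3 : ∀ k, mass (res (S.F k).μ (fun _ => ¬ False)) = 1 := by
    intro k
    have h4 : res (S.F k).μ (fun _ => ¬ False) = (S.F k).μ := by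
      funext ω
      exact res_pos _ _ ω not_false
    rw [h4, (S.F k).ms]
  simp only [h3] at h
  exact one_ne_zero (tendsto_nhds_unique tendsto_const_nhds h)

theorem rest_pos {E : ∀ k, (S.F k).Ω → Prop} (hE : 0 < ul (S.pr E)) :
    ∀ᶠ k in UF, ∀ ω, ((S.rest E).F k).μ ω ≠ 0 → (S.F k).μ ω ≠ 0 ∧ E k ω := by
  have h0 := ul_tendsto (UB_pr E)
  filter_upwards [h0.eventually (lt_mem_nhds hE)] with k hk ω hω
  have h1 := (S.F k).rest_supp (E k) ω hω
  exact ⟨h1.1, h1.2 hk.ne'⟩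

/-- informations of rate zero on events of positive probability -/
theorem nul_rest {A : ∀ k, (S.F k).Ω → Prop} (hA : 0 < ul (S.pr A)) {W : ∀ n, Setoid (S.F n).Ω}
    (hW : Nul S (fun n => H (fc (W n) : FL (S.F n)))) :
    Nul (S.rest A) (fun n => H (fc (F := (S.rest A).F n) (W n))) := by
  have h1 : Nul S (fun n => H (fc (F := (S.rest A).F n) (W n))) := by
    refine Nul.div_pr hA hW (fun k => H_nonneg _) fun k => ?_
    have h2 := (S.F k).rmap_h_le (A k) (fc (W k)) ⊥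
    rw [FSp.rmap_bot, h_bot, h_bot] at h2
    have e2 : S.pr A k = (S.F k).pb (A k) := rfl
    rw [e2]
    exact h2.trans (le_add_of_nonneg_right zero_le_one)
  exact h1

/-- finitely many typical events -/
theorem typ_all {κ : Type} [Finite κ] {E : κ → ∀ k, (S.F k).Ω → Prop} (h : ∀ i, S.Typ (E i)) :
    S.Typ fun k ω => ∀ i, E i k ω := by
  classical
  have := Fintype.ofFinite κ
  have h1 : ∀ s : Finset κ, Typ (S := S) fun n ω => ∀ l ∈ s, E l n ω := by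
    intro s
    induction s using Finset.induction_on with
    | empty => exact Typ_true.mono (Eventually.of_forall fun n ω _ _ l hl => by simp at hl)
    | insert a s ha ih =>
      refine ((h a).and ih).mono (Eventually.of_forall fun n ω _ hω l hl => ?_)
      rcases Finset.mem_insert.mp hl with rfl | h2
      · exact hω.1
      · exact hω.2 l h2
  exact (h1 univ).mono (Eventually.of_forall fun n ω _ hω l => hω l (Finset.mem_univ l))

/-- degrees of literal polynomials of bounded weights -/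
theorem deg_of_wd {w : Fin M → ℝ} (hw : ∀ j, 1 ≤ w j) {W : ℝ} {P : MvPolynomial (Fin M) ℝ}
    (h : ∀ m ∈ P.support, ∑ j, (m j : ℝ) * w j ≤ W) : P.totalDegree ≤ ⌊W⌋₊ := by
  classical
  unfold MvPolynomial.totalDegree
  apply Finset.sup_le
  intro m hm
  apply Nat.le_floor
  refine le_trans ?_ (h m hm)
  rw [Finsupp.sum_fintype _ _ (fun _ => rfl), Nat.cast_sum]
  exact Finset.sum_le_sum fun j _ => le_mul_of_one_le_right (Nat.cast_nonneg _) (hw j)

/-- coefficients of the derivatives -/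
theorem coeff_pderiv_le {P : MvPolynomial (Fin M) ℝ} {D : ℕ} (hD : P.totalDegree ≤ D) {K : ℝ}
    (hK : ∀ m, |P.coeff m| ≤ K) (i : Fin M) (m : Fin M →₀ ℕ) : |(MvPolynomial.pderiv i P).coeff m| ≤ K * (D + 1) := by
  classical
  have hK0 : 0 ≤ K := (abs_nonneg _).trans (hK 0)
  rw [MvPolynomial.coeff_pderiv, abs_mul]
  by_cases h5 : P.coeff (m + Finsupp.single i 1) = 0
  · rw [h5, abs_zero, zero_mul]
    positivity
  · apply mul_le_mul (hK _) _ (abs_nonneg _) hK0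
    have h2 := (MvPolynomial.le_totalDegree (MvPolynomial.mem_support_iff.mpr h5)).trans hD
    have h3 : ((m + Finsupp.single i 1).sum fun _ e => e) = (m.sum fun _ e => e) + 1 := by
      rw [Finsupp.sum_add_index' (fun _ => rfl) (fun _ _ _ => rfl), Finsupp.sum_single_index rfl]
    have h4 : m i ≤ m.sum fun _ e => e := by
      by_cases h0 : m i = 0
      · rw [h0]
        exact Nat.zero_le _
      · exact Finset.single_le_sum (f := fun j => m j) (fun _ _ => Nat.zero_le _) (Finsupp.mem_support_iff.2 h0)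
    have h6 : (m i : ℝ) ≤ D := by
      have : m i ≤ D := by omega
      exact_mod_cast this
    rw [abs_of_nonneg (by positivity)]
    linarith

theorem nd_coeff {P : MvPolynomial (Fin M) ℝ} {m : Fin M →₀ ℕ} {j : Fin M} (hm : m j ≠ 0) :
    |P.coeff m| ≤ |(MvPolynomial.pderiv j P).coeff (m - Finsupp.single j 1)| := by
  classical
  have h1 : m - Finsupp.single j 1 + Finsupp.single j 1 = m := by
    ext l
    rw [Finsupp.add_apply, Finsupp.tsub_apply]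
    by_cases hl : l = j
    · subst hl
      rw [Finsupp.single_eq_same]
      omega
    · rw [Finsupp.single_eq_of_ne hl]
      rfl
  rw [MvPolynomial.coeff_pderiv, h1, abs_mul]
  apply le_mul_of_one_le_right (abs_nonneg _)
  rw [abs_of_nonneg (by positivity)]
  exact le_add_of_nonneg_left (Nat.cast_nonneg _)

/-- NONDEGENERACY, one direction: small derivatives have small coefficients -/
theorem small_coeff (Q : S.VV M) {D : ℕ} (Φ : ∀ n, (S.F n).Ω → MvPolynomial (Fin M) ℝ) {W : ∀ n, Setoid (S.F n).Ω}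
    (fn : ∀ᶠ n in UF, ∀ ω ω', (S.F n).μ ω ≠ 0 → (S.F n).μ ω' ≠ 0 → (S.F n).Z ω ω' → W n ω ω' → Φ n ω = Φ n ω')
    (deg : ∀ᶠ n in UF, ∀ ω, (S.F n).μ ω ≠ 0 → (Φ n ω).totalDegree ≤ D)
    {K : ℕ → ℝ} (hK : S.Sub K) (bd : ∀ᶠ n in UF, ∀ ω, (S.F n).μ ω ≠ 0 → ∀ m, |(Φ n ω).coeff m| ≤ K n)
    (hW : Nul S (fun n => H (fc (W n) : FL (S.F n)))) {ε : ℝ} (h1 : ε ≤ 1)
    (hN : NR D (cq Q) (⊥ : S.L) ε) (i : Fin M)
    (hs : ∀ᶠ n in UF, ∀ ω, (S.F n).μ ω ≠ 0 →
      |MvPolynomial.eval (Q.v n ω) (MvPolynomial.pderiv i (Φ n ω))| ≤ S.dl ε n) (m : Fin M →₀ ℕ) :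
    ∃ K : ℕ → ℝ, S.Sub K ∧ S.Typ fun n ω => |(MvPolynomial.pderiv i (Φ n ω)).coeff m| ≤ K n * S.dl ε n := by
  classical
  obtain ⟨P, hP1, hP2, ⟨g, hg1, hg2⟩, hP3⟩ := exists_lit Q (D := D) (fun n ω => MvPolynomial.pderiv i (Φ n ω)) (W := W)
    (by
      filter_upwards [fn] with n hn ω ω' a b c d'
      rw [hn ω ω' a b c d']) (by
      filter_upwards [deg] with n hn ω a
      exact totalDegree_pderiv_le (hn ω a) i)
    ⟨fun n => K n * (D + 1), hK.mul (S.Sub_const (by positivity)), by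
      filter_upwards [bd, deg] with n hn h3 ω a m
      exact coeff_pderiv_le (h3 ω a) (hn ω a) i m⟩ hW
  have hg : mk g ∈ Id S ε := by
    rw [QS.mk_mem_Id h1]
    refine ⟨fun _ _ => True, fun _ => 1, Typ_true, S.Sub_const zero_le_one, ?_⟩
    filter_upwards [hg2, hs] with n h2 h3 ω hω _
    rw [TR.ev_zero, sub_zero, h2 ω hω, one_mul]
    exact h3 ω hω
  have h2 := hN P hP1 hP2 (by rw [hg1]; exact hg) m
  obtain ⟨g', hg1', hg2'⟩ := hP3 m
  rw [hg1', QS.mk_mem_Id h1] at h2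
  obtain ⟨E1, K, hE1, hK, h3⟩ := h2
  refine ⟨K, hK, hE1.mono ?_⟩
  filter_upwards [h3, hg2'] with n h4 h5 ω hω h6
  have h7 := h4 ω hω h6
  rw [TR.ev_zero, sub_zero, h5 ω hω] at h7
  exact h7

/-- NONDEGENERACY: not all derivatives are small -/
theorem not_small (Q : S.VV M) {D : ℕ} (Φ : ∀ n, (S.F n).Ω → MvPolynomial (Fin M) ℝ) {W : ∀ n, Setoid (S.F n).Ω}
    (fn : ∀ᶠ n in UF, ∀ ω ω', (S.F n).μ ω ≠ 0 → (S.F n).μ ω' ≠ 0 → (S.F n).Z ω ω' → W n ω ω' → Φ n ω = Φ n ω')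
    (deg : ∀ᶠ n in UF, ∀ ω, (S.F n).μ ω ≠ 0 → (Φ n ω).totalDegree ≤ D)
    {K : ℕ → ℝ} (hK : S.Sub K) (bd : ∀ᶠ n in UF, ∀ ω, (S.F n).μ ω ≠ 0 → ∀ m, |(Φ n ω).coeff m| ≤ K n)
    (hW : Nul S (fun n => H (fc (W n) : FL (S.F n)))) {ε : ℝ} (h0 : 0 < ε) (h1 : ε ≤ 1)
    (hN : NR D (cq Q) (⊥ : S.L) ε) {t : Fin M}
    (hs : ∀ᶠ n in UF, ∀ ω, (S.F n).μ ω ≠ 0 → ∀ i, i ≠ t →
      |MvPolynomial.eval (Q.v n ω) (MvPolynomial.pderiv i (Φ n ω))| ≤ S.dl ε n)
    {K1 : ℕ → ℝ} (hK1 : S.Sub K1) (nd : S.Typ fun n ω => ∃ (m : Fin M →₀ ℕ) (j : Fin M), j ≠ t ∧ m j ≠ 0 ∧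
      1 ≤ K1 n * |(Φ n ω).coeff m|) : False := by
  classical
  have key : ∀ i : {i : Fin M // i ≠ t}, ∀ a : Mon M D, ∃ K : ℕ → ℝ, S.Sub K ∧
      S.Typ fun n ω => |(MvPolynomial.pderiv i.1 (Φ n ω)).coeff a.ex| ≤ K n * S.dl ε n := fun i a =>
    small_coeff Q Φ fn deg hK bd hW h1 hN i.1 (by
      filter_upwards [hs] with n hn ω hω
      exact hn ω hω i.1 i.2) a.ex
  choose Kc hKc hT using key
  have hall : S.Typ fun n ω => ∀ p : {i : Fin M // i ≠ t} × Mon M D,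
      |(MvPolynomial.pderiv p.1.1 (Φ n ω)).coeff p.2.ex| ≤ Kc p.1 p.2 n * S.dl ε n := typ_all fun p => hT p.1 p.2
  have hKs : ∀ s : Finset ({i : Fin M // i ≠ t} × Mon M D), S.Sub (fun k => ∑ p ∈ s, Kc p.1 p.2 k) := by
    intro s
    induction s using Finset.induction_on with
    | empty => simpa using S.Sub_const le_rfl
    | insert a s ha ih =>
      have h1 := (hKc a.1 a.2).add ih
      simpa [Finset.sum_insert ha] using h1
  have hK2 : S.Sub fun n => K1 n * ∑ p : {i : Fin M // i ≠ t} × Mon M D, Kc p.1 p.2 n := hK1.mul (hKs univ)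
  have hc0 : ∀ᶠ n in UF, ∀ p : {i : Fin M // i ≠ t} × Mon M D, 0 ≤ Kc p.1 p.2 n := by
    rw [Filter.eventually_all]
    exact fun p => (hKc p.1 p.2).1
  apply typ_false (S := S)
  refine (hall.and nd).mono ?_
  filter_upwards [hK2.eventually_le (half_pos h0), S.lim.eventually (eventually_gt_atTop (0 : ℝ)), deg, hc0, hK1.1]
    with n h2 h3 h4 h5 h6 ω hω h7
  obtain ⟨h8, m, j, hj, hm, h9⟩ := h7
  have h10 : (Φ n ω).coeff m ≠ 0 := by
    intro h
    rw [h, abs_zero, mul_zero] at h9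
    linarith
  have h11 : (MvPolynomial.pderiv j (Φ n ω)).coeff (m - Finsupp.single j 1) ≠ 0 := by
    intro h
    have h12 := nd_coeff (P := Φ n ω) hm
    rw [h, abs_zero] at h12
    exact h10 (abs_nonpos_iff.mp h12)
  obtain ⟨a, ha⟩ := ex_of_coeff _ (totalDegree_pderiv_le (h4 ω hω) j) _ h11
  have h13 := h8 (⟨j, hj⟩, a)
  have h14 := nd_coeff (P := Φ n ω) hm
  rw [← ha] at h14
  have h15 : Kc ⟨j, hj⟩ a n ≤ ∑ p : {i : Fin M // i ≠ t} × Mon M D, Kc p.1 p.2 n :=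
    Finset.single_le_sum (f := fun p : {i : Fin M // i ≠ t} × Mon M D => Kc p.1 p.2 n) (fun p _ => h5 p)
      (Finset.mem_univ (⟨j, hj⟩, a))
  have h16 : 1 ≤ (K1 n * ∑ p : {i : Fin M // i ≠ t} × Mon M D, Kc p.1 p.2 n) * S.dl ε n := by
    calc 1 ≤ K1 n * |(Φ n ω).coeff m| := h9
      _ ≤ K1 n * (Kc ⟨j, hj⟩ a n * S.dl ε n) := mul_le_mul_of_nonneg_left (h14.trans h13) h6
      _ ≤ K1 n * ((∑ p : {i : Fin M // i ≠ t} × Mon M D, Kc p.1 p.2 n) * S.dl ε n) :=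
          mul_le_mul_of_nonneg_left (mul_le_mul_of_nonneg_right h15 (S.dl_pos ε n).le) h6
      _ = _ := by ring
  have h17 : (2 : ℝ) ^ (ε / 2 * (S.F n).n) * S.dl ε n < 1 := by
    unfold Sp.dl
    rw [← Real.rpow_add (by norm_num)]
    apply Real.rpow_lt_one_of_one_lt_of_neg (by norm_num)
    nlinarith
  have h18 := mul_le_mul_of_nonneg_right h2 (S.dl_pos ε n).le
  have h19 := S.dl_pos ε n
  rw [add_mul] at h18
  linarith

/-- NONDEGENERACY: some partial derivative is typically not small at the point -/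
theorem pderiv_large {k : ℕ} {t : Fin M} {w : Fin M → ℝ} {W : ℝ} {s : MSys S M E ι} (d : Dt k t w W s)
    (hw : ∀ j, 1 ≤ w j) (hN : ∀ (D : ℕ) (A : ∀ n, (S.F n).Ω → Prop), 0 < ul (S.pr A) → ∀ r : ℝ, 0 < r → r ≤ 1 →
      NR D (cq (s.Q.rest A)) (⊥ : (S.rest A).L) r) {ε : ℝ} (hε : 0 < ε) :
    S.Typ fun n ω => ∃ i, i ≠ t ∧ S.dl ε n ≤ |MvPolynomial.eval (s.Q.v n ω) (MvPolynomial.pderiv i (d.Φ n ω))| := by
  classical
  rcases typ_or (fun n (ω : (S.F n).Ω) => ∃ i, i ≠ t ∧ S.dl ε n ≤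
    |MvPolynomial.eval (s.Q.v n ω) (MvPolynomial.pderiv i (d.Φ n ω))|) with h0 | hA
  · exact h0
  exfalso
  obtain ⟨A, hAe⟩ : ∃ A : ∀ n, (S.F n).Ω → Prop, A = fun n (ω : (S.F n).Ω) => ¬ ∃ i, i ≠ t ∧ S.dl ε n ≤
    |MvPolynomial.eval (s.Q.v n ω) (MvPolynomial.pderiv i (d.Φ n ω))| := ⟨_, rfl⟩
  rw [← hAe] at hA
  obtain ⟨ε1, h10, h11, h1ε⟩ : ∃ ε1 : ℝ, 0 < ε1 ∧ ε1 ≤ 1 ∧ ε1 ≤ ε := ⟨min ε 1, lt_min hε one_pos, min_le_right _ _,
    min_le_left _ _⟩
  obtain ⟨K0, hK0, hb⟩ := d.bΦ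
  obtain ⟨K1, hK1, hnd⟩ := d.nd
  have hrp := rest_pos hA
  refine not_small (S := S.rest A) (s.Q.rest A) d.Φ (W := d.W0) (D := ⌊W⌋₊) (t := t) ?_ ?_ (K := K0) hK0 ?_
    (nul_rest hA d.nW) h10 h11 (hN _ A hA ε1 h10 h11) ?_ (K1 := K1) hK1 (Typ.rest A hA hnd)
  · filter_upwards [d.fΦ, hrp] with n hn h2 ω ω' a b c d'
    exact hn ω ω' (h2 ω a).1 (h2 ω' b).1 c d'
  · filter_upwards [d.wd, hrp] with n hn h2 ω a
    exact deg_of_wd hw (hn ω (h2 ω a).1)
  · filter_upwards [hb, hrp] with n hn h2 ω a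
    exact hn ω (h2 ω a).1
  · filter_upwards [hrp] with n h3 ω hω i hi
    have h4 := (h3 ω hω).2
    rw [hAe] at h4
    push Not at h4
    exact (h4 i hi).le.trans (S.dl_anti h1ε n)

end

end Pool.Agent.Helper58.CCZ
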