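import Pool.Agent.Helper75.CC.Def

/-! ZOOM OF THE CLASSES CC: finer leaves over one coordinate in the zoom over a label without leak at the window of the
type. -/

set_option autoImplicit false

namespace Pool.Agent.Helper58.CCZ

open Finset Filter Topology Pool.Agent.Helper69.RK Pool.Agent.Helper31.EC Pool.Agent.Helper31.EC.Sp
open Pool.Agent.Helper40.EL Pool.Agent.Helper84.MT Pool.Agent.Helper36.AM Pool.Agent.Helper75.CC

noncomputable section

variable {S : Sp} {M : ℕ} {E E' : ℕ → ℕ} {ι : Type}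

/-- the first coordinate of a frame is a translation -/
theorem frm_zero {Q : S.VV M} {l : Lab S} {La : Fin M → ℝ} (f : Frm Q l La) {t : Fin M} (ht : t.val = 0) (k : ℕ)
    (ω : (l.sp.F k).Ω) : f.P k ω t = MvPolynomial.C ((f.P k ω t).coeff 0) := by
  classical
  ext m
  rw [MvPolynomial.coeff_C]
  split_ifs with h
  · rw [h]
  · by_contra h1
    obtain ⟨i, hi⟩ := Finsupp.ne_iff.mp (Ne.symm h)
    have h2 : i ∈ (f.P k ω t).vars := by
      rw [MvPolynomial.mem_vars_iff_mem_support]
      exact ⟨m, MvPolynomial.mem_support_iff.mpr h1, Finsupp.mem_support_iff.mpr hi⟩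
    have h3 := f.tri k ω t i h2
    rw [Fin.lt_def, ht] at h3
    omega

/-- the leak of a label at a finer condition -/
theorem leak_fin {l : Lab S} {A B : Part S} (hl : Nul S (fun k => (l k).leak (A k))) (h : PLe A B) :
    Nul S (fun k => (l k).leak (B k)) :=
  (hl.add h).of_le (Eventually.of_forall fun _ => FLab.leak_nonneg _ _)
    (Eventually.of_forall fun k => (l k).leak_le_leak (B k) (A k))

section
variable {s : MSys S M E ι} {i : ι} {t : Fin M} {L : ∀ n, Setoid (S.F n).Ω} {l : Lab S} {La : Fin M → ℝ}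
  {f : Frm s.Q l La} {c e : ℝ} {he : 0 < e} {t' : MSys (l.ovr e he) M E' ι}

/-- cells of the coordinate of the system are known to the cells of the coordinate of the zoom -/
theorem cell_zoom (ht : t.val = 0) (hLa : La t = c) (hg : Gz s l c e he f.X t') {b : ℝ} (hb : b ≤ 1) (hce : c + e ≤ 1) :
    PLe (S := l.ovr e he) (fun n => fc (F := (l.ovr e he).F n)
        (Setoid.comap (l n).p.π (Setoid.ker ((s.Q.co t).cellv (c + e * b) n))))
      (fun n => fc (F := (l.ovr e he).F n) (Setoid.ker ((t'.Q.co t).cellv b n))) := by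
  obtain ⟨K1, hK1, h1⟩ := hg.pt
  obtain ⟨K2, hK2, h2⟩ := f.pt
  have hdl : ∀ r k, (l.ovr e he).dl r k = S.dl (e * r) k := by
    intro r k
    unfold Sp.dl
    rw [l.n_over e he]
    congr 1
    ring
  have key := PLe_cell (S := l.ovr e he) ((l.pj.vv (s.Q.co t)).chg l.V e he) ((c + e * b) / e)
    (fun n => Setoid.ker ((t'.Q.co t).cellv b n)) (fun k => 2 * K1 k + 1 + 2 * K2 k)
    (chg_sub l.V e he (l.pj.sub ((((S.Sub_const (by norm_num : (0 : ℝ) ≤ 2)).mul hK1).add (S.Sub_const zero_le_one)).add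
      ((S.Sub_const (by norm_num : (0 : ℝ) ≤ 2)).mul hK2)))) (by
      filter_upwards [h1, h2, f.fn, hK1.1, hK2.1] with k a1 a2 a3 k1 k2 ω ω' hω hω' hz hB j
      have hω1 : (l.sp.F k).μ ω ≠ 0 := hω
      have hω1' : (l.sp.F k).μ ω' ≠ 0 := hω'
      have hP : f.P k ω = f.P k ω' := a3 ω ω' hω1 hω1' hz.2 hz.1
      have c1 := a1 ω hω1 t
      have c1' := a1 ω' hω1' t
      have c2 := a2 ω hω1 t
      have c2' := a2 ω' hω1' t
      rw [hP, frm_zero f ht k ω', MvPolynomial.eval_C, hLa] at c2
      rw [frm_zero f ht k ω', MvPolynomial.eval_C, hLa] at c2'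
      have c3 : |t'.Q.v k ω t - t'.Q.v k ω' t| ≤ S.dl (e * b) k := by
        have h3 := (t'.Q.co t).cellv_close b k ω ω' hB 0
        rw [hdl] at h3
        exact h3
      have e1 : (l.ovr e he).dl ((c + e * b) / e) k = S.dl (c + e * b) k := by
        rw [hdl]
        congr 1
        field_simp
      rw [e1]
      have hd : 0 < S.dl c k := S.dl_pos c k
      have hde : S.dl (c + e * b) k = S.dl c k * S.dl (e * b) k := S.dl_add _ _ k
      have hd1 : S.dl 1 k ≤ S.dl (c + e * b) k := S.dl_anti (by nlinarith) k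
      have hd2 : S.dl e k ≤ S.dl (e * b) k := S.dl_anti (by nlinarith) k
      show |(l.pj.vv s.Q).v k ω t - (l.pj.vv s.Q).v k ω' t| ≤ _
      set x := (l.pj.vv s.Q).v k ω t
      set x' := (l.pj.vv s.Q).v k ω' t
      set o := (f.P k ω' t).coeff 0
      set X := f.X.v k ω t
      set X' := f.X.v k ω' t
      have d1 : x - x' = (x - (o + S.dl c k * X)) - (x' - (o + S.dl c k * X')) - S.dl c k * (t'.Q.v k ω t - X) +
          S.dl c k * (t'.Q.v k ω' t - X') + S.dl c k * (t'.Q.v k ω t - t'.Q.v k ω' t) := by ring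
      rw [d1]
      have g1 : |S.dl c k * (t'.Q.v k ω t - X)| ≤ S.dl c k * (K1 k * S.dl e k) := by
        rw [abs_mul, abs_of_pos hd]
        exact mul_le_mul_of_nonneg_left c1 hd.le
      have g1' : |S.dl c k * (t'.Q.v k ω' t - X')| ≤ S.dl c k * (K1 k * S.dl e k) := by
        rw [abs_mul, abs_of_pos hd]
        exact mul_le_mul_of_nonneg_left c1' hd.le
      have g3 : |S.dl c k * (t'.Q.v k ω t - t'.Q.v k ω' t)| ≤ S.dl c k * S.dl (e * b) k := by
        rw [abs_mul, abs_of_pos hd]
        exact mul_le_mul_of_nonneg_left c3 hd.le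
      have g4 : S.dl c k * (K1 k * S.dl e k) ≤ K1 k * S.dl (c + e * b) k := by
        rw [hde]
        have := mul_le_mul_of_nonneg_left hd2 (mul_nonneg k1 hd.le)
        nlinarith
      have g5 : K2 k * S.dl 1 k ≤ K2 k * S.dl (c + e * b) k := mul_le_mul_of_nonneg_left hd1 k2
      rw [← hde] at g3
      have a4 := abs_add_le ((x - (o + S.dl c k * X)) - (x' - (o + S.dl c k * X')) - S.dl c k * (t'.Q.v k ω t - X) +
          S.dl c k * (t'.Q.v k ω' t - X')) (S.dl c k * (t'.Q.v k ω t - t'.Q.v k ω' t))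
      have a5 := abs_add_le ((x - (o + S.dl c k * X)) - (x' - (o + S.dl c k * X')) - S.dl c k * (t'.Q.v k ω t - X))
        (S.dl c k * (t'.Q.v k ω' t - X'))
      have a6 := abs_sub ((x - (o + S.dl c k * X)) - (x' - (o + S.dl c k * X'))) (S.dl c k * (t'.Q.v k ω t - X))
      have a7 := abs_sub (x - (o + S.dl c k * X)) (x' - (o + S.dl c k * X'))
      have e3 : (2 * K1 k + 1 + 2 * K2 k) * S.dl (c + e * b) k = K2 k * S.dl (c + e * b) k +
        K2 k * S.dl (c + e * b) k + K1 k * S.dl (c + e * b) k + K1 k * S.dl (c + e * b) k + S.dl (c + e * b) k := by ring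
      rw [e3]
      linarith)
  have h3 : ∀ n (ω : (l.sp.F n).Ω), ((l.pj.vv (s.Q.co t)).chg l.V e he).cellv ((c + e * b) / e) n ω =
      (s.Q.co t).cellv (c + e * b) n (l.pj.π n ω) := by
    intro n ω
    have h4 : (l.ovr e he).dl ((c + e * b) / e) n = S.dl (c + e * b) n := by
      rw [hdl]
      congr 1
      field_simp
    show cell ((l.ovr e he).dl ((c + e * b) / e) n) ((s.Q.co t).v n (l.pj.π n ω)) =
      cell (S.dl (c + e * b) n) ((s.Q.co t).v n (l.pj.π n ω))
    rw [h4]
  have e2 : ∀ n, Setoid.ker (((l.pj.vv (s.Q.co t)).chg l.V e he).cellv ((c + e * b) / e) n) =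
      Setoid.comap (l.pj.π n) (Setoid.ker ((s.Q.co t).cellv (c + e * b) n)) := by
    intro n
    ext ω ω'
    exact Eq.congr (h3 n ω) (h3 n ω')
  exact (PLe_of_le fun n => le_of_eq (congrArg (fun A => fc (F := (l.ovr e he).F n) A) (e2 n).symm)).trans key

/-- FINER LEAVES OF THE ZOOM -/
theorem SL.zoom (h : SL s i t L) (hl : Nul S (fun n => (l n).leak ((s.lf i).win c n))) (ht : t.val = 0)
    (hLa : La t = c) (hg : Gz s l c e he f.X t') (hc : 0 ≤ c) (hce : c + e ≤ 1) :
    SL t' i t (fun n => Setoid.comap (l n).p.π (L n)) where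
  win := fun b hb0 hb1 => by
    refine (hg.win b i hb0 hb1).1.trans ((Lab.PLe_up l e he (h.win (c + e * b) (by positivity) (by nlinarith))).trans ?_)
    have e1 : l.up e he (sw s.Q t L (c + e * b)) = fun n => fc (F := (l.ovr e he).F n) (Setoid.comap (l n).p.π (L n)) ⊔
        fc (F := (l.ovr e he).F n) (Setoid.comap (l n).p.π (Setoid.ker ((s.Q.co t).cellv (c + e * b) n))) := by
      funext n
      rw [← fc_inf]
      rfl
    have e2 : sw t'.Q t (fun n => Setoid.comap (l n).p.π (L n)) b = fun n => fc (F := (l.ovr e he).F n)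
        (Setoid.comap (l n).p.π (L n)) ⊔ fc (F := (l.ovr e he).F n) (Setoid.ker ((t'.Q.co t).cellv b n)) := by
      funext n
      unfold sw
      rw [← fc_inf]
    rw [e1, e2]
    exact PLe.sup_le (PLe_of_le fun n => le_sup_left) ((cell_zoom ht hLa hg hb1 hce).trans
      (PLe_of_le fun n => le_sup_right))
  real := by
    -- the cells of the coordinate of the system
    have h1 := (tl s.Q t L h.real).full_win hc (by linarith : c ≤ c + e) hce
    have h2 : Tendsto (fun n => Helper31.EC.h (fc (Setoid.ker ((s.Q.co t).cellv (c + e) n))) (sw s.Q t L c n) /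
        (S.F n).n) UF (𝓝 e) := by
      have e1 : (((tl s.Q t L h.real).e : ℝ)) * (c + e - c) = e := by
        rw [show ((tl s.Q t L h.real).e : ℝ) = 1 from Nat.cast_one]
        ring
      rw [e1] at h1
      exact h1
    have h3 : Nul S (fun n => (l n).leak (sw s.Q t L c n)) := leak_fin hl (h.win c hc (by linarith))
    have h4 := cell_zoom ht hLa hg (le_refl (1 : ℝ)) hce
    rw [mul_one] at h4
    have t1 : Tendsto (fun n => e⁻¹ * (Helper31.EC.h (fc (Setoid.ker ((s.Q.co t).cellv (c + e) n))) (sw s.Q t L c n) /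
        (S.F n).n - (l n).leak (sw s.Q t L c n) / (S.F n).n) - Helper31.EC.h (fc (F := (l.ovr e he).F n)
        (Setoid.comap (l n).p.π (Setoid.ker ((s.Q.co t).cellv (c + e) n))))
        (fc (F := (l.ovr e he).F n) (Setoid.ker ((t'.Q.co t).cellv 1 n))) / ((l.ovr e he).F n).n) UF
        (𝓝 (e⁻¹ * (e - 0) - 0)) := ((h2.sub h3).const_mul e⁻¹).sub h4
    rw [sub_zero, sub_zero, inv_mul_cancel₀ he.ne'] at t1
    rw [Metric.tendsto_nhds]
    intro ε hε
    have h5 := Pool.Agent.Helper84.MT.h_cell_le (S := l.ovr e he) (t'.Q.co t) zero_le_one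
      (fun n => fc (F := (l.ovr e he).F n) (Setoid.comap (l n).p.π (L n))) (ε / 2) (by linarith)
    filter_upwards [h5, t1.eventually (lt_mem_nhds (show 1 - ε < 1 by linarith))] with n a b
    rw [Nat.cast_one, mul_one] at a
    rw [Real.dist_eq, abs_lt]
    constructor
    · have hn := ((l.ovr e he).F n).pos
      have hSn := (S.F n).pos
      -- the finite inequality
      have g1 : Helper31.EC.h (fc (F := (l.ovr e he).F n) (Setoid.comap (l n).p.π (Setoid.ker ((s.Q.co t).cellv (c + e) n))))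
          (fc (F := (l.ovr e he).F n) (Setoid.comap (l n).p.π (L n))) ≤
          Helper31.EC.h (fc (F := (l.ovr e he).F n) (Setoid.ker ((t'.Q.co t).cellv 1 n)))
          (fc (F := (l.ovr e he).F n) (Setoid.comap (l n).p.π (L n))) +
          Helper31.EC.h (fc (F := (l.ovr e he).F n) (Setoid.comap (l n).p.π (Setoid.ker ((s.Q.co t).cellv (c + e) n))))
          (fc (F := (l.ovr e he).F n) (Setoid.ker ((t'.Q.co t).cellv 1 n))) := by
        have k1 := h_triangle (fc (F := (l.ovr e he).F n) (Setoid.comap (l n).p.π (Setoid.ker ((s.Q.co t).cellv (c + e) n))))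
          (fc (F := (l.ovr e he).F n) (Setoid.ker ((t'.Q.co t).cellv 1 n)))
          (fc (F := (l.ovr e he).F n) (Setoid.comap (l n).p.π (L n)))
        refine k1.trans ?_
        have k2 : Helper31.EC.h (fc (F := (l.ovr e he).F n) (Setoid.comap (l n).p.π (Setoid.ker ((s.Q.co t).cellv (c + e) n))))
          (fc (F := (l.ovr e he).F n) (Setoid.ker ((t'.Q.co t).cellv 1 n)) ⊔
            fc (F := (l.ovr e he).F n) (Setoid.comap (l n).p.π (L n))) ≤ Helper31.EC.h (fc (F := (l.ovr e he).F n)
            (Setoid.comap (l n).p.π (Setoid.ker ((s.Q.co t).cellv (c + e) n))))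
          (fc (F := (l.ovr e he).F n) (Setoid.ker ((t'.Q.co t).cellv 1 n))) := h_anti le_sup_left
        linarith
      have g2 : Helper31.EC.h (fc (Setoid.ker ((s.Q.co t).cellv (c + e) n))) (sw s.Q t L c n) -
          (l n).leak (sw s.Q t L c n) ≤ Helper31.EC.h (fc (F := (l.ovr e he).F n)
            (Setoid.comap (l n).p.π (Setoid.ker ((s.Q.co t).cellv (c + e) n))))
          (fc (F := (l.ovr e he).F n) (Setoid.comap (l n).p.π (L n))) := by
        have k1 : Helper31.EC.h (fc (F := (l.ovr e he).F n) (Setoid.comap (l n).p.π (Setoid.ker ((s.Q.co t).cellv (c + e) n))))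
          (fc (F := (l.ovr e he).F n) (Setoid.comap (l n).p.π (L n))) =
          Helper31.EC.h ((l n).p.map (fc (Setoid.ker ((s.Q.co t).cellv (c + e) n)))) ((l n).p.map (fc (L n)) ⊔ (l n).v) :=
          (l n).h_up e he (fc (Setoid.ker ((s.Q.co t).cellv (c + e) n))) (fc (L n))
        rw [k1]
        have k2 : Helper31.EC.h ((l n).p.map (fc (Setoid.ker ((s.Q.co t).cellv (c + e) n))))
            ((l n).p.map (sw s.Q t L c n) ⊔ (l n).v) ≤
            Helper31.EC.h ((l n).p.map (fc (Setoid.ker ((s.Q.co t).cellv (c + e) n)))) ((l n).p.map (fc (L n)) ⊔ (l n).v) := by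
          apply h_anti
          apply sup_le_sup_right
          apply (l n).p.map_mono
          exact fc_mono inf_le_left
        refine le_trans ?_ k2
        have k3 := I_eq' (l n).v ((l n).p.map (fc (Setoid.ker ((s.Q.co t).cellv (c + e) n)))) ((l n).p.map (sw s.Q t L c n))
        have k4 : I (l n).v ((l n).p.map (fc (Setoid.ker ((s.Q.co t).cellv (c + e) n)))) ((l n).p.map (sw s.Q t L c n)) ≤
            (l n).leak (sw s.Q t L c n) := I_mono_right (((l n).p.map_le_top _).trans le_sup_left)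
        rw [(l n).p.h_map] at k3
        rw [sup_comm (l n).v] at k3
        linarith
      have e3 : ((l.ovr e he).F n).n = e * (S.F n).n := l.n_over e he n
      have g3 : e⁻¹ * (Helper31.EC.h (fc (Setoid.ker ((s.Q.co t).cellv (c + e) n))) (sw s.Q t L c n) / (S.F n).n -
          (l n).leak (sw s.Q t L c n) / (S.F n).n) = (Helper31.EC.h (fc (Setoid.ker ((s.Q.co t).cellv (c + e) n)))
          (sw s.Q t L c n) - (l n).leak (sw s.Q t L c n)) / ((l.ovr e he).F n).n := by
        rw [e3]
        field_simp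
      rw [g3, ← sub_div] at b
      have g4 : (Helper31.EC.h (fc (Setoid.ker ((s.Q.co t).cellv (c + e) n))) (sw s.Q t L c n) -
          (l n).leak (sw s.Q t L c n) - Helper31.EC.h (fc (F := (l.ovr e he).F n)
          (Setoid.comap (l n).p.π (Setoid.ker ((s.Q.co t).cellv (c + e) n))))
          (fc (F := (l.ovr e he).F n) (Setoid.ker ((t'.Q.co t).cellv 1 n)))) / ((l.ovr e he).F n).n ≤
          Helper31.EC.h (fc (F := (l.ovr e he).F n) (Setoid.ker ((t'.Q.co t).cellv 1 n)))
          (fc (F := (l.ovr e he).F n) (Setoid.comap (l n).p.π (L n))) / ((l.ovr e he).F n).n :=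
        div_le_div_of_nonneg_right (by linarith) hn.le
      linarith
    · linarith

end

end

end Pool.Agent.Helper58.CCZ
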