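import Pool.Agent.Helper75.CC.Def
import Pool.Agent.Helper3.LF.Adm

/-! ZOOM OF THE CLASSES CC, REAL VARIABLES: a polynomial in a variable which is full over `L`, with coefficients known to
`L`, whose values are typically tame has typically tame coefficients. -/

set_option autoImplicit false

namespace Pool.Agent.Helper58.CCZ

open Finset Filter Topology Pool.Agent.Helper69.RK Pool.Agent.Helper31.EC Pool.Agent.Helper31.EC.Sp
open Pool.Agent.Helper31.EC.QS Pool.Agent.Helper40.EL Pool.Agent.Helper84.MT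

noncomputable section

variable {S : Sp} {D : ℕ}

/-- the digits of a vector as a part -/
theorem hr_dg {m m' : ℕ} (y : S.VV m) (y' : S.VV m') :
    h (y.dg 1) (y'.dg 1) = hr (fun n => fc (Setoid.ker (y.cellv 1 n))) (fun n => fc (Setoid.ker (y'.cellv 1 n))) := by
  have e1 : y.dg 1 = cl (y.bdd 1).toInf := io_eq (y.bdd 1)
  have e2 : y'.dg 1 = cl (y'.bdd 1).toInf := io_eq (y'.bdd 1)
  rw [e1, e2, ← hr_rpI]
  rfl

/-- a full variable over `L` is real over the coefficients known to `L` -/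
theorem real_of_full (y : S.VV 1) {L : ∀ n, Setoid (S.F n).Ω}
    (hy : Tendsto (fun n => h (fc (Setoid.ker (y.cellv 1 n))) (fc (L n)) / (S.F n).n) UF (𝓝 1))
    (v : Fin (D + 1) → TR S)
    (fv : ∀ᶠ n in UF, ∀ ω ω', (S.F n).μ ω ≠ 0 → (S.F n).μ ω' ≠ 0 → (S.F n).Z ω ω' → L n ω ω' →
      ∀ l, TR.ev (v l) n ω = TR.ev (v l) n ω') :
    h (QS.dg (QS.mk (TR.cor y 0)) 1) (QS.vd (fun l => QS.mk (v l)) 1) = 1 := by
  have e1 : QS.dg (QS.mk (TR.cor y 0)) 1 = y.dg 1 := by
    rw [QS.dg_mk _ le_rfl]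
    have e0 : (fun _ : Fin 1 => TR.cor y 0) = TR.cor y := funext fun i => by rw [Subsingleton.elim i 0]
    show (TR.vec fun _ : Fin 1 => TR.cor y 0).dg 1 = y.dg 1
    rw [e0, TR.vec_cor]
  have e2 : QS.vd (fun l => QS.mk (v l)) 1 = (TR.vec v).dg 1 := by
    rw [TR.vec_dg_eq]
    unfold QS.vd
    congr 1
    funext l
    exact QS.dg_mk _ le_rfl
  have h1 : PLe (fun n => fc (Setoid.ker ((TR.vec v).cellv 1 n))) (fun n => fc (L n)) := by
    refine PLe_cell (TR.vec v) 1 L (fun _ => 0) (S.Sub_const le_rfl) ?_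
    filter_upwards [fv] with n hn ω ω' a b c d i
    have h2 : (TR.vec v).v n ω i = (TR.vec v).v n ω' i := hn ω ω' a b c d i
    rw [h2, sub_self, abs_zero, zero_mul]
  have h2 : hr (fun n => fc (Setoid.ker (y.cellv 1 n))) (fun n => fc (L n)) = 1 := ul_eq hy
  have hB : Part.Bd (S := S) (fun n => fc (Setoid.ker (y.cellv 1 n))) := rpI_Bd (y.bdd 1).toInf
  have h3 := hr_anti hB h1
  rw [h2, ← hr_dg] at h3
  apply le_antisymm (h_dg_le_one _ _)
  rw [e1, e2]
  exact h3

/-- TAME COEFFICIENTS -/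
theorem tame_coeff (y : S.VV 1) {L : ∀ n, Setoid (S.F n).Ω}
    (hy : Tendsto (fun n => h (fc (Setoid.ker (y.cellv 1 n))) (fc (L n)) / (S.F n).n) UF (𝓝 1))
    (u : ∀ n, (S.F n).Ω → Fin (D + 1) → ℝ)
    (fu : ∀ᶠ n in UF, ∀ ω ω', (S.F n).μ ω ≠ 0 → (S.F n).μ ω' ≠ 0 → (S.F n).Z ω ω' → L n ω ω' → u n ω = u n ω')
    (hv : ∃ K : ℕ → ℝ, S.Sub K ∧ S.Typ fun n ω => |∑ l, u n ω l * y.v n ω 0 ^ (l : ℕ)| ≤ K n) :
    ∃ K : ℕ → ℝ, S.Sub K ∧ S.Typ fun n ω => ∑ l, |u n ω l| ≤ K n := by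
  classical
  obtain ⟨K, hK, hT⟩ := hv
  apply Pool.Agent.Helper3.LF.typ_sub_le
  intro ε' hε'
  obtain ⟨ε, hε, hε1, hεε⟩ : ∃ ε : ℝ, 0 < ε ∧ ε ≤ 1 ∧ ε ≤ ε' := ⟨min ε' 1, lt_min hε' one_pos, min_le_right _ _, min_le_left _ _⟩
  -- the normalized coefficients
  obtain ⟨N, hN⟩ : ∃ N : ∀ n, (S.F n).Ω → ℝ, N = fun n ω => ∑ l, |u n ω l| := ⟨_, rfl⟩
  have hN0 : ∀ n ω, 0 ≤ N n ω := fun n ω => by
    rw [hN]
    exact Finset.sum_nonneg fun _ _ => abs_nonneg _
  have hul : ∀ n ω l, |u n ω l| ≤ N n ω := fun n ω l => by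
    rw [hN]
    exact Finset.single_le_sum (f := fun l => |u n ω l|) (fun _ _ => abs_nonneg _) (Finset.mem_univ l)
  obtain ⟨v0, hv0⟩ : ∃ v0 : ∀ n, (S.F n).Ω → Fin (D + 1) → ℝ, v0 = fun n ω l =>
      if (2 : ℝ) ^ (ε * (S.F n).n) < N n ω then u n ω l / N n ω else 0 := ⟨_, rfl⟩
  have hv1 : ∀ n ω l, |v0 n ω l| ≤ 1 := by
    intro n ω l
    rw [hv0]
    beta_reduce
    split_ifs with h
    · have h1 : 0 < N n ω := lt_trans (by positivity) h
      rw [abs_div, abs_of_pos h1, div_le_one h1]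
      exact hul n ω l
    · rw [abs_zero]
      exact zero_le_one
  let v : Fin (D + 1) → TR S := fun l => ⟨fun n ω => v0 n ω l, fun _ => 1, S.Sub_const zero_le_one,
    Eventually.of_forall fun n ω _ => hv1 n ω l⟩
  have hev : ∀ l n ω, TR.ev (v l) n ω = v0 n ω l := fun _ _ _ => rfl
  have hreal := real_of_full y hy v (by
    filter_upwards [fu] with n hn ω ω' a b c d l
    rw [hev, hev, hv0]
    beta_reduce
    rw [hN]
    beta_reduce
    rw [hn ω ω' a b c d])
  -- the value is small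
  have hz : QS.pe (fun l => QS.mk (v l)) (QS.mk (TR.cor y 0)) ∈ QS.Id S ε := by
    have e1 : QS.pe (fun l => QS.mk (v l)) (QS.mk (TR.cor y 0)) = QS.mk (∑ l, v l * TR.cor y 0 ^ (l : ℕ)) := by
      unfold QS.pe
      rw [map_sum]
      refine Finset.sum_congr rfl fun l _ => ?_
      rw [map_mul, map_pow]
    rw [e1, QS.mk_mem_Id hε1]
    refine ⟨_, K, hT, hK, ?_⟩
    filter_upwards [hK.1] with n hKn ω _ hω
    rw [TR.ev_zero, sub_zero]
    have e2 : TR.ev (∑ l, v l * TR.cor y 0 ^ (l : ℕ)) n ω = ∑ l, v0 n ω l * y.v n ω 0 ^ (l : ℕ) := by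
      rw [← TR.evh_apply, map_sum]
      refine Finset.sum_congr rfl fun l _ => ?_
      rw [map_mul, map_pow]
      rfl
    rw [e2, hv0]
    beta_reduce
    by_cases h : (2 : ℝ) ^ (ε * (S.F n).n) < N n ω
    · have h1 : 0 < N n ω := lt_trans (by positivity) h
      simp only [if_pos h]
      have e3 : ∑ l, u n ω l / N n ω * y.v n ω 0 ^ (l : ℕ) = (∑ l, u n ω l * y.v n ω 0 ^ (l : ℕ)) / N n ω := by
        rw [Finset.sum_div]
        exact Finset.sum_congr rfl fun l _ => by ring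
      rw [e3, abs_div, abs_of_pos h1, div_le_iff₀ h1]
      have h2 : 1 ≤ S.dl ε n * N n ω := by
        have h3 : S.dl ε n * (2 : ℝ) ^ (ε * (S.F n).n) = 1 := by
          unfold Sp.dl
          rw [← Real.rpow_add (by norm_num), neg_add_cancel, Real.rpow_zero]
        rw [← h3]
        exact mul_le_mul_of_nonneg_left h.le (S.dl_pos ε n).le
      calc |∑ l, u n ω l * y.v n ω 0 ^ (l : ℕ)| ≤ K n * 1 := by rw [mul_one]; exact hω
        _ ≤ K n * (S.dl ε n * N n ω) := mul_le_mul_of_nonneg_left h2 hKn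
        _ = K n * S.dl ε n * N n ω := by ring
    · simp only [if_neg h, zero_mul]
      rw [Finset.sum_const_zero, abs_zero]
      exact mul_nonneg hKn (S.dl_pos _ _).le
  have hsm : ∀ l, TR.Ag ε (v l) 0 := fun l => (QS.mk_mem_Id hε1).mp (real_zero _ _ hreal hε1 hz l)
  choose Ev Kv hEv hKv hav using hsm
  have hall : Typ (S := S) fun n ω => ∀ l, Ev l n ω := by
    have h1 : ∀ s : Finset (Fin (D + 1)), Typ (S := S) fun n ω => ∀ l ∈ s, Ev l n ω := by
      intro s
      induction s using Finset.induction_on with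
      | empty => exact Typ_true.mono (Eventually.of_forall fun n ω _ _ l hl => by simp at hl)
      | insert a s ha ih =>
        refine ((hEv a).and ih).mono (Eventually.of_forall fun n ω _ hω l hl => ?_)
        rcases Finset.mem_insert.mp hl with rfl | h2
        · exact hω.1
        · exact hω.2 l h2
    exact (h1 univ).mono (Eventually.of_forall fun n ω _ hω l => hω l (Finset.mem_univ l))
  have hKs : S.Sub (fun n => ∑ l, Kv l n) := by
    have : ∀ s : Finset (Fin (D + 1)), S.Sub (fun k => ∑ i ∈ s, Kv i k) := by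
      intro s
      induction s using Finset.induction_on with
      | empty => simpa using S.Sub_const le_rfl
      | insert a s ha ih =>
        have h1 := (hKv a).add ih
        simpa [Finset.sum_insert ha] using h1
    exact this Finset.univ
  have hsmall : ∀ᶠ n in UF, (∑ l, Kv l n) * S.dl ε n < 1 := by
    have h1 := hKs.eventually_le (half_pos hε)
    filter_upwards [h1, S.lim.eventually (eventually_gt_atTop (0 : ℝ))] with n a b
    have h2 : (2 : ℝ) ^ (ε / 2 * (S.F n).n) * S.dl ε n < 1 := by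
      unfold Sp.dl
      rw [← Real.rpow_add (by norm_num)]
      apply Real.rpow_lt_one_of_one_lt_of_neg (by norm_num)
      nlinarith
    exact lt_of_le_of_lt (mul_le_mul_of_nonneg_right (by linarith) (S.dl_pos _ _).le) h2
  refine hall.mono ?_
  have hav' : ∀ᶠ n in UF, ∀ l, ∀ ω, (S.F n).μ ω ≠ 0 → Ev l n ω → |TR.ev (v l) n ω - TR.ev (0 : TR S) n ω| ≤
      Kv l n * S.dl ε n := by
    rw [Filter.eventually_all]
    exact hav
  filter_upwards [hav', hsmall] with n h1 h2 ω hω h3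
  by_contra h4
  rw [not_le] at h4
  have h5 : (2 : ℝ) ^ (ε * (S.F n).n) < N n ω := by
    refine lt_of_le_of_lt ?_ (show (2 : ℝ) ^ (ε' * (S.F n).n) < N n ω by rw [hN]; exact h4)
    exact Real.rpow_le_rpow_of_exponent_le (by norm_num) (mul_le_mul_of_nonneg_right hεε (S.F n).pos.le)
  have h6 : 0 < N n ω := lt_trans (by positivity) h5
  have h7 : ∑ l, |v0 n ω l| = 1 := by
    rw [hv0]
    beta_reduce
    simp only [if_pos h5]
    have h8 : ∀ l, |u n ω l / N n ω| = |u n ω l| / N n ω := fun l => by rw [abs_div, abs_of_pos h6]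
    simp only [h8]
    rw [← Finset.sum_div]
    have h9 : ∑ l, |u n ω l| = N n ω := by rw [hN]
    rw [h9, div_self h6.ne']
  have h8 : ∑ l, |v0 n ω l| ≤ ∑ l, Kv l n * S.dl ε n := by
    refine Finset.sum_le_sum fun l _ => ?_
    have h9 := h1 l ω hω (h3 l)
    rw [TR.ev_zero, sub_zero, hev] at h9
    exact h9
  rw [h7, ← Finset.sum_mul] at h8
  linarith

end

end Pool.Agent.Helper58.CCZ
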