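import Pool.Agent.Helper58.CCZ.Phi
import Pool.Agent.Helper58.CCZ.Sl
import Pool.Agent.Helper58.CCZ.Tam
import Pool.Agent.Helper58.CCZ.Nd

/-! ZOOM OF THE CLASSES CC, the core: a polynomial whose mixed part is not small, which along a finer leaf is a
polynomial of degree at most `k` in `x_t` up to a small multiple of the mixed part, gives data of degree `k`. -/

set_option autoImplicit false

namespace Pool.Agent.Helper58.CCZ

open Finset Filter Topology Pool.Agent.Helper69.RK Pool.Agent.Helper31.EC Pool.Agent.Helper31.EC.Sp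
open Pool.Agent.Helper31.EC.QS Pool.Agent.Helper40.EL Pool.Agent.Helper84.MT Pool.Agent.Helper36.AM
open Pool.Agent.Helper75.CC Pool.Agent.Helper77.WDG Pool.Agent.Helper3.LF

noncomputable section

variable {S : Sp} {M : ℕ} {E : ℕ → ℕ} {ι : Type}

/-- a coordinate which is close to a full coordinate is full -/
theorem real_of_close {Q X : S.VV M} {t : Fin M} {L : ∀ n, Setoid (S.F n).Ω}
    (h1 : Tendsto (fun n => h (fc (Setoid.ker ((Q.co t).cellv 1 n))) (fc (L n)) / (S.F n).n) UF (𝓝 1))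
    (hX : ∃ K : ℕ → ℝ, S.Sub K ∧ ∀ᶠ n in UF, ∀ ω, (S.F n).μ ω ≠ 0 → ∀ j, |Q.v n ω j - X.v n ω j| ≤ K n * S.dl 1 n) :
    Tendsto (fun n => h (fc (Setoid.ker ((X.co t).cellv 1 n))) (fc (L n)) / (S.F n).n) UF (𝓝 1) := by
  obtain ⟨K, hK, hX⟩ := hX
  have h4 : PLe (fun n => fc (Setoid.ker ((Q.co t).cellv 1 n))) (fun n => fc (Setoid.ker ((X.co t).cellv 1 n))) := by
    refine PLe_cell (Q.co t) 1 _ (fun n => 2 * K n + 1)
      (((S.Sub_const (by norm_num : (0 : ℝ) ≤ 2)).mul hK).add (S.Sub_const zero_le_one)) ?_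
    filter_upwards [hX] with n hn ω ω' a b _ hB i
    have c1 := hn ω a t
    have c2 := hn ω' b t
    have c3 : |X.v n ω t - X.v n ω' t| ≤ S.dl 1 n := (X.co t).cellv_close 1 n ω ω' hB 0
    show |Q.v n ω t - Q.v n ω' t| ≤ _
    have e1 : Q.v n ω t - Q.v n ω' t = (Q.v n ω t - X.v n ω t) - (Q.v n ω' t - X.v n ω' t) +
      (X.v n ω t - X.v n ω' t) := by ring
    rw [e1]
    have a1 := abs_add_le ((Q.v n ω t - X.v n ω t) - (Q.v n ω' t - X.v n ω' t)) (X.v n ω t - X.v n ω' t)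
    have a2 := abs_sub (Q.v n ω t - X.v n ω t) (Q.v n ω' t - X.v n ω' t)
    nlinarith
  have t1 : Tendsto (fun n => h (fc (Setoid.ker ((Q.co t).cellv 1 n))) (fc (L n)) / (S.F n).n -
      h (fc (Setoid.ker ((Q.co t).cellv 1 n))) (fc (Setoid.ker ((X.co t).cellv 1 n))) / (S.F n).n) UF (𝓝 (1 - 0)) :=
    h1.sub h4
  rw [sub_zero] at t1
  rw [Metric.tendsto_nhds]
  intro ε hε
  have h5 := Pool.Agent.Helper84.MT.h_cell_le (X.co t) zero_le_one (fun n => fc (L n)) (ε / 2) (by linarith)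
  filter_upwards [h5, t1.eventually (lt_mem_nhds (show 1 - ε < 1 by linarith))] with n a b
  rw [Nat.cast_one, mul_one] at a
  rw [Real.dist_eq, abs_lt]
  constructor
  · have k1 := h_triangle (fc (Setoid.ker ((Q.co t).cellv 1 n))) (fc (Setoid.ker ((X.co t).cellv 1 n))) (fc (L n))
    have k2 : h (fc (Setoid.ker ((Q.co t).cellv 1 n))) (fc (Setoid.ker ((X.co t).cellv 1 n)) ⊔ fc (L n)) ≤
        h (fc (Setoid.ker ((Q.co t).cellv 1 n))) (fc (Setoid.ker ((X.co t).cellv 1 n))) := h_anti le_sup_left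
    rw [← sub_div] at b
    have g4 : (h (fc (Setoid.ker ((Q.co t).cellv 1 n))) (fc (L n)) -
        h (fc (Setoid.ker ((Q.co t).cellv 1 n))) (fc (Setoid.ker ((X.co t).cellv 1 n)))) / (S.F n).n ≤
        h (fc (Setoid.ker ((X.co t).cellv 1 n))) (fc (L n)) / (S.F n).n :=
      div_le_div_of_nonneg_right (by linarith) (S.F n).pos.le
    linarith
  · linarith

/-- THE CORE -/
theorem core {k D : ℕ} {t : Fin M} {w : Fin M → ℝ} {W : ℝ} {s : MSys S M E ι} {i : ι}
    {L W0 : ∀ n, Setoid (S.F n).Ω} (hkD : k ≤ D) (hsl : SL s i t L) (hLW : ∀ n, L n ≤ W0 n)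
    (nW : Nul S (fun n => H (fc (W0 n) : FL (S.F n)))) (X : S.VV M)
    (hX : ∃ K : ℕ → ℝ, S.Sub K ∧ ∀ᶠ n in UF, ∀ ω, (S.F n).μ ω ≠ 0 → ∀ j, |s.Q.v n ω j - X.v n ω j| ≤ K n * S.dl 1 n)
    (F : ∀ n, (S.F n).Ω → MvPolynomial (Fin M) ℝ)
    (fF : ∀ᶠ n in UF, ∀ ω ω', (S.F n).μ ω ≠ 0 → (S.F n).μ ω' ≠ 0 → (S.F n).Z ω ω' → W0 n ω ω' → F n ω = F n ω')
    (wF : ∀ᶠ n in UF, ∀ ω, (S.F n).μ ω ≠ 0 → ∀ m ∈ (F n ω).support, ∑ j, (m j : ℝ) * w j ≤ W)
    (dF : ∀ᶠ n in UF, ∀ ω, (S.F n).μ ω ≠ 0 → (F n ω).totalDegree ≤ D)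
    (b : ∀ n, (S.F n).Ω → ℕ → ℝ)
    (fb : ∀ᶠ n in UF, ∀ ω ω', (S.F n).μ ω ≠ 0 → (S.F n).μ ω' ≠ 0 → (S.F n).Z ω ω' → L n ω ω' → b n ω = b n ω')
    (b0 : ∀ n ω l, k < l → b n ω l = 0)
    (hr : ∀ ε : ℝ, 0 < ε → S.Typ fun n ω => 0 < nrm (mx t (F n ω)) ∧
      |MvPolynomial.eval (X.v n ω) (F n ω) - ∑ l ∈ range (D + 1), b n ω l * X.v n ω t ^ l| ≤
        nrm (mx t (F n ω)) * S.dl (1 - ε) n) : Nonempty (Dt k t w W s) := by
  classical
  obtain ⟨lam, hlam⟩ : ∃ lam : ∀ n, (S.F n).Ω → ℝ, lam = fun n ω => nrm (mx t (F n ω)) := ⟨_, rfl⟩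
  obtain ⟨u, hu⟩ : ∃ u : ∀ n, (S.F n).Ω → ℕ → ℝ, u = fun n ω l =>
    (b n ω l - (F n ω).coeff (Finsupp.single t l)) / nrm (mx t (F n ω)) := ⟨_, rfl⟩
  obtain ⟨KX, hKX, hXb⟩ := X.bd
  have hreal := real_of_close hsl.real hX
  have fu : ∀ᶠ n in UF, ∀ ω ω', (S.F n).μ ω ≠ 0 → (S.F n).μ ω' ≠ 0 → (S.F n).Z ω ω' → L n ω ω' → u n ω = u n ω' := by
    filter_upwards [fF, fb] with n h1 h2 ω ω' c d e g
    rw [hu]
    beta_reduce
    rw [h1 ω ω' c d e (hLW n g), h2 ω ω' c d e g]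
  have hv : ∃ K : ℕ → ℝ, S.Sub K ∧ S.Typ fun n ω => |∑ l : Fin (D + 1), u n ω l * (X.co t).v n ω 0 ^ (l : ℕ)| ≤ K n := by
    refine ⟨fun n => 1 + (KX n + 1) ^ D, (S.Sub_const zero_le_one).add (Pool.Agent.Helper80.LF.Sub_pow
      (hKX.add (S.Sub_const zero_le_one)) D), (hr 1 one_pos).mono ?_⟩
    filter_upwards [hXb, dF, hKX.1] with n h1 h2 h3 ω hω h4
    have h5 : ∑ l : Fin (D + 1), u n ω l * (X.co t).v n ω 0 ^ (l : ℕ) = ∑ l ∈ range (D + 1), u n ω l * X.v n ω t ^ l :=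
      Fin.sum_univ_eq_sum_range (fun l => u n ω l * X.v n ω t ^ l) (D + 1)
    have h6 : ∑ l ∈ range (D + 1), u n ω l * X.v n ω t ^ l = (nrm (mx t (F n ω)))⁻¹ *
        (MvPolynomial.eval (X.v n ω) (mx t (F n ω)) - (MvPolynomial.eval (X.v n ω) (F n ω) -
          ∑ l ∈ range (D + 1), b n ω l * X.v n ω t ^ l)) := by
      have h7 : MvPolynomial.eval (X.v n ω) (F n ω) = MvPolynomial.eval (X.v n ω) (mx t (F n ω)) +
          ∑ l ∈ range (D + 1), (F n ω).coeff (Finsupp.single t l) * X.v n ω t ^ l := by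
        rw [← eval_pp (h2 ω hω), ← map_add, mx_add_pp]
      rw [h7, hu]
      beta_reduce
      have h8 : ∑ l ∈ range (D + 1), (b n ω l - (F n ω).coeff (Finsupp.single t l)) / nrm (mx t (F n ω)) *
          X.v n ω t ^ l = (nrm (mx t (F n ω)))⁻¹ * (∑ l ∈ range (D + 1), b n ω l * X.v n ω t ^ l -
            ∑ l ∈ range (D + 1), (F n ω).coeff (Finsupp.single t l) * X.v n ω t ^ l) := by
        rw [← Finset.sum_sub_distrib, Finset.mul_sum]
        refine Finset.sum_congr rfl fun l _ => ?_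
        rw [div_eq_mul_inv]
        ring
      rw [h8]
      ring
    rw [h5, h6, abs_mul, abs_of_pos (inv_pos.mpr h4.1), inv_mul_le_iff₀ h4.1]
    have h9 : |MvPolynomial.eval (X.v n ω) (mx t (F n ω))| ≤ nrm (mx t (F n ω)) * (KX n + 1) ^ D :=
      eval_le_nrm (by linarith) (totalDegree_cut.trans (h2 ω hω)) fun i _ => (h1 ω hω i).trans (by linarith)
    have h10 := h4.2
    have e1 : S.dl (1 - 1) n = 1 := by
      unfold Sp.dl
      rw [sub_self, zero_mul, neg_zero, Real.rpow_zero]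
    rw [e1] at h10
    refine (abs_sub _ _).trans ?_
    rw [mul_add]
    linarith
  obtain ⟨K2, hK2, hT2⟩ := tame_coeff (X.co t) (D := D) hreal (fun n ω l => u n ω l) (by
    filter_upwards [fu] with n h1 ω ω' c d e g
    rw [h1 ω ω' c d e g]) hv
  -- the cut off
  obtain ⟨cu, hcu⟩ : ∃ cu : ∀ n, (S.F n).Ω → ℕ → ℝ, cu = fun n ω l =>
    if |u n ω l| ≤ K2 n then u n ω l else 0 := ⟨_, rfl⟩
  have hcu1 : ∀ᶠ n in UF, ∀ ω l, |cu n ω l| ≤ K2 n := by
    filter_upwards [hK2.1] with n h1 ω l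
    rw [hcu]
    beta_reduce
    split_ifs with h2
    · exact h2
    · rw [abs_zero]
      exact h1
  have hcu2 : S.Typ fun n ω => ∀ l, l ≤ D → cu n ω l = u n ω l := by
    refine hT2.mono (Eventually.of_forall fun n ω _ h1 l hl => ?_)
    rw [hcu]
    beta_reduce
    rw [if_pos]
    have h2 := Finset.single_le_sum (f := fun l : Fin (D + 1) => |u n ω l|) (fun _ _ => abs_nonneg _)
      (Finset.mem_univ (⟨l, by omega⟩ : Fin (D + 1)))
    exact h2.trans h1
  refine ⟨⟨i, L, W0, fun n ω l => cu n ω l, fun n ω => ph t D k (F n ω) (fun l => if k < l then cu n ω l else 0), hsl,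
    ?_, ⟨K2, hK2, ?_⟩, nW, ?_, ?_, ⟨fun n => K2 n + 1, hK2.add (S.Sub_const zero_le_one), ?_⟩, ?_, ?_⟩⟩
  · filter_upwards [fu] with n h1 ω ω' c d e g
    rw [hcu]
    beta_reduce
    rw [h1 ω ω' c d e g]
  · filter_upwards [hcu1] with n h1 ω _ l
    exact h1 ω l
  · filter_upwards [fF] with n h1 ω ω' c d e g
    have h2 := h1 ω ω' c d e g
    have h3 : (fun l => if k < l then cu n ω l else 0) = fun l => if k < l then cu n ω' l else 0 := by
      funext l
      split_ifs with h4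
      · rw [hcu, hu]
        beta_reduce
        rw [b0 n ω l h4, b0 n ω' l h4, h2]
      · rfl
    rw [h2, h3]
  · filter_upwards [wF] with n h1 ω hω m hm
    refine h1 ω hω m (ph_supp (fun l hl hkl => ?_) hm)
    rw [if_pos hkl, hcu, hu]
    beta_reduce
    rw [b0 n ω l hkl, hl, sub_zero, zero_div, abs_zero]
    exact ite_self _
  · filter_upwards [hcu1, hK2.1] with n h1 h2 ω _ m
    refine ph_le (by linarith) (fun l => ?_) m
    split_ifs
    · exact (h1 ω l).trans (by linarith)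
    · rw [abs_zero]
      linarith
  · refine ⟨fun _ => ((D : ℝ) + 1) ^ M, S.Sub_const (by positivity), (hr 1 one_pos).mono ?_⟩
    filter_upwards [dF] with n h1 ω hω h2
    exact ph_nd (h1 ω hω) h2.1
  · obtain ⟨K, hK, hQX⟩ := hX
    obtain ⟨KQ, hKQ, hQb⟩ := s.Q.bd
    have hlev : ∀ e : ℝ, 0 < e → S.Typ fun n ω => |MvPolynomial.eval (s.Q.v n ω) (ph t D k (F n ω)
        (fun l => if k < l then cu n ω l else 0)) - ∑ l : Fin (k + 1), cu n ω l * s.Q.v n ω t ^ (l : ℕ)| / S.dl 1 n ≤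
        2 ^ (e * (S.F n).n) := by
      intro e he
      have hKs : S.Sub fun n => 1 + ((D : ℝ) + 1) ^ M * (2 * (K2 n + 1)) * (D * (KX n + KQ n + 1) ^ D * K n) :=
        (S.Sub_const zero_le_one).add (((S.Sub_const (by positivity)).mul ((S.Sub_const (by norm_num)).mul
          (hK2.add (S.Sub_const zero_le_one)))).mul (((S.Sub_const (by positivity)).mul
            (Pool.Agent.Helper80.LF.Sub_pow ((hKX.add hKQ).add (S.Sub_const zero_le_one)) D)).mul hK))
      refine ((hr (e / 2) (half_pos he)).and hcu2).mono ?_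
      filter_upwards [hQX, hQb, hXb, dF, hcu1, hK2.1, hKX.1, hKQ.1, hKs.eventually_le (half_pos he), hK.1] with
        n h1 h2 h3 h4 h5 h6 h7 h8 h9 h9' ω hω h10
      obtain ⟨⟨h11, h12⟩, h13⟩ := h10
      have e1 : ∀ x : Fin M → ℝ, MvPolynomial.eval x (ph t D k (F n ω) (fun l => if k < l then cu n ω l else 0)) -
          ∑ l : Fin (k + 1), cu n ω l * x t ^ (l : ℕ) = MvPolynomial.eval x (gph t D k (F n ω)
            (fun l => if k < l then cu n ω l else 0) (cu n ω)) := by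
        intro x
        rw [eval_gph, ← Fin.sum_univ_eq_sum_range (fun l => cu n ω l * x t ^ l) (k + 1)]
      have e2 : MvPolynomial.eval (X.v n ω) (gph t D k (F n ω) (fun l => if k < l then cu n ω l else 0) (cu n ω)) =
          (nrm (mx t (F n ω)))⁻¹ * (MvPolynomial.eval (X.v n ω) (F n ω) -
            ∑ l ∈ range (D + 1), b n ω l * X.v n ω t ^ l) := by
        rw [← ph_id hkD (h4 ω hω), eval_gph, eval_ph, eval_ph]
        congr 1
        · congr 1
          refine Finset.sum_congr rfl fun l hl => ?_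
          have h14 := Finset.mem_filter.1 hl
          have h15 := Finset.mem_range.1 h14.1
          rw [if_pos h14.2, h13 l (by omega), hu]
        · refine Finset.sum_congr rfl fun l hl => ?_
          have h15 := Finset.mem_range.1 hl
          rw [h13 l (by omega), hu]
      rw [e1]
      have g1 := gph_close (t := t) (F := F n ω) hkD (h4 ω hω) (B := K2 n + 1) (by linarith)
        (c := fun l => if k < l then cu n ω l else 0) (a := cu n ω) (fun l => by
          split_ifs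
          · exact (h5 ω l).trans (by linarith)
          · rw [abs_zero]
            linarith) (fun l => (h5 ω l).trans (by linarith)) (T := KX n + KQ n + 1) (δ := K n * S.dl 1 n) (by linarith)
        (mul_nonneg h9' (S.dl_pos 1 n).le) (x := s.Q.v n ω) (y := X.v n ω) (fun i => (h2 ω hω i).trans (by linarith))
        (fun i => (h3 ω hω i).trans (by linarith)) (h1 ω hω)
      have g2 : |MvPolynomial.eval (X.v n ω) (gph t D k (F n ω) (fun l => if k < l then cu n ω l else 0) (cu n ω))| ≤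
          S.dl (1 - e / 2) n := by
        rw [e2, abs_mul, abs_of_pos (inv_pos.mpr h11), inv_mul_le_iff₀ h11]
        exact h12
      rw [div_le_iff₀ (S.dl_pos 1 n)]
      have e3 : S.dl (1 - e / 2) n = 2 ^ (e / 2 * (S.F n).n) * S.dl 1 n := by
        unfold Sp.dl
        rw [← Real.rpow_add (by norm_num)]
        congr 1
        ring
      have e4 : (2 : ℝ) ^ (e * (S.F n).n) = 2 ^ (e / 2 * (S.F n).n) * 2 ^ (e / 2 * (S.F n).n) := by
        rw [← Real.rpow_add (by norm_num)]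
        congr 1
        ring
      have hd := S.dl_pos 1 n
      have h16 : (0 : ℝ) < 2 ^ (e / 2 * (S.F n).n) := by positivity
      have g3 := abs_sub_abs_le_abs_sub (MvPolynomial.eval (s.Q.v n ω) (gph t D k (F n ω)
        (fun l => if k < l then cu n ω l else 0) (cu n ω))) (MvPolynomial.eval (X.v n ω) (gph t D k (F n ω)
        (fun l => if k < l then cu n ω l else 0) (cu n ω)))
      rw [e3] at g2
      obtain ⟨q, hq⟩ : ∃ q : ℝ, q = 2 ^ (e / 2 * (S.F n).n) := ⟨_, rfl⟩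
      obtain ⟨C, hC⟩ : ∃ C : ℝ, C = ((D : ℝ) + 1) ^ M * (2 * (K2 n + 1)) * (D * (KX n + KQ n + 1) ^ D * K n) := ⟨_, rfl⟩
      have g4 : ((D : ℝ) + 1) ^ M * (2 * (K2 n + 1)) * (D * (KX n + KQ n + 1) ^ D * (K n * S.dl 1 n)) =
          C * S.dl 1 n := by
        rw [hC]
        ring
      rw [g4] at g1
      rw [← hC, ← hq] at h9
      rw [← hq] at g2 h16
      rw [e4, ← hq]
      have g5 : |MvPolynomial.eval (s.Q.v n ω) (gph t D k (F n ω) (fun l => if k < l then cu n ω l else 0) (cu n ω))| ≤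
          (q + C) * S.dl 1 n := by
        rw [add_mul]
        linarith
      refine g5.trans ?_
      apply mul_le_mul_of_nonneg_right _ hd.le
      have hC0 : 0 ≤ C := by
        rw [hC]
        positivity
      nlinarith
    obtain ⟨K', hK', hT'⟩ := typ_sub_le _ hlev
    refine ⟨K', hK', hT'.mono (Eventually.of_forall fun n ω _ h1 => ?_)⟩
    rw [div_le_iff₀ (S.dl_pos 1 n)] at h1
    exact h1

end

end Pool.Agent.Helper58.CCZ
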