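import Pool.Agent.Helper58.CCZ.Der
import Pool.Agent.Helper75.CC.Dg

/-! THE CLASS CC WITH A DERIVATIVE WHICH IS NOT SMALL: diagonals; the auxiliary classes of the row okC. -/

set_option autoImplicit false

namespace Pool.Agent.Helper58.CCZ

open Finset Filter Topology Pool.Agent.Helper69.RK Pool.Agent.Helper31.EC Pool.Agent.Helper31.EC.Sp
open Pool.Agent.Helper40.EL Pool.Agent.Helper89.LX Pool.Agent.Helper3.LF Pool.Agent.Helper84.MT Pool.Agent.Helper36.AM
open Pool.Agent.Helper49.MD Pool.Agent.Helper26.OUT Pool.Agent.Helper75.CC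
open Pool.Agent.Helper29.MX (OkA Ocl Cv Stb rbot)

noncomputable section

variable {S T : Sp} {M : ℕ} {E : ℕ → ℕ} {ι κ : Type}

/-- the data with (der), up to `δ` -/
structure DtE (G : MvPolynomial (Fin M) ℝ → Prop) (k : ℕ) (t : Fin M) (F : FSp) (x : FMs F.Ω M ι)
    (y : Dat F.Ω M ι k) (δ : ℝ) : Prop extends DtB G k t F x y δ where
  dr : mass (res F.μ fun ω => ¬ ∃ i, i ≠ t ∧
    1 ≤ y.K * |MvPolynomial.eval (x.Q ω) (MvPolynomial.pderiv i (y.Φ ω))|) ≤ δ

/-- the data with (der) as an approximate predicate -/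
def dtE (G : MvPolynomial (Fin M) ℝ → Prop) (k : ℕ) (t : Fin M) (ι : Type) : AP (KM M ι) where
  P := fun F x δ => ∃ y : Dat F.Ω M ι k, DtE G k t F x y δ
  mono := fun _ _ _ _ h hx => hx.imp fun _ hy => ⟨hy.toDtB.mono h, hy.dr.trans h⟩

variable {k : ℕ} {t u : Fin M} {w : Fin M → ℝ} {W : ℝ} {s : MSys S M E ι}

/-- data with (der) and a condition on the polynomial -/
def DGe (G : MvPolynomial (Fin M) ℝ → Prop) (k : ℕ) (t : Fin M) (s : MSys S M E ι) : Prop :=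
  ∃ d : Dt k t (fun _ => 0) 0 s, Der d ∧ ∀ᶠ n in UF, ∀ ω, (S.F n).μ ω ≠ 0 → G (d.Φ n ω)

theorem DGe_pd [Finite ι] {G : MvPolynomial (Fin M) ℝ → Prop} : DGe G k t s ↔ (dtE G k t ι).pd 0 S (ob s) := by
  classical
  constructor
  · rintro ⟨d, ⟨Kr, hKr, hr⟩, hG⟩ δ hδ
    obtain ⟨Ka, hKa, ha⟩ := d.ba
    obtain ⟨Kf, hKf, hf⟩ := d.bΦ
    obtain ⟨Kn, hKn, hn⟩ := d.nd
    obtain ⟨Ke, hKe, he⟩ := d.eq
    have hK : S.Sub (fun n => Ka n + Kf n + Kn n + Ke n + Kr n) := (((hKa.add hKf).add hKn).add hKe).add hKr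
    have hwin : ∀ᶠ n in UF, ∀ N ∈ Finset.range (⌊1 / δ⌋₊ + 1), ∀ m ∈ Finset.range (N + 1), 0 < N →
        Helper31.EC.h ((s.lf d.i).win ((m : ℝ) / N) n) (sw s.Q t d.L ((m : ℝ) / N) n) / (S.F n).n ≤ δ := by
      rw [Filter.eventually_all_finset]
      intro N _
      rw [Filter.eventually_all_finset]
      intro m hm
      rcases Nat.eq_zero_or_pos N with h0 | h0
      · exact Eventually.of_forall fun n h1 => absurd h1 (by omega)
      · have hN : (0 : ℝ) < N := by exact_mod_cast h0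
        have hm' : (m : ℝ) ≤ N := by
          rw [Finset.mem_range] at hm
          exact_mod_cast Nat.lt_succ_iff.mp hm
        have h1 := d.sl.win ((m : ℝ) / N) (by positivity) ((div_le_one hN).mpr hm')
        filter_upwards [h1.eventually (gt_mem_nhds hδ)] with n h2 _
        exact h2.le
    filter_upwards [Sub.tmc hK hδ, hwin, d.sl.real.eventually (lt_mem_nhds (show 1 - δ < (1 : ℝ) by linarith)), d.fa,
      ha, hKa.1, hKf.1, hKn.1, hKe.1, d.nW.eventually (gt_mem_nhds hδ), d.fΦ, hG, hf,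
      hn.eventually (gt_mem_nhds hδ), he.eventually (gt_mem_nhds hδ), hKr.1, hr.eventually (gt_mem_nhds hδ)] with
      n a1 a2 a3 a4 a5 b1 b2 b3 b4 a6 a7 a8 a9 a10 a11 b5 a12
    refine ⟨⟨d.i, d.L n, d.W0 n, d.a n, d.Φ n, Ka n + Kf n + Kn n + Ke n + Kr n⟩, ⟨a1, ?_, a3.le, a4, ?_, a6.le, a7,
      a8, ?_, ?_, ?_⟩, ?_⟩
    · intro N m h1 h2 h3
      refine a2 N ?_ m (Finset.mem_range.mpr (by omega)) h1
      rw [Finset.mem_range, Nat.lt_succ_iff]
      apply Nat.le_floor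
      rw [le_div_iff₀ hδ]
      exact h3
    · intro ω hω l
      exact (a5 ω hω l).trans (by linarith)
    · intro ω hω m
      exact (a9 ω hω m).trans (by linarith)
    · refine (mass_res_mono _ _ _ (S.F n).nn fun ω _ h1 h2 => h1 ?_).trans a10.le
      obtain ⟨m, j, h3, h4, h5⟩ := h2
      refine ⟨m, j, h3, h4, h5.trans ?_⟩
      exact mul_le_mul_of_nonneg_right (by linarith) (abs_nonneg _)
    · refine (mass_res_mono _ _ _ (S.F n).nn fun ω _ h1 h2 => h1 ?_).trans a11.le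
      refine h2.trans ?_
      exact mul_le_mul_of_nonneg_right (by linarith) (S.dl_pos 1 n).le
    · refine (mass_res_mono _ _ _ (S.F n).nn fun ω _ h1 h2 => h1 ?_).trans a12.le
      obtain ⟨i, h3, h4⟩ := h2
      refine ⟨i, h3, h4.trans ?_⟩
      exact mul_le_mul_of_nonneg_right (by linarith) (abs_nonneg _)
  · intro h
    obtain ⟨n0, y0, _⟩ := (h 1 one_pos).exists
    have : ∀ n, Nonempty (Dat (S.F n).Ω M ι k) := fun n => ⟨⟨y0.i, ⊤, ⊤, fun _ _ => 0, fun _ => 0, 0⟩⟩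
    obtain ⟨y, hy⟩ := dia_ex (fun n (y : Dat (S.F n).Ω M ι k) δ => DtE G k t (S.F n) (ob s n) y δ)
      (fun _ _ _ _ h1 h2 => ⟨h2.toDtB.mono h1, h2.dr.trans h1⟩) h
    obtain ⟨i, hi⟩ := exists_const_fin fun n => (y n).i
    have h1 := hy 1 one_pos
    have hK : S.Sub fun n => (y n).K := by
      refine ⟨h1.mono fun n hn => hn.tm.1, ?_⟩
      rw [Metric.tendsto_nhds]
      intro ε hε
      filter_upwards [hy (ε / 2) (by linarith)] with n hn
      rw [Real.dist_eq, sub_zero, abs_of_nonneg (div_nonneg (Real.logb_nonneg (by norm_num) (by linarith [hn.tm.1]))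
        (S.F n).pos.le)]
      linarith [hn.tm.2]
    refine ⟨⟨i, fun n => (y n).L, fun n => (y n).W0, fun n => (y n).a, fun n => (y n).Φ, ⟨?_, ?_⟩, h1.mono fun n hn => hn.fa,
      ⟨_, hK, h1.mono fun n hn => hn.ba⟩, ?_, h1.mono fun n hn => hn.fΦ, ?_, ⟨_, hK, h1.mono fun n hn => hn.bΦ⟩,
      ⟨_, hK, ?_⟩, ⟨_, hK, ?_⟩⟩, ⟨_, hK, ?_⟩, h1.mono fun n hn => hn.gd⟩
    · refine win_of_grid fun δ hδ N m h2 h3 h4 => ?_
      filter_upwards [hy δ hδ, hi] with n hn hi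
      have h5 := hn.win N m h2 h3 h4
      rw [hi] at h5
      exact h5
    · rw [Metric.tendsto_nhds]
      intro ε hε
      have h2 := h_cell_le (s.Q.co t) zero_le_one (fun n => fc (y n).L) (ε / 2) (by linarith)
      filter_upwards [hy (ε / 2) (by linarith), h2] with n hn h3
      have h4 : 1 - ε / 2 ≤ Helper31.EC.h (fc (Setoid.ker ((s.Q.co t).cellv 1 n))) (fc (y n).L) / (S.F n).n := hn.real
      rw [Real.dist_eq, abs_lt]
      rw [Nat.cast_one, mul_one] at h3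
      constructor <;> linarith
    · unfold Nul
      rw [Metric.tendsto_nhds]
      intro ε hε
      filter_upwards [hy (ε / 2) (by linarith)] with n hn
      rw [Real.dist_eq, sub_zero, abs_of_nonneg (div_nonneg (H_nonneg _) (S.F n).pos.le)]
      linarith [hn.nW]
    · refine Eventually.of_forall fun n ω _ m _ => ?_
      simp
    · unfold Sp.Typ
      rw [Metric.tendsto_nhds]
      intro ε hε
      filter_upwards [hy (ε / 2) (by linarith)] with n hn
      rw [Real.dist_eq, sub_zero, abs_of_nonneg (mass_res_nonneg n _)]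
      linarith [hn.nd]
    · unfold Sp.Typ
      rw [Metric.tendsto_nhds]
      intro ε hε
      filter_upwards [hy (ε / 2) (by linarith)] with n hn
      rw [Real.dist_eq, sub_zero, abs_of_nonneg (mass_res_nonneg n _)]
      exact lt_of_le_of_lt hn.eq (by linarith)
    · unfold Sp.Typ
      rw [Metric.tendsto_nhds]
      intro ε hε
      filter_upwards [hy (ε / 2) (by linarith)] with n hn
      rw [Real.dist_eq, sub_zero, abs_of_nonneg (mass_res_nonneg n _)]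
      exact lt_of_le_of_lt hn.dr (by linarith)

theorem DD_iff : DD k t w W s ↔ DGe (fun Φ => ∀ m ∈ Φ.support, ∑ j, (m j : ℝ) * w j ≤ W) k t s := by
  constructor
  · rintro ⟨d, h⟩
    exact ⟨d.chw (Eventually.of_forall fun n ω _ m _ => by simp), h, d.wd⟩
  · rintro ⟨d, h, hG⟩
    exact ⟨d.chw hG, h⟩

/-- DIAGONALS of classes with data and (der) -/
theorem DiagCl.dge [Finite ι] {G : MvPolynomial (Fin M) ℝ → Prop} {C : ∀ S : Sp, MSys S M E ι → Prop}
    (hC : DiagCl (lft C)) : DiagCl (lft fun S s => C S s ∧ DGe G k t s) :=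
  (DiagCl.lft_and hC ((dtE G k t ι).inv 0) ((dtE G k t ι).diagCl 0)).mono
    (fun _ _ _ h => (lft_congr fun _ _ => and_congr_right fun _ => DGe_pd).mp h)
    (fun _ _ h => (lft_congr fun _ _ => and_congr_right fun _ => DGe_pd).mpr h)

theorem DiagCl.dd [Finite ι] {C : ∀ S : Sp, MSys S M E ι → Prop} (hC : DiagCl (lft C)) (k : ℕ) (t : Fin M)
    (w : Fin M → ℝ) (W : ℝ) : DiagCl (lft fun S s => C S s ∧ DD k t w W s) :=
  (DiagCl.dge hC).mono
    (fun _ _ _ h => (lft_congr fun _ _ => and_congr_right fun _ => DD_iff).mp h)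
    (fun _ _ h => (lft_congr fun _ _ => and_congr_right fun _ => DD_iff).mpr h)

/-! ### the auxiliary classes -/

/-- the classes `D' w m` -/
def DC0 (M k : ℕ) (w : Fin (M + 2) → ℝ) (_ : ℕ) : MCl (M + 2) := fun _ _ _ s =>
  (∀ j, 1 ≤ w j) ∧ w 0 = 1 ∧ DD k 0 w (w (Fin.last (M + 1))) s

theorem DC0_dg (M k : ℕ) (w : Fin (M + 2) → ℝ) (m g r : ℕ) :
    DiagCl (lft fun S (s : MSys S (M + 2) (lin g) (Fin r)) => DC0 M k w m S g r s) := by
  by_cases hw : (∀ j, 1 ≤ w j) ∧ w 0 = 1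
  · refine (DiagCl.dd (Pool.Agent.Helper21.MX.dg_top (M := M + 2) (E := lin g) (ι := Fin r)) k 0 w
      (w (Fin.last (M + 1)))).mono ?_ ?_
    · rintro _ S x ⟨s, hs, h⟩
      exact ⟨s, hs, trivial, h.2.2⟩
    · rintro S x ⟨s, hs, _, h⟩
      exact ⟨s, hs, hw.1, hw.2, h⟩
  · intro S x hx
    obtain ⟨s, _, h⟩ := hx 0
    exact absurd ⟨h.1, h.2.1⟩ hw

theorem DD.chw (h : DD k t w W s) {w' : Fin M → ℝ} (hw : ∀ j, w' j ≤ w j) : DD k t w' W s := by
  obtain ⟨d, h⟩ := h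
  refine ⟨d.chw ?_, h⟩
  filter_upwards [d.wd] with n hn ω hω m hm
  refine (Finset.sum_le_sum fun j _ => ?_).trans (hn ω hω m hm)
  exact mul_le_mul_of_nonneg_left (hw j) (Nat.cast_nonneg _)

theorem ocl_cc0 (M k : ℕ) (w : Fin (M + 2) → ℝ) (m : ℕ) : Ocl (M + 2) (CC0 (M + 2) k) (DC0 M k w m) where
  le := fun S g r s h => ⟨0, w (Fin.last (M + 1)), rfl, h.2.2.chw h.1⟩
  im := fun S g r s h T p A hA => ⟨h.1, h.2.1, h.2.2.im p A hA⟩
  pull := fun S g r s h T p => ⟨h.1, h.2.1, h.2.2.pull p⟩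
  trn := fun S g r s h e he h1 => ⟨h.1, h.2.1, h.2.2.trn he h1⟩
  dg := fun g r => DC0_dg M k w m g r

/-- THE FIELD `aux` of the row okC, from the structure theorem for `CC0` (helper40) -/
theorem aux_cc (M k : ℕ) (hsto : ∀ v, STO (M + 2) (Cv (CL (M + 2) k) v) → STO (M + 2) (Cv (CC0 (M + 2) k) v)) :
    ∃ (A' : MCl (M + 2)) (D' : (Fin (M + 2) → ℝ) → ℕ → MCl (M + 2)), OkA (M + 2) A' ∧
      (∀ w m, Ocl (M + 2) A' (D' w m)) ∧ (∀ w m S g r s, D' w m S g r s → DC M k w m S g r s) ∧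
      (∀ w m S g r s, DC M k w m S g r s → Stb 0 s (rbot S) → D' w m S g r s) ∧
      ∀ v, STO (M + 2) (Cv (CL (M + 2) k) v) → STO (M + 2) (Cv A' v) :=
  ⟨CC0 (M + 2) k, DC0 M k, okA_CC0 (M + 2) k, fun w m => ocl_cc0 M k w m, fun w m S g r s h => by
    obtain ⟨h1, h2, d, _⟩ := h
    exact ⟨h1, h2, 0, rfl, ⟨d⟩⟩, fun w m S g r s h hs => by
    obtain ⟨h1, h2, i, hi, ⟨d⟩⟩ := h
    have : i = 0 := Fin.ext hi
    subst this
    exact ⟨h1, h2, d, der_of_stb d h1 hs⟩, hsto⟩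

end

end Pool.Agent.Helper58.CCZ
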