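import Pool.Agent.Helper58.CCZ.Okd
import Pool.Agent.Helper21.MX.OkT

/-! THE CLASSES `D w m` OF THE ROW okC: data of degree `k` with weights `w`, `w 0 = 1`, of weighted degree at most the
last weight; all fields of `Okd` except the entry `prm`. -/

set_option autoImplicit false

namespace Pool.Agent.Helper58.CCZ

open Finset Filter Topology Pool.Agent.Helper69.RK Pool.Agent.Helper31.EC Pool.Agent.Helper31.EC.Sp
open Pool.Agent.Helper40.EL Pool.Agent.Helper84.MT Pool.Agent.Helper36.AM Pool.Agent.Helper49.MD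
open Pool.Agent.Helper75.CC Pool.Agent.Helper29.MX

noncomputable section

variable {S T : Sp} {M k : ℕ} {E E' : ℕ → ℕ} {ι : Type} {t : Fin M} {w : Fin M → ℝ} {W : ℝ} {s : MSys S M E ι}

/-- the data depend only on the point and on the windows of the types -/
theorem SL.of_win {i : ι} {L : ∀ n, Setoid (S.F n).Ω} (h : SL s i t L) {s' : MSys S M E' ι} (hQ : s'.Q = s.Q)
    (hw : ∀ b : ℝ, 0 ≤ b → b ≤ 1 → PLe ((s'.lf i).win b) ((s.lf i).win b)) : SL s' i t L where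
  win := fun b h0 h1 => (hw b h0 h1).trans (by
    rw [hQ]
    exact h.win b h0 h1)
  real := by
    rw [hQ]
    exact h.real

def Dt.of_win (d : Dt k t w W s) {s' : MSys S M E' ι} (hQ : s'.Q = s.Q)
    (hw : ∀ b : ℝ, 0 ≤ b → b ≤ 1 → PLe ((s'.lf d.i).win b) ((s.lf d.i).win b)) : Dt k t w W s' where
  i := d.i
  L := d.L
  W0 := d.W0
  a := d.a
  Φ := d.Φ
  sl := SL.of_win d.sl hQ hw
  fa := d.fa
  ba := d.ba
  nW := d.nW
  fΦ := d.fΦ
  wd := d.wd
  bΦ := d.bΦ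
  nd := d.nd
  eq := by
    rw [hQ]
    exact d.eq

/-- leaves with the same label and the same parameter have the same windows -/
theorem win_congr {Q Q' : S.VV M} (l : Leaf S Q E) (l' : Leaf S Q' E') (h : l'.e = l.e) (hL : ∀ n, l'.La n = l.La n)
    (hY : ∀ n ω m, l'.Y.v n ω (Fin.cast h.symm m) = l.Y.v n ω m) (b : ℝ) : l'.win b = l.win b := by
  funext n
  show fc (l'.La n ⊓ Setoid.ker (l'.Y.cellv b n)) = fc (l.La n ⊓ Setoid.ker (l.Y.cellv b n))
  rw [hL n]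
  have h1 : Setoid.ker (l'.Y.cellv b n) = Setoid.ker (l.Y.cellv b n) := by
    ext ω ω'
    show (l'.Y.cellv b n ω = l'.Y.cellv b n ω') ↔ (l.Y.cellv b n ω = l.Y.cellv b n ω')
    constructor
    · intro h2
      funext m
      have h3 := congrFun h2 (Fin.cast h.symm m)
      have e1 : ∀ ω, l'.Y.cellv b n ω (Fin.cast h.symm m) = l.Y.cellv b n ω m := fun ω => by
        show ⌊l'.Y.v n ω (Fin.cast h.symm m) / S.dl b n⌋ = ⌊l.Y.v n ω m / S.dl b n⌋
        rw [hY]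
      rw [e1, e1] at h3
      exact h3
    · intro h2
      funext m
      have h3 := congrFun h2 (Fin.cast h m)
      have e1 : ∀ ω, l'.Y.cellv b n ω m = l.Y.cellv b n ω (Fin.cast h m) := fun ω => by
        have h4 : l'.Y.v n ω m = l.Y.v n ω (Fin.cast h m) := hY n ω (Fin.cast h m)
        show ⌊l'.Y.v n ω m / S.dl b n⌋ = ⌊l.Y.v n ω (Fin.cast h m) / S.dl b n⌋
        rw [h4]
      rw [e1, e1]
      exact h3
  rw [h1]

/-- charts may be changed by the finest resolution -/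
theorem Dt.tay (d : Dt k t w W s) {s' : MSys S M E' ι} (h : Tay s s') : Nonempty (Dt k t w W s') := by
  obtain ⟨hQ, h1⟩ := h
  obtain ⟨he, _, _, _, _, _, hL, hY, _⟩ := h1 d.i
  refine ⟨Dt.of_win d hQ fun b _ _ => ?_⟩
  rw [win_congr (s.lf d.i) (s'.lf d.i) he hL hY b]
  exact PLe.refl _

/-! ### the classes -/

/-- THE CLASSES `D w m` -/
def DC (M k : ℕ) (w : Fin (M + 2) → ℝ) (_ : ℕ) : MCl (M + 2) := fun S g r s =>
  (∀ j, 1 ≤ w j) ∧ w 0 = 1 ∧ CCw (M + 2) k w (w (Fin.last (M + 1))) S g r s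

theorem DC_dg (M k : ℕ) (w : Fin (M + 2) → ℝ) (m g r : ℕ) :
    DiagCl (lft fun S (s : MSys S (M + 2) (lin g) (Fin r)) => DC M k w m S g r s) := by
  by_cases hw : (∀ j, 1 ≤ w j) ∧ w 0 = 1
  · refine (DiagCl.ccw (k := k) (w := w) (W := w (Fin.last (M + 1)))
      (Pool.Agent.Helper21.MX.dg_top (M := M + 2) (E := lin g) (ι := Fin r))).mono ?_ ?_
    · rintro _ S x ⟨s, hs, h⟩
      exact ⟨s, hs, trivial, h.2.2⟩
    · rintro S x ⟨s, hs, _, h⟩
      exact ⟨s, hs, hw.1, hw.2, h⟩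
  · intro S x hx
    obtain ⟨s, _, h⟩ := hx 0
    exact absurd ⟨h.1, h.2.1⟩ hw

/-- THE ROW okC, the classes `D w m`: everything but the entry -/
theorem okd_cc (M k : ℕ) (hprm : ∀ (w : Fin (M + 2) → ℝ) (_m : ℕ) S g r (s : MSys S (M + 2) (lin g) (Fin r))
    (σ : Equiv.Perm (Fin (M + 2))), CL (M + 2) k S g r s →
    Stb 0 s (rbot S) → Monotone w → (∀ j, 1 ≤ w j) → (∃ (c : ℝ) (l : Lab S)
      (_ : Frm (Pool.Agent.Helper18.PRM.vcrd σ s.Q) l fun j => w j * c),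
      0 < c ∧ (∀ j, w j * c < 1) ∧ TLb s c l ∧
        ∀ j : Fin (M + 2), (j : ℕ) = 0 → w (σ.symm j) * c = 1 - volP s (rbot S) c (Nat.succ_le_of_lt j.2)) →
    (∀ j : Fin (M + 2), (j : ℕ) = 0 → w (σ.symm j) = 1 → σ j = j) →
      DC M k w _m S g r (Pool.Agent.Helper18.PRM.scrd σ s))
    (haux : ∃ (A' : MCl (M + 2)) (D' : (Fin (M + 2) → ℝ) → ℕ → MCl (M + 2)), OkA (M + 2) A' ∧
      (∀ w m, Ocl (M + 2) A' (D' w m)) ∧ (∀ w m S g r s, D' w m S g r s → DC M k w m S g r s) ∧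
      (∀ w m S g r s, DC M k w m S g r s → Stb 0 s (rbot S) → D' w m S g r s) ∧
      ∀ v, STO (M + 2) (Cv (CL (M + 2) k) v) → STO (M + 2) (Cv A' v)) :
    Okd (M + 2) (CL (M + 2) k) (fun _ => CL (M + 2) k) (CC (M + 2) k) (DC M k) where
  le := fun w m S g r s h => CCw_le_CC h.1 h.2.2
  im := fun w m S g r s h T p A hA => ⟨h.1, h.2.1, by
    obtain ⟨i, hi, ⟨d⟩⟩ := h.2.2
    exact ⟨i, hi, ⟨d.im p A hA⟩⟩⟩
  dg := fun w m g r => DC_dg M k w m g r
  trn := fun w m S g r s h e he h1 => ⟨h.1, h.2.1, by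
    obtain ⟨i, hi, ⟨d⟩⟩ := h.2.2
    exact ⟨i, hi, ⟨d.trn he h1⟩⟩⟩
  zoom := fun w m _ hw S g r s h hst c e he hc hce l f hl g' t hg => ⟨h.1, h.2.1,
    ccw_zoom hw (fun i hi => by
      have : i = 0 := Fin.ext hi
      rw [this]
      exact h.2.1) S g r s h.2.2 hst c e he hc hce l f hl g' t hg.toGz⟩
  tay := fun w m S g r s h g' s' ht => ⟨h.1, h.2.1, by
    obtain ⟨i, hi, ⟨d⟩⟩ := h.2.2
    exact ⟨i, hi, Dt.tay d ht⟩⟩
  aux := haux
  prm := hprm

end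

end Pool.Agent.Helper58.CCZ
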