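import Pool.Agent.Helper58.CCZ.Zoom
import Pool.Agent.Helper29.MX.Bas
import Pool.Agent.Helper75.CC.Dg
import Pool.Agent.Helper5.HB.Lbl

/-! ZOOM OF THE CLASSES CC: the field `Okd.zoom` of the row okC. -/

set_option autoImplicit false

namespace Pool.Agent.Helper58.CCZ

open Finset Filter Topology Pool.Agent.Helper69.RK Pool.Agent.Helper31.EC Pool.Agent.Helper31.EC.Sp
open Pool.Agent.Helper31.EC.QS Pool.Agent.Helper40.EL Pool.Agent.Helper84.MT Pool.Agent.Helper36.AM
open Pool.Agent.Helper75.CC Pool.Agent.Helper5.DO Pool.Agent.Helper5.HB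
open Pool.Agent.Helper29.MX (Rsl rbot TLb Stb AllE volKO volKO_le_of kad_bot)
open Pool.Agent.Helper3.LF (Mon)

noncomputable section

variable {S : Sp} {M : ℕ} {E E' : ℕ → ℕ} {ι : Type}

/-- the space as an extension of its restriction to the sure event -/
def pTrue (S : Sp) : Pj S (Sp.im (Pj.id S) fun _ _ => True) where
  π := fun _ ω => ω
  law := by
    intro k
    have h1 : (S.F k).pb (fun _ => True) = 1 := by
      have h2 : res (S.F k).μ (fun _ => True) = (S.F k).μ := by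
        funext ω
        exact res_pos _ _ ω trivial
      show mass (res (S.F k).μ fun _ => True) = 1
      rw [h2]
      exact (S.F k).ms
    have h3 : (S.F k).restμ (fun _ => True) = (S.F k).μ := by
      rw [(S.F k).restμ_eq _ (by rw [h1]; exact one_ne_zero), h1]
      funext ω
      rw [inv_one, one_mul]
      exact res_pos _ _ ω trivial
    show push (fun ω => ω) (S.F k).μ = push (fun ω => ω) ((S.F k).restμ fun _ => True)
    rw [h3]
  hZ := fun _ _ _ _ _ => Iff.rfl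
  hn := fun _ => rfl

/-- systems without hulls of type-labels: no relations on all events -/
theorem nr_of_stb [Finite ι] {s : MSys S M E ι} (hs : Stb 0 s (rbot S)) (D : ℕ) (A : ∀ n, (S.F n).Ω → Prop)
    (hA : 0 < ul (S.pr A)) (r : ℝ) (h0 : 0 < r) (h1 : r ≤ 1) : NR D (cq (s.Q.rest A)) (⊥ : (S.rest A).L) r := by
  have hT : 0 < ul (S.pr fun _ _ => True) := ul_pr_typ_pos _ Typ_true
  have h2 := hs S (Pj.id S) (fun _ _ => True) hT
  obtain ⟨x, hx⟩ := (gaq (s.im (Pj.id S) (fun _ _ => True) hT).Q D).exists_optf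
    (fun i => ((s.im (Pj.id S) (fun _ _ => True) hT).lf i).win 0)
  have h3 : (M : ℝ) ≤ vol (s.im (Pj.id S) (fun _ _ => True) hT).Q D x := by
    have h4 := volKO_le_of (s := s.im (Pj.id S) (fun _ _ => True) hT) (c := 0) (kad_bot.mpr hx.1)
    have h5 : (M : ℝ) - 0 ≤ volKO (s.im (Pj.id S) (fun _ _ => True) hT) (rbot _) 0 := h2
    linarith
  have h4 := NR_bot_of_vol (s.im (Pj.id S) (fun _ _ => True) hT).Q hx h3 (pTrue S) A hA h0 h1
  exact h4

/-- the field `Okd.zoom` of the row okC: weights `w`, `w 0 = 1`, `W` arbitrary -/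
theorem ccw_zoom {N k : ℕ} {w : Fin N → ℝ} {W : ℝ} (hw : ∀ j, 1 ≤ w j) (hw0 : ∀ t : Fin N, t.val = 0 → w t = 1)
    (S : Sp) (g r : ℕ) (s : MSys S N (lin g) (Fin r)) (hs : CCw N k w W S g r s) (hst : Stb 0 s (rbot S)) (c e : ℝ)
    (he : 0 < e) (hc : 0 ≤ c) (hce : ∀ j, w j * c + e ≤ 1) (l : Lab S) (f : Frm s.Q l fun j => w j * c)
    (hl : TLb s c l) (g' : ℕ) (t : MSys (l.ovr e he) N (lin g') (Fin r)) (hg : Gz s l c e he f.X t) :
    CCw N k w W (l.ovr e he) g' r t := by
  obtain ⟨i, hi, ⟨d⟩⟩ := hs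
  exact ⟨i, hi, Dt.zoom d hg (hl d.i) hi (hw0 i hi) hw hc hce (nr_of_stb hst)⟩

end

end Pool.Agent.Helper58.CCZ
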