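import Pool.Agent.Helper58.CCZ.Alg

/-! ZOOM OF THE CLASSES CC: the normalized mixed part with the pure monomials of large degree. -/

set_option autoImplicit false

namespace Pool.Agent.Helper58.CCZ

open MvPolynomial Finset Pool.Agent.Helper77.WDG

noncomputable section

variable {M : ℕ}

/-- the normalized mixed part of `F`, minus the pure monomials of degree `> k` with the coefficients `c` -/
def ph (t : Fin M) (D k : ℕ) (F : MvPolynomial (Fin M) ℝ) (c : ℕ → ℝ) : MvPolynomial (Fin M) ℝ :=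
  C (nrm (mx t F))⁻¹ * mx t F - ∑ l ∈ (range (D + 1)).filter (fun l => k < l), monomial (Finsupp.single t l) (c l)

variable {t : Fin M} {D k : ℕ} {F : MvPolynomial (Fin M) ℝ} {c : ℕ → ℝ}

theorem coeff_sum_mono (s : Finset ℕ) (m : Fin M →₀ ℕ) :
    (∑ l ∈ s, monomial (Finsupp.single t l) (c l) : MvPolynomial (Fin M) ℝ).coeff m =
      if m = Finsupp.single t (m t) ∧ m t ∈ s then c (m t) else 0 := by
  classical
  rw [MvPolynomial.coeff_sum]
  simp only [coeff_monomial]
  split_ifs with h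
  · rw [Finset.sum_eq_single (m t)]
    · rw [if_pos h.1.symm]
    · intro l _ hl
      rw [if_neg]
      intro h1
      apply hl
      rw [← h1, Finsupp.single_eq_same]
    · intro h1
      exact absurd h.2 h1
  · apply Finset.sum_eq_zero
    intro l hl
    rw [if_neg]
    intro h1
    apply h
    rw [← h1, Finsupp.single_eq_same]
    exact ⟨rfl, hl⟩

theorem coeff_ph (m : Fin M →₀ ℕ) : (ph t D k F c).coeff m = (nrm (mx t F))⁻¹ * (mx t F).coeff m -
    if m = Finsupp.single t (m t) ∧ m t ∈ (range (D + 1)).filter (fun l => k < l) then c (m t) else 0 := by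
  classical
  unfold ph
  rw [coeff_sub, coeff_C_mul, coeff_sum_mono]

theorem coeff_ph_mix {m : Fin M →₀ ℕ} (hm : Mix t m) : (ph t D k F c).coeff m = (nrm (mx t F))⁻¹ * F.coeff m := by
  classical
  rw [coeff_ph, if_neg fun h => (pure_iff.2 h.1) hm, sub_zero]
  congr 1
  exact coeff_cut_pos (p := Mix t) hm

theorem coeff_ph_pure {m : Fin M →₀ ℕ} (hm : ¬ Mix t m) : (ph t D k F c).coeff m =
    - if m t ∈ (range (D + 1)).filter (fun l => k < l) then c (m t) else 0 := by
  classical
  have h1 : (mx t F).coeff m = 0 := coeff_cut_neg (p := Mix t) hm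
  rw [coeff_ph, h1, mul_zero, zero_sub]
  congr 1
  have h2 := pure_iff.1 hm
  by_cases h3 : m t ∈ (range (D + 1)).filter (fun l => k < l)
  · rw [if_pos ⟨h2, h3⟩, if_pos h3]
  · rw [if_neg fun h => h3 h.2, if_neg h3]

/-- the coefficients are bounded -/
theorem ph_le {B : ℝ} (hB : 1 ≤ B) (hc : ∀ l, |c l| ≤ B) (m : Fin M →₀ ℕ) : |(ph t D k F c).coeff m| ≤ B := by
  classical
  by_cases hm : Mix t m
  · rw [coeff_ph_mix hm, abs_mul]
    refine le_trans ?_ hB
    have h1 : F.coeff m = (mx t F).coeff m := (coeff_cut_pos (p := Mix t) hm).symm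
    rw [h1]
    have h2 := coeff_le_nrm (mx t F) m
    have h3 := nrm_nonneg (mx t F)
    rw [abs_of_nonneg (inv_nonneg.mpr h3)]
    rcases h3.eq_or_lt with h4 | h4
    · rw [← h4, inv_zero, zero_mul]
      exact zero_le_one
    · rw [inv_mul_le_iff₀ h4, mul_one]
      exact h2
  · rw [coeff_ph_pure hm, abs_neg]
    split_ifs
    · exact hc _
    · rw [abs_zero]
      linarith

/-- the monomials -/
theorem ph_supp (hc : ∀ l, F.coeff (Finsupp.single t l) = 0 → k < l → c l = 0) {m : Fin M →₀ ℕ}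
    (hm : m ∈ (ph t D k F c).support) : m ∈ F.support := by
  classical
  rw [MvPolynomial.mem_support_iff] at hm ⊢
  by_cases h : Mix t m
  · rw [coeff_ph_mix h] at hm
    exact right_ne_zero_of_mul hm
  · rw [coeff_ph_pure h] at hm
    intro h1
    apply hm
    rw [neg_eq_zero]
    split_ifs with h2
    · have h3 := pure_iff.1 h
      apply hc
      · rw [← h3]
        exact h1
      · exact (Finset.mem_filter.1 h2).2
    · rfl

theorem eval_ph (x : Fin M → ℝ) : eval x (ph t D k F c) = (nrm (mx t F))⁻¹ * eval x (mx t F) -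
    ∑ l ∈ (range (D + 1)).filter (fun l => k < l), c l * x t ^ l := by
  classical
  unfold ph
  rw [map_sub, map_mul, eval_C, map_sum]
  congr 1
  refine Finset.sum_congr rfl fun l _ => ?_
  rw [eval_monomial]
  congr 1
  exact Finsupp.prod_single_index (pow_zero _)

/-- the norm is attained up to a constant -/
theorem ph_nd (hD : F.totalDegree ≤ D) (h0 : 0 < nrm (mx t F)) : ∃ (m : Fin M →₀ ℕ) (j : Fin M), j ≠ t ∧ m j ≠ 0 ∧
    1 ≤ ((D : ℝ) + 1) ^ M * |(ph t D k F c).coeff m| := by
  classical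
  by_contra hcon
  push Not at hcon
  have hp : (0 : ℝ) < ((D : ℝ) + 1) ^ M := by positivity
  have hne : (mx t F).support.Nonempty := by
    rw [Finset.nonempty_iff_ne_empty]
    intro h
    unfold nrm at h0
    rw [h, Finset.sum_empty] at h0
    exact lt_irrefl _ h0
  have h1 : ∀ m ∈ (mx t F).support, |(mx t F).coeff m| < nrm (mx t F) * (((D : ℝ) + 1) ^ M)⁻¹ := by
    intro m hm
    have hmix : Mix t m := mem_support_cut hm
    obtain ⟨j, hj, hj2⟩ := hmix
    have h2 := hcon m j hj hj2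
    rw [coeff_ph_mix ⟨j, hj, hj2⟩, abs_mul, abs_of_pos (inv_pos.mpr h0)] at h2
    have h3 : (mx t F).coeff m = F.coeff m := coeff_cut_pos (p := Mix t) ⟨j, hj, hj2⟩
    rw [h3]
    rw [← div_eq_mul_inv, lt_div_iff₀ hp]
    have h4 : nrm (mx t F) * (((D : ℝ) + 1) ^ M * ((nrm (mx t F))⁻¹ * |F.coeff m|)) < nrm (mx t F) * 1 :=
      mul_lt_mul_of_pos_left h2 h0
    have h5 : nrm (mx t F) * (((D : ℝ) + 1) ^ M * ((nrm (mx t F))⁻¹ * |F.coeff m|)) =
        |F.coeff m| * ((D : ℝ) + 1) ^ M := by
      field_simp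
    rw [h5, mul_one] at h4
    exact h4
  have h2 : nrm (mx t F) < nrm (mx t F) := by
    calc nrm (mx t F) = ∑ a ∈ (mx t F).support, |(mx t F).coeff a| := rfl
      _ < ∑ _a ∈ (mx t F).support, nrm (mx t F) * (((D : ℝ) + 1) ^ M)⁻¹ := Finset.sum_lt_sum_of_nonempty hne h1
      _ = (mx t F).support.card * (nrm (mx t F) * (((D : ℝ) + 1) ^ M)⁻¹) := by rw [Finset.sum_const, nsmul_eq_mul]
      _ ≤ ((D : ℝ) + 1) ^ M * (nrm (mx t F) * (((D : ℝ) + 1) ^ M)⁻¹) := by
        apply mul_le_mul_of_nonneg_right _ (by positivity)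
        have h3 := card_support_le (P := mx t F) (totalDegree_cut.trans hD)
        rw [Fintype.card_fin] at h3
        exact_mod_cast h3
      _ = nrm (mx t F) := by
        field_simp
  exact lt_irrefl _ h2

/-- the main identity -/
theorem ph_id (hkD : k ≤ D) (hD : F.totalDegree ≤ D) {b : ℕ → ℝ} {x : Fin M → ℝ} :
    eval x (ph t D k F fun l => (b l - F.coeff (Finsupp.single t l)) / nrm (mx t F)) -
      ∑ l ∈ range (k + 1), (b l - F.coeff (Finsupp.single t l)) / nrm (mx t F) * x t ^ l =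
    (nrm (mx t F))⁻¹ * (eval x F - ∑ l ∈ range (D + 1), b l * x t ^ l) := by
  classical
  rw [eval_ph]
  have h1 : (range (D + 1)).filter (fun l => ¬ k < l) = range (k + 1) := by
    ext l
    rw [Finset.mem_filter, Finset.mem_range, Finset.mem_range]
    omega
  have h2 := Finset.sum_filter_add_sum_filter_not (range (D + 1)) (fun l => k < l)
    (fun l => (b l - F.coeff (Finsupp.single t l)) / nrm (mx t F) * x t ^ l)
  rw [h1] at h2
  have h3 : eval x F = eval x (mx t F) + ∑ l ∈ range (D + 1), F.coeff (Finsupp.single t l) * x t ^ l := by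
    rw [← eval_pp hD x, ← map_add, mx_add_pp]
  have h4 : ∑ l ∈ range (D + 1), (b l - F.coeff (Finsupp.single t l)) / nrm (mx t F) * x t ^ l =
      (nrm (mx t F))⁻¹ * (∑ l ∈ range (D + 1), b l * x t ^ l - ∑ l ∈ range (D + 1),
        F.coeff (Finsupp.single t l) * x t ^ l) := by
    rw [← Finset.sum_sub_distrib, Finset.mul_sum]
    refine Finset.sum_congr rfl fun l _ => ?_
    rw [div_eq_mul_inv]
    ring
  rw [sub_sub, h2, h4, h3]
  ring

/-- the difference of the two sides as a polynomial -/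
def gph (t : Fin M) (D k : ℕ) (F : MvPolynomial (Fin M) ℝ) (c a : ℕ → ℝ) : MvPolynomial (Fin M) ℝ :=
  ph t D k F c - ∑ l ∈ range (k + 1), monomial (Finsupp.single t l) (a l)

variable {a : ℕ → ℝ}

theorem totalDegree_sum_mono {s : Finset ℕ} (hs : ∀ l ∈ s, l ≤ D) :
    (∑ l ∈ s, monomial (Finsupp.single t l) (c l) : MvPolynomial (Fin M) ℝ).totalDegree ≤ D := by
  classical
  refine (MvPolynomial.totalDegree_finsetSum _ _).trans (Finset.sup_le fun l hl => ?_)
  refine (MvPolynomial.totalDegree_monomial_le _ _).trans ?_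
  rw [Finsupp.sum_single_index rfl]
  exact hs l hl

theorem gph_totalDegree (hkD : k ≤ D) (hD : F.totalDegree ≤ D) : (gph t D k F c a).totalDegree ≤ D := by
  classical
  unfold gph ph
  refine (MvPolynomial.totalDegree_sub _ _).trans (max_le ((MvPolynomial.totalDegree_sub _ _).trans (max_le ?_ ?_)) ?_)
  · refine (MvPolynomial.totalDegree_mul _ _).trans ?_
    rw [MvPolynomial.totalDegree_C, zero_add]
    exact totalDegree_cut.trans hD
  · refine totalDegree_sum_mono fun l hl => ?_
    have := Finset.mem_range.1 (Finset.mem_filter.1 hl).1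
    omega
  · refine totalDegree_sum_mono fun l hl => ?_
    have := Finset.mem_range.1 hl
    omega

theorem gph_coeff {B : ℝ} (hB : 1 ≤ B) (hc : ∀ l, |c l| ≤ B) (ha : ∀ l, |a l| ≤ B) (m : Fin M →₀ ℕ) :
    |(gph t D k F c a).coeff m| ≤ 2 * B := by
  classical
  unfold gph
  rw [coeff_sub, coeff_sum_mono]
  refine (abs_sub _ _).trans ?_
  have h1 := ph_le (t := t) (D := D) (k := k) (F := F) hB hc m
  have h2 : |if m = Finsupp.single t (m t) ∧ m t ∈ range (k + 1) then a (m t) else 0| ≤ B := by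
    split_ifs
    · exact ha _
    · rw [abs_zero]
      linarith
  linarith

theorem eval_gph (x : Fin M → ℝ) : eval x (gph t D k F c a) = eval x (ph t D k F c) -
    ∑ l ∈ range (k + 1), a l * x t ^ l := by
  classical
  unfold gph
  rw [map_sub, map_sum]
  congr 1
  refine Finset.sum_congr rfl fun l _ => ?_
  rw [eval_monomial]
  congr 1
  exact Finsupp.prod_single_index (pow_zero _)

/-- change of the point -/
theorem gph_close (hkD : k ≤ D) (hD : F.totalDegree ≤ D) {B : ℝ} (hB : 1 ≤ B) (hc : ∀ l, |c l| ≤ B)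
    (ha : ∀ l, |a l| ≤ B) {T δ : ℝ} (hT : 1 ≤ T) (hδ : 0 ≤ δ) {x y : Fin M → ℝ} (hx : ∀ i, |x i| ≤ T)
    (hy : ∀ i, |y i| ≤ T) (h : ∀ i, |x i - y i| ≤ δ) :
    |eval x (gph t D k F c a) - eval y (gph t D k F c a)| ≤ ((D : ℝ) + 1) ^ M * (2 * B) * (D * T ^ D * δ) := by
  have h0 : (0 : ℝ) ≤ T := by linarith
  have h1 := eval_sub_le (P := gph t D k F c a) hT hδ (gph_totalDegree hkD hD) (u := x) (v := y) (fun i _ => hx i)
    (fun i _ => hy i) fun i _ => h i
  refine h1.trans ?_
  apply mul_le_mul_of_nonneg_right _ (by positivity)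
  have h2 := nrm_le_of_coeff (P := gph t D k F c a) (gph_totalDegree hkD hD) (K := 2 * B) (by linarith)
    (gph_coeff hB hc ha)
  rw [Fintype.card_fin] at h2
  exact h2

end

end Pool.Agent.Helper58.CCZ
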