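import Pool.Agent.Helper58.CCZ.Core

/-! ZOOM OF THE CLASSES CC: data of degree `k` of a system give data of degree `k` of its zooms over labels without leak
at the window of the type, if the point has no relations on events. -/

set_option autoImplicit false

namespace Pool.Agent.Helper58.CCZ

open Finset Filter Topology Pool.Agent.Helper69.RK Pool.Agent.Helper31.EC Pool.Agent.Helper31.EC.Sp
open Pool.Agent.Helper31.EC.QS Pool.Agent.Helper40.EL Pool.Agent.Helper84.MT Pool.Agent.Helper36.AM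
open Pool.Agent.Helper75.CC Pool.Agent.Helper77.WDG Pool.Agent.Helper3.LF Pool.Agent.Helper5.DO Pool.Agent.Helper5.HB

noncomputable section

/-! ### polynomials in one variable -/

/-- the polynomial in the scaled variable -/
def sft (k : ℕ) (a : Fin (k + 1) → ℝ) (o δ : ℝ) : Polynomial ℝ :=
  ∑ i : Fin (k + 1), Polynomial.C (a i) * (Polynomial.C o + Polynomial.C δ * Polynomial.X) ^ (i : ℕ)

theorem sft_natDegree {k : ℕ} (a : Fin (k + 1) → ℝ) (o δ : ℝ) : (sft k a o δ).natDegree ≤ k := by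
  unfold sft
  refine Polynomial.natDegree_sum_le_of_forall_le _ _ fun i _ => ?_
  refine Polynomial.natDegree_mul_le.trans ?_
  rw [Polynomial.natDegree_C, zero_add]
  refine Polynomial.natDegree_pow_le.trans ?_
  have h1 : (Polynomial.C o + Polynomial.C δ * Polynomial.X : Polynomial ℝ).natDegree ≤ 1 := by
    refine (Polynomial.natDegree_add_le _ _).trans (max_le ?_ ?_)
    · rw [Polynomial.natDegree_C]
      exact Nat.zero_le _
    · refine Polynomial.natDegree_mul_le.trans ?_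
      rw [Polynomial.natDegree_C, zero_add]
      exact Polynomial.natDegree_X_le
  have h2 := i.isLt
  calc (i : ℕ) * _ ≤ (i : ℕ) * 1 := Nat.mul_le_mul_left _ h1
    _ ≤ k := by omega

theorem sft_coeff_zero {k l : ℕ} (a : Fin (k + 1) → ℝ) (o δ : ℝ) (h : k < l) : (sft k a o δ).coeff l = 0 :=
  Polynomial.coeff_eq_zero_of_natDegree_lt ((sft_natDegree a o δ).trans_lt h)

theorem sft_eval {k D : ℕ} (hkD : k ≤ D) (a : Fin (k + 1) → ℝ) (o δ x : ℝ) :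
    ∑ l ∈ range (D + 1), (sft k a o δ).coeff l * x ^ l = ∑ i, a i * (o + δ * x) ^ (i : ℕ) := by
  rw [← Polynomial.eval_eq_sum_range' (lt_of_le_of_lt (sft_natDegree a o δ) (by omega)) x]
  unfold sft
  rw [Polynomial.eval_finsetSum]
  refine Finset.sum_congr rfl fun i _ => ?_
  simp

/-! ### weights -/

section
variable {M : ℕ} {w : Fin M → ℝ} {c : ℝ}

theorem red_wd (hw : ∀ j, 0 ≤ w j) (hc : 0 ≤ c) {P : Fin M → MvPolynomial (Fin M) ℝ}
    (hred : ∀ j, ∀ a ∈ (P j).support, a ≠ 0 → ∑ i, (a i : ℝ) * (w i * c) < w j * c) (j : Fin M) :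
    WLe w (w j) (P j) := by
  intro a ha
  by_cases h0 : a = 0
  · rw [h0, wt_zero]
    exact hw j
  · have h1 := hred j a ha h0
    have h2 : ∑ i, (a i : ℝ) * (w i * c) = (∑ i, (a i : ℝ) * w i) * c := by
      rw [Finset.sum_mul]
      exact Finset.sum_congr rfl fun i _ => by ring
    rw [h2] at h1
    exact (lt_of_mul_lt_mul_right h1 hc).le

theorem fr_wd (hw : ∀ j, 0 ≤ w j) (hc : 0 ≤ c) {P : Fin M → MvPolynomial (Fin M) ℝ}
    (hred : ∀ j, ∀ a ∈ (P j).support, a ≠ 0 → ∑ i, (a i : ℝ) * (w i * c) < w j * c) {W : ℝ}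
    {Φ : MvPolynomial (Fin M) ℝ} (hΦ : ∀ m ∈ Φ.support, ∑ j, (m j : ℝ) * w j ≤ W) (d : Fin M → ℝ) :
    ∀ m ∈ (fr d P Φ).support, ∑ j, (m j : ℝ) * w j ≤ W := by
  intro m hm
  have h1 : WLe w W (MvPolynomial.bind₁ (tm P) Φ) := WLe.bind (w := w) (v := w) hΦ (tm P) fun i _ =>
    (WLe.X le_rfl).add (red_wd hw hc hred i)
  exact h1 m (scl_support d _ hm)

end

/-! ### the frame -/

variable {S : Sp} {M : ℕ} {E E' : ℕ → ℕ} {ι : Type} {k : ℕ} {t : Fin M} {w : Fin M → ℝ} {W : ℝ} {s : MSys S M E ι}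
  {l : Lab S} {c e : ℝ}

/-- the polynomial of the data in the coordinates of the frame -/
def zF (d : Dt k t w W s) (f : Frm s.Q l (fun j => w j * c)) (n : ℕ) (ω : (l.sp.F n).Ω) : MvPolynomial (Fin M) ℝ :=
  fr (fun j => S.dl (w j * c) n) (f.P n ω) (d.Φ n (l.pj.π n ω))

/-- the value of the frame -/
def zx (f : Frm s.Q l (fun j => w j * c)) (n : ℕ) (ω : (l.sp.F n).Ω) (j : Fin M) : ℝ :=
  MvPolynomial.eval (fun i => S.dl (w i * c) n * f.X.v n ω i) (f.P n ω j) + S.dl (w j * c) n * f.X.v n ω j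

theorem eval_zF (d : Dt k t w W s) (f : Frm s.Q l (fun j => w j * c)) (n : ℕ) (ω : (l.sp.F n).Ω) :
    MvPolynomial.eval (f.X.v n ω) (zF d f n ω) = MvPolynomial.eval (zx f n ω) (d.Φ n (l.pj.π n ω)) :=
  eval_fr _ _ _ _

/-- the coefficients along the leaf -/
def zb (d : Dt k t w W s) (f : Frm s.Q l (fun j => w j * c)) (n : ℕ) (ω : (l.sp.F n).Ω) (m : ℕ) : ℝ :=
  (sft k (d.a n (l.pj.π n ω)) ((f.P n ω t).coeff 0) (S.dl (w t * c) n)).coeff m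

theorem zF_wd (d : Dt k t w W s) (f : Frm s.Q l (fun j => w j * c)) (hw : ∀ j, 0 ≤ w j) (hc : 0 ≤ c) :
    ∀ᶠ n in UF, ∀ ω, (l.sp.F n).μ ω ≠ 0 → ∀ m ∈ (zF d f n ω).support, ∑ j, (m j : ℝ) * w j ≤ W := by
  filter_upwards [d.wd] with n hn ω hω
  exact fr_wd hw hc (f.red n ω) (hn _ (l.pj.supp n ω hω)) _

/-- bounds of the frame -/
theorem frm_bounds (f : Frm s.Q l (fun j => w j * c)) (hw : ∀ j, 1 ≤ w j) (hc : 0 ≤ c) :
    ∃ (D' : ℕ) (K : ℕ → ℝ), S.Sub K ∧ (∀ n ω j, (f.P n ω j).totalDegree ≤ D') ∧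
      ∀ᶠ n in UF, 1 ≤ K n ∧ ∀ ω, (l.sp.F n).μ ω ≠ 0 → (∀ j, nrm (f.P n ω j) ≤ K n) ∧ (∀ j, |f.X.v n ω j| ≤ K n) ∧
        (∀ j, |S.dl (w j * c) n * f.X.v n ω j| ≤ K n) ∧ (∀ j, |zx f n ω j| ≤ K n) ∧
          (∀ j, |s.Q.v n (l.pj.π n ω) j| ≤ K n) ∧
            ∀ j, |s.Q.v n (l.pj.π n ω) j - zx f n ω j| ≤ K n * S.dl 1 n := by
  classical
  have hw0 : ∀ j, 0 ≤ w j := fun j => zero_le_one.trans (hw j)
  obtain ⟨D', hD'⟩ : ∃ D' : ℕ, D' = ∑ j, ⌊w j⌋₊ := ⟨_, rfl⟩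
  have hdeg : ∀ n ω j, (f.P n ω j).totalDegree ≤ D' := by
    intro n ω j
    have h1 := deg_of_wd hw (W := w j) (P := f.P n ω j) (red_wd hw0 hc (f.red n ω) j)
    refine h1.trans ?_
    rw [hD']
    exact Finset.single_le_sum (f := fun j => ⌊w j⌋₊) (fun _ _ => Nat.zero_le _) (Finset.mem_univ j)
  obtain ⟨K1, hK1, h1⟩ := f.bd
  obtain ⟨K2, hK2, h2⟩ := f.X.bd
  obtain ⟨K3, hK3, h3⟩ := f.pt
  obtain ⟨K4, hK4, h4⟩ := s.Q.bd
  have hK2' : S.Sub K2 := Pool.Agent.Helper5.HB.Sub_n_congr l.pj.hn hK2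
  refine ⟨D', fun n => 1 + ((D' : ℝ) + 1) ^ M * K1 n + K2 n + K3 n + K4 n, (((((S.Sub_const zero_le_one).add
    ((S.Sub_const (by positivity)).mul hK1))).add hK2').add hK3).add hK4, hdeg, ?_⟩
  filter_upwards [h1, h2, h3, h4, hK1.1, hK2.1, hK3.1, hK4.1] with n h1 h2 h3 h4 k1 k2 k3 k4
  have hp : (0 : ℝ) ≤ ((D' : ℝ) + 1) ^ M * K1 n := by positivity
  have hd1 : S.dl 1 n ≤ 1 := by
    have h5 := S.dl_anti (zero_le_one : (0 : ℝ) ≤ 1) n
    have h6 : S.dl 0 n = 1 := by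
      unfold Sp.dl
      rw [zero_mul, neg_zero, Real.rpow_zero]
    rwa [h6] at h5
  have hd0 := S.dl_pos 1 n
  refine ⟨by linarith, fun ω hω => ?_⟩
  have hQ : ∀ j, |s.Q.v n (l.pj.π n ω) j| ≤ K4 n := fun j => h4 _ (l.pj.supp n ω hω) j
  have hpt : ∀ j, |s.Q.v n (l.pj.π n ω) j - zx f n ω j| ≤ K3 n * S.dl 1 n := fun j => h3 ω hω j
  have hX : ∀ j, |f.X.v n ω j| ≤ K2 n := fun j => h2 ω hω j
  refine ⟨fun j => ?_, fun j => (hX j).trans (by linarith), fun j => ?_, fun j => ?_, fun j => (hQ j).trans (by linarith),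
    fun j => (hpt j).trans (mul_le_mul_of_nonneg_right (by linarith) hd0.le)⟩
  · have h5 := nrm_le_of_coeff (hdeg n ω j) k1 fun a => h1 ω hω j a
    rw [Fintype.card_fin] at h5
    linarith
  · rw [abs_mul, abs_of_pos (S.dl_pos _ n)]
    have h5 : S.dl (w j * c) n ≤ 1 := by
      have h5 := S.dl_anti (mul_nonneg (hw0 j) hc) n
      have h6 : S.dl 0 n = 1 := by
        unfold Sp.dl
        rw [zero_mul, neg_zero, Real.rpow_zero]
      rwa [h6] at h5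
    have h6 := mul_le_mul h5 (hX j) (abs_nonneg _) zero_le_one
    linarith
  · have e1 : zx f n ω j = s.Q.v n (l.pj.π n ω) j - (s.Q.v n (l.pj.π n ω) j - zx f n ω j) := by ring
    rw [e1]
    refine (abs_sub _ _).trans ?_
    have h5 := hQ j
    have h6 := hpt j
    have h7 : K3 n * S.dl 1 n ≤ K3 n * 1 := mul_le_mul_of_nonneg_left hd1 k3
    linarith

/-- bounds of the polynomial -/
theorem phi_bounds (d : Dt k t w W s) (hw : ∀ j, 1 ≤ w j) :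
    ∃ K : ℕ → ℝ, S.Sub K ∧ ∀ᶠ n in UF, 0 ≤ K n ∧ ∀ ω, (S.F n).μ ω ≠ 0 → (d.Φ n ω).totalDegree ≤ ⌊W⌋₊ ∧
      nrm (d.Φ n ω) ≤ K n := by
  classical
  obtain ⟨K, hK, h1⟩ := d.bΦ
  refine ⟨fun n => ((⌊W⌋₊ : ℝ) + 1) ^ M * K n, (S.Sub_const (by positivity)).mul hK, ?_⟩
  filter_upwards [h1, d.wd, hK.1] with n h1 h2 h3
  refine ⟨by positivity, fun ω hω => ?_⟩
  have h4 := deg_of_wd hw (h2 ω hω)
  have h5 := nrm_le_of_coeff h4 h3 (h1 ω hω)
  rw [Fintype.card_fin] at h5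
  exact ⟨h4, h5⟩

/-- THE RESIDUAL -/
theorem resid (d : Dt k t w W s) (f : Frm s.Q l (fun j => w j * c)) (hw : ∀ j, 1 ≤ w j) (hc : 0 ≤ c) (ht : t.val = 0)
    {D : ℕ} (hkD : k ≤ D) : ∃ K : ℕ → ℝ, S.Sub K ∧ Typ (S := l.sp) fun n ω =>
      |MvPolynomial.eval (f.X.v n ω) (zF d f n ω) - ∑ m ∈ range (D + 1), zb d f n ω m * f.X.v n ω t ^ m| ≤
        K n * S.dl 1 n := by
  classical
  obtain ⟨D', K1, hK1, hD', h1⟩ := frm_bounds f hw hc
  obtain ⟨K2, hK2, h2⟩ := phi_bounds d hw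
  obtain ⟨K3, hK3, h3⟩ := d.eq
  obtain ⟨K4, hK4, h4⟩ := d.ba
  refine ⟨fun n => K2 n * (⌊W⌋₊ * K1 n ^ ⌊W⌋₊ * K1 n) + K3 n + (k + 1) * (K4 n * (k * K1 n ^ k * K1 n)),
    ((hK2.mul (((S.Sub_const (by positivity)).mul (Pool.Agent.Helper80.LF.Sub_pow hK1 _)).mul hK1)).add hK3).add
      ((S.Sub_const (by positivity)).mul (hK4.mul (((S.Sub_const (by positivity)).mul
        (Pool.Agent.Helper80.LF.Sub_pow hK1 _)).mul hK1))), (l.pj.typ h3).mono ?_⟩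
  filter_upwards [h1, h2, h4, hK4.1] with n h1 h2 h4 k4 ω hω h5
  obtain ⟨g1, g2⟩ := h1
  obtain ⟨g3, g4, g5, g6, g7, g8⟩ := g2 ω hω
  obtain ⟨g9, g10⟩ := h2
  obtain ⟨g11, g12⟩ := g10 _ (l.pj.supp n ω hω)
  have hd0 := S.dl_pos 1 n
  have hK0 : 0 ≤ K1 n := by linarith
  rw [eval_zF]
  have e1 := sft_eval hkD (d.a n (l.pj.π n ω)) ((f.P n ω t).coeff 0) (S.dl (w t * c) n) (f.X.v n ω t)
  have e2 : ∑ m ∈ range (D + 1), zb d f n ω m * f.X.v n ω t ^ m = ∑ i : Fin (k + 1), d.a n (l.pj.π n ω) i *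
      zx f n ω t ^ (i : ℕ) := by
    unfold zb
    rw [e1]
    refine Finset.sum_congr rfl fun i _ => ?_
    congr 2
    unfold zx
    rw [frm_zero f ht n ω, MvPolynomial.eval_C, MvPolynomial.coeff_C, if_pos rfl]
  rw [e2]
  have a1 : |MvPolynomial.eval (s.Q.v n (l.pj.π n ω)) (d.Φ n (l.pj.π n ω)) -
      MvPolynomial.eval (zx f n ω) (d.Φ n (l.pj.π n ω))| ≤ K2 n * (⌊W⌋₊ * K1 n ^ ⌊W⌋₊ * (K1 n * S.dl 1 n)) := by
    have h6 := eval_sub_le (P := d.Φ n (l.pj.π n ω)) g1 (δ := K1 n * S.dl 1 n) (by positivity) g11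
      (u := s.Q.v n (l.pj.π n ω)) (v := zx f n ω) (fun i _ => g7 i) (fun i _ => g6 i) (fun i _ => g8 i)
    refine h6.trans (mul_le_mul_of_nonneg_right g12 (by positivity))
  have a2 : |∑ i : Fin (k + 1), d.a n (l.pj.π n ω) i * s.Q.v n (l.pj.π n ω) t ^ (i : ℕ) -
      ∑ i : Fin (k + 1), d.a n (l.pj.π n ω) i * zx f n ω t ^ (i : ℕ)| ≤
      (k + 1) * (K4 n * (k * K1 n ^ k * (K1 n * S.dl 1 n))) := by
    rw [← Finset.sum_sub_distrib]
    refine (Finset.abs_sum_le_sum_abs _ _).trans ?_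
    have h6 : ∀ i ∈ (Finset.univ : Finset (Fin (k + 1))), |d.a n (l.pj.π n ω) i * s.Q.v n (l.pj.π n ω) t ^ (i : ℕ) -
        d.a n (l.pj.π n ω) i * zx f n ω t ^ (i : ℕ)| ≤ K4 n * (k * K1 n ^ k * (K1 n * S.dl 1 n)) := by
      intro i _
      rw [← mul_sub, abs_mul]
      apply mul_le_mul (h4 _ (l.pj.supp n ω hω) i) _ (abs_nonneg _) k4
      refine (pow_sub_le g1 (g7 t) (g6 t) (g8 t) (i : ℕ)).trans ?_
      have h7 : (i : ℕ) ≤ k := by
        have := i.isLt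
        omega
      apply mul_le_mul_of_nonneg_right _ (by positivity)
      apply mul_le_mul _ (pow_le_pow_right₀ g1 h7) (by positivity) (Nat.cast_nonneg _)
      exact_mod_cast h7
    refine (Finset.sum_le_card_nsmul _ _ _ h6).trans ?_
    rw [nsmul_eq_mul, Finset.card_univ, Fintype.card_fin]
    push_cast
    exact le_rfl
  have a3 : |MvPolynomial.eval (s.Q.v n (l.pj.π n ω)) (d.Φ n (l.pj.π n ω)) -
      ∑ i : Fin (k + 1), d.a n (l.pj.π n ω) i * s.Q.v n (l.pj.π n ω) t ^ (i : ℕ)| ≤ K3 n * S.dl 1 n := h5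
  obtain ⟨x1, hx1⟩ : ∃ x1, x1 = MvPolynomial.eval (s.Q.v n (l.pj.π n ω)) (d.Φ n (l.pj.π n ω)) := ⟨_, rfl⟩
  obtain ⟨x2, hx2⟩ : ∃ x2, x2 = MvPolynomial.eval (zx f n ω) (d.Φ n (l.pj.π n ω)) := ⟨_, rfl⟩
  obtain ⟨x3, hx3⟩ : ∃ x3, x3 = ∑ i : Fin (k + 1), d.a n (l.pj.π n ω) i * s.Q.v n (l.pj.π n ω) t ^ (i : ℕ) := ⟨_, rfl⟩
  obtain ⟨x4, hx4⟩ : ∃ x4, x4 = ∑ i : Fin (k + 1), d.a n (l.pj.π n ω) i * zx f n ω t ^ (i : ℕ) := ⟨_, rfl⟩
  rw [← hx1, ← hx2] at a1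
  rw [← hx3, ← hx4] at a2
  rw [← hx1, ← hx3] at a3
  rw [← hx2, ← hx4]
  have e3 : x2 - x4 = (x1 - x3) - (x1 - x2) + (x3 - x4) := by ring
  rw [e3]
  have a4 := abs_add_le ((x1 - x3) - (x1 - x2)) (x3 - x4)
  have a5 := abs_sub (x1 - x3) (x1 - x2)
  calc _ ≤ K3 n * S.dl 1 n + K2 n * (⌊W⌋₊ * K1 n ^ ⌊W⌋₊ * (K1 n * S.dl 1 n)) +
        (k + 1) * (K4 n * (k * K1 n ^ k * (K1 n * S.dl 1 n))) := by linarith
    _ = _ := by ring

/-- THE LOWER BOUND -/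
theorem lower (d : Dt k t w W s) (f : Frm s.Q l (fun j => w j * c)) (hw : ∀ j, 1 ≤ w j) (hc : 0 ≤ c) (ht : t.val = 0)
    (hce : ∀ j, w j * c ≤ 1 - e)
    (hN : ∀ (D : ℕ) (A : ∀ n, (S.F n).Ω → Prop), 0 < ul (S.pr A) → ∀ r : ℝ, 0 < r → r ≤ 1 →
      NR D (cq (s.Q.rest A)) (⊥ : (S.rest A).L) r) {ε : ℝ} (hε : 0 < ε) (hε1 : ε < 1) :
    ∃ K : ℕ → ℝ, S.Sub K ∧ Typ (S := l.sp) fun n ω =>
      S.dl (1 - e) n * S.dl ε n ≤ K n * nrm (mx t (zF d f n ω)) := by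
  classical
  obtain ⟨D', K1, hK1, hD', h1⟩ := frm_bounds f hw hc
  obtain ⟨K2, hK2, h2⟩ := phi_bounds d hw
  have h3 := l.pj.typ (pderiv_large d hw hN hε)
  obtain ⟨D, hD⟩ : ∃ D : ℕ, D = ⌊W⌋₊ := ⟨_, rfl⟩
  have hw0 : ∀ j, 0 ≤ w j := fun j => zero_le_one.trans (hw j)
  have hC : S.Sub fun n => 2 * (D * K2 n * (D * K1 n ^ D * K1 n)) := (S.Sub_const (by norm_num)).mul
    (((S.Sub_const (by positivity)).mul hK2).mul (((S.Sub_const (by positivity)).mul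
      (Pool.Agent.Helper80.LF.Sub_pow hK1 _)).mul hK1))
  refine ⟨fun n => 2 * ((1 + M * (D' * K1 n * K1 n ^ D')) ^ M * (D * K1 n ^ D)), (S.Sub_const (by norm_num)).mul
    ((Pool.Agent.Helper80.LF.Sub_pow ((S.Sub_const zero_le_one).add ((S.Sub_const (by positivity)).mul
      (((S.Sub_const (by positivity)).mul hK1).mul (Pool.Agent.Helper80.LF.Sub_pow hK1 _)))) _).mul
        ((S.Sub_const (by positivity)).mul (Pool.Agent.Helper80.LF.Sub_pow hK1 _))), h3.mono ?_⟩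
  filter_upwards [h1, h2, zF_wd d f hw0 hc, hC.eventually_le (show 0 < (1 - ε) / 2 by linarith),
    S.lim.eventually (eventually_gt_atTop (0 : ℝ))] with n h1 h2 h4 h5 h5' ω hω h6
  obtain ⟨g1, g2⟩ := h1
  obtain ⟨g3, g4, g5, g6, g7, g8⟩ := g2 ω hω
  obtain ⟨g9, g10⟩ := h2
  obtain ⟨g11, g12⟩ := g10 _ (l.pj.supp n ω hω)
  obtain ⟨i, hi, h7⟩ := h6
  have hK0 : 0 ≤ K1 n := by linarith
  have hd0 := S.dl_pos 1 n
  have h8 := low_mx ht (D := D) (D' := D') (B := K1 n) (T := K1 n) hK0 g1 (P := f.P n ω) (f.tri n ω) (hD' n ω) g3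
    (d := fun j => S.dl (w j * c) n) (δ := S.dl (1 - e) n) (S.dl_pos _ n) (fun j => S.dl_anti (hce j) n)
    (d.Φ n (l.pj.π n ω)) (X := f.X.v n ω) g4 g5 (by
      rw [hD]
      exact deg_of_wd hw (h4 ω hω)) i hi
  have h9 : |MvPolynomial.eval (s.Q.v n (l.pj.π n ω)) (MvPolynomial.pderiv i (d.Φ n (l.pj.π n ω))) -
      MvPolynomial.eval (zx f n ω) (MvPolynomial.pderiv i (d.Φ n (l.pj.π n ω)))| ≤
      D * K2 n * (D * K1 n ^ D * (K1 n * S.dl 1 n)) := by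
    rw [← hD] at g11
    have h6 := eval_sub_le (P := MvPolynomial.pderiv i (d.Φ n (l.pj.π n ω))) g1 (δ := K1 n * S.dl 1 n) (by positivity)
      (totalDegree_pderiv_le g11 i) (u := s.Q.v n (l.pj.π n ω)) (v := zx f n ω) (fun i _ => g7 i) (fun i _ => g6 i)
      (fun i _ => g8 i)
    refine h6.trans (mul_le_mul_of_nonneg_right ((nrm_pderiv_le g11 i).trans ?_) (by positivity))
    exact mul_le_mul_of_nonneg_left g12 (Nat.cast_nonneg _)
  have h10 : 2 * (D * K2 n * (D * K1 n ^ D * (K1 n * S.dl 1 n))) ≤ S.dl ε n := by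
    have e1 : 2 * (D * K2 n * (D * K1 n ^ D * (K1 n * S.dl 1 n))) = 2 * (D * K2 n * (D * K1 n ^ D * K1 n)) * S.dl 1 n := by
      ring
    rw [e1]
    have e2 : S.dl ε n = 2 ^ ((1 - ε) * (S.F n).n) * S.dl 1 n := by
      unfold Sp.dl
      rw [← Real.rpow_add (by norm_num)]
      congr 1
      ring
    rw [e2]
    apply mul_le_mul_of_nonneg_right _ hd0.le
    have h11 : (2 : ℝ) ^ ((1 - ε) / 2 * (S.F n).n) ≤ 2 ^ ((1 - ε) * (S.F n).n) :=
      Real.rpow_le_rpow_of_exponent_le (by norm_num) (by nlinarith)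
    linarith
  have h11 : S.dl ε n ≤ 2 * |MvPolynomial.eval (zx f n ω) (MvPolynomial.pderiv i (d.Φ n (l.pj.π n ω)))| := by
    have h12 := abs_sub_abs_le_abs_sub (MvPolynomial.eval (s.Q.v n (l.pj.π n ω)) (MvPolynomial.pderiv i
      (d.Φ n (l.pj.π n ω)))) (MvPolynomial.eval (zx f n ω) (MvPolynomial.pderiv i (d.Φ n (l.pj.π n ω))))
    linarith
  have h12 : S.dl (1 - e) n * |MvPolynomial.eval (zx f n ω) (MvPolynomial.pderiv i (d.Φ n (l.pj.π n ω)))| ≤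
      (1 + M * (D' * K1 n * K1 n ^ D')) ^ M * (D * K1 n ^ D) * nrm (mx t (zF d f n ω)) := h8
  calc S.dl (1 - e) n * S.dl ε n ≤ S.dl (1 - e) n *
        (2 * |MvPolynomial.eval (zx f n ω) (MvPolynomial.pderiv i (d.Φ n (l.pj.π n ω)))|) :=
        mul_le_mul_of_nonneg_left h11 (S.dl_pos _ n).le
    _ = 2 * (S.dl (1 - e) n * |MvPolynomial.eval (zx f n ω) (MvPolynomial.pderiv i (d.Φ n (l.pj.π n ω)))|) := by ring
    _ ≤ 2 * ((1 + M * (D' * K1 n * K1 n ^ D')) ^ M * (D * K1 n ^ D) * nrm (mx t (zF d f n ω))) :=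
        mul_le_mul_of_nonneg_left h12 (by norm_num)
    _ = _ := by ring

/-- ZOOM OF THE DATA -/
theorem Dt.zoom (d : Dt k t w W s) {he : 0 < e} {f : Frm s.Q l (fun j => w j * c)} {t' : MSys (l.ovr e he) M E' ι}
    (hg : Gz s l c e he f.X t') (hl : Nul S (fun n => (l n).leak ((s.lf d.i).win c n))) (ht : t.val = 0)
    (hwt : w t = 1) (hw : ∀ j, 1 ≤ w j) (hc : 0 ≤ c) (hce : ∀ j, w j * c + e ≤ 1)
    (hN : ∀ (D : ℕ) (A : ∀ n, (S.F n).Ω → Prop), 0 < ul (S.pr A) → ∀ r : ℝ, 0 < r → r ≤ 1 →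
      NR D (cq (s.Q.rest A)) (⊥ : (S.rest A).L) r) : Nonempty (Dt k t w W t') := by
  classical
  have hw0 : ∀ j, 0 ≤ w j := fun j => zero_le_one.trans (hw j)
  have hct : c + e ≤ 1 := by
    have h1 := hce t
    rw [hwt, one_mul] at h1
    exact h1
  have hWL : PLe (S := S) (fun n => fc (d.W0 n)) (fun n => fc (d.L n)) :=
    d.nW.of_le (Eventually.of_forall fun _ => h_nonneg _ _) (Eventually.of_forall fun n => h_le_H _ _)
  have hsl : SL t' d.i t (fun n => Setoid.comap (l n).p.π (d.L n ⊓ d.W0 n)) :=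
    SL.zoom (d.sl.add hWL) hl ht (by
      show w t * c = c
      rw [hwt, one_mul]) hg hc hct
  obtain ⟨D, hD, hkD⟩ : ∃ D : ℕ, ⌊W⌋₊ ≤ D ∧ k ≤ D := ⟨max ⌊W⌋₊ k, le_max_left _ _, le_max_right _ _⟩
  have hdl : ∀ r n, (l.ovr e he).dl r n = S.dl (e * r) n := by
    intro r n
    unfold Sp.dl
    rw [l.n_over e he]
    congr 1
    ring
  refine core (S := l.ovr e he) (D := D) (W0 := fun n => Setoid.comap (l n).p.π (d.W0 n)) hkD hsl ?_ ?_
    (f.X.chg l.V e he) ?_ (fun n ω => zF d f n ω) ?_ ?_ ?_ (fun n ω m => zb d f n ω m) ?_ ?_ ?_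
  · intro n ω ω' h
    exact h.2
  · rw [l.nul_over e he]
    refine d.nW.of_le (Eventually.of_forall fun _ => H_nonneg _) (Eventually.of_forall fun n => ?_)
    have h1 : H (fc (F := (l.ovr e he).F n) (Setoid.comap (l n).p.π (d.W0 n))) =
        h ((l n).p.map (fc (d.W0 n))) (l n).v := (l n).H_up e he (fc (d.W0 n))
    rw [h1]
    refine (h_le_H _ _).trans (le_of_eq ?_)
    exact (l n).p.H_map _
  · obtain ⟨K, hK, h⟩ := hg.pt
    refine ⟨K, chg_sub l.V e he (l.pj.sub hK), ?_⟩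
    filter_upwards [h] with n h1 ω hω j
    rw [hdl, mul_one]
    exact h1 ω hω j
  · filter_upwards [f.fn, d.fΦ] with n h1 h2 ω ω' a b c d'
    have e1 := h1 ω ω' a b c.2 c.1
    have e2 := h2 _ _ (l.pj.supp n ω a) (l.pj.supp n ω' b) ((l.pj.hZ n ω ω' a b).1 c.2) d'
    unfold zF
    rw [e1, e2]
  · exact zF_wd d f hw0 hc
  · filter_upwards [zF_wd d f hw0 hc] with n h1 ω hω
    exact (deg_of_wd hw (h1 ω hω)).trans hD
  · filter_upwards [f.fn, d.fa] with n h1 h2 ω ω' a b c d'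
    have e1 := h1 ω ω' a b c.2 c.1
    have e2 := h2 _ _ (l.pj.supp n ω a) (l.pj.supp n ω' b) ((l.pj.hZ n ω ω' a b).1 c.2) d'.1
    funext m
    unfold zb
    rw [e1, e2]
  · intro n ω m hm
    exact sft_coeff_zero _ _ _ hm
  · intro ε hε
    obtain ⟨ε', h0, h1, h2⟩ : ∃ ε' : ℝ, 0 < ε' ∧ ε' < 1 ∧ ε' ≤ e * ε / 2 :=
      ⟨min (e * ε / 2) (1 / 2), lt_min (by positivity) (by norm_num), lt_of_le_of_lt (min_le_right _ _) (by norm_num),
        min_le_left _ _⟩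
    obtain ⟨K3, hK3, hT3⟩ := resid d f hw hc ht hkD
    obtain ⟨K4, hK4, hT4⟩ := lower (e := e) d f hw hc ht (fun j => by linarith [hce j]) hN h0 h1
    have hT : Typ (S := l.sp) fun n ω => 0 < nrm (mx t (zF d f n ω)) ∧
        |MvPolynomial.eval (f.X.v n ω) (zF d f n ω) - ∑ m ∈ range (D + 1), zb d f n ω m * f.X.v n ω t ^ m| ≤
          nrm (mx t (zF d f n ω)) * S.dl (e * (1 - ε)) n := by
      refine (hT3.and hT4).mono ?_
      filter_upwards [hK3.1, hK4.1, (hK4.mul hK3).eventually_le (show 0 < e * ε / 2 by positivity)] with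
        n k3 k4 h3 ω hω h4
      obtain ⟨h5, h6⟩ := h4
      have h7 : 0 < K4 n * nrm (mx t (zF d f n ω)) := lt_of_lt_of_le (mul_pos (S.dl_pos _ _) (S.dl_pos _ _)) h6
      have h8 : 0 < K4 n := pos_of_mul_pos_left h7 (nrm_nonneg _)
      have h9 : 0 < nrm (mx t (zF d f n ω)) := pos_of_mul_pos_right h7 h8.le
      refine ⟨h9, h5.trans ?_⟩
      rw [← mul_le_mul_iff_right₀ h8]
      have e1 : S.dl (1 - e) n * S.dl ε' n * S.dl (e * (1 - ε)) n = 2 ^ ((e * ε - ε') * (S.F n).n) * S.dl 1 n := by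
        unfold Sp.dl
        rw [← Real.rpow_add (by norm_num), ← Real.rpow_add (by norm_num), ← Real.rpow_add (by norm_num)]
        congr 1
        ring
      have e2 : (2 : ℝ) ^ (e * ε / 2 * (S.F n).n) ≤ 2 ^ ((e * ε - ε') * (S.F n).n) :=
        Real.rpow_le_rpow_of_exponent_le (by norm_num) (mul_le_mul_of_nonneg_right (by linarith) (S.F n).pos.le)
      calc K4 n * (K3 n * S.dl 1 n) = K4 n * K3 n * S.dl 1 n := by ring
        _ ≤ 2 ^ ((e * ε - ε') * (S.F n).n) * S.dl 1 n :=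
            mul_le_mul_of_nonneg_right (by linarith) (S.dl_pos 1 n).le
        _ = S.dl (1 - e) n * S.dl ε' n * S.dl (e * (1 - ε)) n := e1.symm
        _ ≤ K4 n * nrm (mx t (zF d f n ω)) * S.dl (e * (1 - ε)) n := mul_le_mul_of_nonneg_right h6 (S.dl_pos _ n).le
        _ = _ := by ring
    refine Typ.mono (S := l.ovr e he) hT (Eventually.of_forall fun n ω _ h3 => ?_)
    refine ⟨h3.1, ?_⟩
    rw [hdl]
    exact h3.2

end

end Pool.Agent.Helper58.CCZ
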